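import Mathlib
import Pool.Agent.H391R2.WrGrp

/-!
Statements (NOT results) of the pieces of the project (G wr A_n) wr A_r over Q
(owner helper793, problem MP_dadaab_nt).
-/

set_option autoImplicit false

namespace Pool.Agent.Y793

open Polynomial Pool.Agent.H391R2

/-! ### Group theory -/

/-- The alternating wreath product `G ≀ A_n`, as a subgroup of `G ≀ S_n`. -/
def AWr (G : Type) [Group G] (n : ℕ) : Subgroup (Wr G n) :=
  (Equiv.Perm.sign.comp SemidirectProduct.rightHom).ker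

/-- GRP: a subgroup of `G ≀ S_n` which is transitive on labelled pairs and contains an element
over a three-cycle contains `G ≀ A_n`, if `G` is perfect and `n` large. -/
def St_grp : Prop :=
  ∀ (G : Type) [Group G] [Finite G], commutator G = ⊤ → ∀ n : ℕ, 7 ≤ n →
    2 * (Nat.card G) ^ 2 < (n - 2).factorial → ∀ H : Subgroup (Wr G n),
    (∀ a b a' b' : Fin n, a ≠ b → a' ≠ b' → ∀ g h : G, ∃ x ∈ H,
      x.right a = a' ∧ x.right b = b' ∧ x.left a' = g ∧ x.left b' = h) →
    (∃ x ∈ H, x.right.IsThreeCycle) → AWr G n ≤ H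

/-- PERF: `G ≀ A_n` is perfect if `G` is perfect and `n ≥ 5`. -/
def St_perf : Prop :=
  ∀ (G : Type) [Group G], commutator G = ⊤ → ∀ n : ℕ, 5 ≤ n → commutator (AWr G n) = ⊤

/-! ### Polynomials -/

/-- The antiderivative with value `0` at `0`. -/
noncomputable def adr (K : Type) {E : Type} [Field K] [CommRing E] [Algebra K E] (p : E[X]) :
    E[X] :=
  p.sum fun n a => monomial (n + 1) (algebraMap K E ((n : K) + 1)⁻¹ * a)

/-- The properties of the data: `κ`, `g`, `u` are families of polynomials. -/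
structure DOK {K ι : Type} [Field K] [Fintype ι] (D : K[X]) (k : ℕ) (κ g u : ι → K[X]) :
    Prop where
  hD : D ≠ 0
  h1 : ∀ i, D * g i + 2 * derivative (X * D * g i) = 6 * κ i * derivative (X * D)
  h2 : ∀ i, X * derivative D * u i + 2 * derivative (X * D * u i) = 4 * κ i
  hli : LinearIndependent K κ
  hκ : ∀ i, (κ i).natDegree ≤ k
  hg : ∀ i, (g i).natDegree ≤ k
  hu : ∀ i, (u i).natDegree ≤ k
  htop : ∃ i, (κ i).natDegree = k
  hcard : k + 5 < 2 * Fintype.card ι

/-- DATA: existence of the data. -/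
def St_data : Prop :=
  ∀ (K : Type) [Field K] [CharZero K] (D : K[X]), D ≠ 0 → ∃ k₀ : ℕ, ∀ k ≥ k₀,
    ∃ (p : ℕ) (κ g u : Fin p → K[X]), DOK D k κ g u

/-- ISO: the form `u ↦ ∫_{s₂}^{s₁} (∑ u_i κ_i)²` has no totally isotropic subspace of dimension
more than `(k+1)/2`. -/
def St_iso : Prop :=
  ∀ (K F ι : Type) [Field K] [CharZero K] [Field F] [Algebra K F] [Fintype ι] (κ : ι → K[X])
    (k : ℕ), LinearIndependent K κ → (∀ i, (κ i).natDegree ≤ k) → ∀ (s₁ s₂ : F), s₁ ≠ s₂ →
    ∀ U : Submodule F (ι → F),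
    (∀ u ∈ U, (adr K ((∑ i, C (u i) * (κ i).map (algebraMap K F)) ^ 2)).eval s₁ =
      (adr K ((∑ i, C (u i) * (κ i).map (algebraMap K F)) ^ 2)).eval s₂) →
    2 * Module.finrank F U ≤ k + 1

/-- GEN: a point `c` in the span of a linear subspace `U` over `F`, such that `N` is algebraic over
`F(c)` and the transcendence degree of `N` over `F` is at least the dimension of `U`, is
a generic point of `U`. -/
def St_gen : Prop :=
  ∀ (F N I : Type) [Field F] [Field N] [Algebra F N] [Fintype I] (c : I → N),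
    Algebra.IsAlgebraic (IntermediateField.adjoin F (Set.range c)) N →
    ∀ U : Submodule F (I → F),
      c ∈ Submodule.span N ((fun (v : I → F) (i : I) => algebraMap F N (v i)) '' (U : Set (I → F))) →
      (Module.finrank F U : Cardinal) ≤ Algebra.trdeg F N →
      ∀ f : MvPolynomial I F, MvPolynomial.aeval c f = 0 → ∀ v ∈ U, MvPolynomial.eval v f = 0

/-! ### Regular extensions -/

/-- EXT: extension of embeddings of a regular Galois extension `Z` of `K(t)` and of a square root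
`w` of `t - t₀`. -/
def St_ext : Prop :=
  ∀ (K Z N : Type) [Field K] [CharZero K] [Field Z] [Algebra (RatFunc K) Z] [Algebra K Z]
    [IsScalarTower K (RatFunc K) Z] [FiniteDimensional (RatFunc K) Z] [IsGalois (RatFunc K) Z]
    [Field N] [IsAlgClosed N] [Algebra K N],
    (∀ y : Z, IsAlgebraic K y → y ∈ Set.range (algebraMap K Z)) →
    ∀ t₀ : K, (∀ (z : Z) (a : K), a ≠ 0 →
      z ^ 2 ≠ algebraMap (RatFunc K) Z (RatFunc.C a * (RatFunc.X - RatFunc.C t₀))) →
    ∀ (F : IntermediateField K N) (φ : Z →ₐ[K] N) (w : N),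
      w ^ 2 = φ (algebraMap (RatFunc K) Z (RatFunc.X - RatFunc.C t₀)) → Transcendental F w →
      ∀ (γ : Z ≃ₐ[RatFunc K] Z) (e : ℤˣ), ∃ τ : N ≃ₐ[F] N,
        (∀ z, τ (φ z) = φ (γ z)) ∧ τ w = (e : ℤ) • w

/-- STAR: existence of `t₀`. -/
def St_star : Prop :=
  ∀ (K Z : Type) [Field K] [CharZero K] [Field Z] [Algebra (RatFunc K) Z]
    [FiniteDimensional (RatFunc K) Z] [IsGalois (RatFunc K) Z],
    ∃ t₀ : K, ∀ (z : Z) (a : K), a ≠ 0 →
      z ^ 2 ≠ algebraMap (RatFunc K) Z (RatFunc.C a * (RatFunc.X - RatFunc.C t₀))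

/-! ### Power series -/

/-- TRI: the structure of the roots near a triple root. -/
def St_tri : Prop :=
  ∀ (κ : Type) [Field κ] [IsAlgClosed κ] [CharZero κ] (ω : κ), IsPrimitiveRoot ω 3 →
    ∀ (f : Polynomial (PowerSeries κ)) (u w₁ : κ), u ≠ 0 → ∀ n : ℕ, f.natDegree = n + 3 →
    f.leadingCoeff = PowerSeries.C u → f.map (PowerSeries.rescale ω) = f →
    ∀ a : Fin n → κ, Function.Injective a → (∀ i, a i ≠ w₁) →
    f.map PowerSeries.constantCoeff = C u * ((X - C w₁) ^ 3 * ∏ i, (X - C (a i))) →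
    (∃ v : PowerSeries κ, PowerSeries.constantCoeff v ≠ 0 ∧
      f.eval (PowerSeries.C w₁) = PowerSeries.X ^ 3 * v) →
    ∃ (α : Fin n → PowerSeries κ) (z : ZMod 3 → PowerSeries κ),
      (∀ i, PowerSeries.constantCoeff (α i) = a i) ∧
      (∀ i, PowerSeries.rescale ω (α i) = α i) ∧
      (∀ j, PowerSeries.constantCoeff (z j) = w₁) ∧ Function.Injective z ∧
      (∀ j, PowerSeries.rescale ω (z j) = z (j + 1)) ∧
      f = C (PowerSeries.C u) * ((∏ j, (X - C (z j))) * ∏ i, (X - C (α i)))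

/-- SET: an algebraically closed field containing `κ⟦X⟧` to which `X ↦ ω X` extends. -/
def St_set : Prop :=
  ∀ (κ : Type) [Field κ] [CharZero κ] (ω : κ), IsPrimitiveRoot ω 3 →
    ∃ (Ω : Type) (_ : Field Ω) (_ : IsAlgClosed Ω) (ι : PowerSeries κ →+* Ω) (τ : Ω ≃+* Ω),
      Function.Injective ι ∧ (∀ f, τ (ι f) = ι (PowerSeries.rescale ω f)) ∧
      ∀ p : Polynomial κ, (p.map (ι.comp PowerSeries.C)).eval (ι (PowerSeries.X ^ 3)) = 0 → p = 0

/-! ### Parity -/

/-- EVN: the automorphism `σ` acts as an even permutation on the roots of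
`Φ = A² - D(X²) B²`. -/
def St_evn : Prop :=
  ∀ (N : Type) [Field N] [IsAlgClosed N] [CharZero N] (σ : N ≃+* N) (A B D : N[X]) (c : N) (m : ℕ)
    (r h : Fin (2 * m) → N) (π : Equiv.Perm (Fin (2 * m))),
    Even m → c ≠ 0 → A.natDegree = m → A.leadingCoeff = c → B ≠ 0 → D ≠ 0 →
    A.map (σ : N →+* N) = A → B.map (σ : N →+* N) = B → D.map (σ : N →+* N) = D →
    A ^ 2 - expand N 2 D * B ^ 2 = C (c ^ 2) * ∏ i, (X - C (r i)) →
    Function.Injective r → B.eval 0 = 0 →
    (∀ t, D.eval (t ^ 2) = 0 → A.eval t = A.eval (-t)) →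
    (∀ i, (A ^ 2 - expand N 2 D * B ^ 2).derivative.eval (r i) = r i * A.eval (r i) * h i ^ 2) →
    (∀ i, σ (r i) = r (π i)) → (∀ i, σ (h i) = h (π i)) → Equiv.Perm.sign π = 1

end Pool.Agent.Y793
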