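import Mathlib
import Pool.Agent.Y793.Stm
import Pool.Agent.H391R2.T4.Red

/-!
Statements (NOT results) of further pieces of the project (G wr A_n) wr A_r over Q
(owner helper793, problem MP_dadaab_nt).
-/

set_option autoImplicit false

namespace Pool.Agent.Y793

open Pool.Agent.H391R2 Pool.Agent.H391R2.T4

/-- ARI: a variant of `Pool.Agent.H391R2.T4.arith_abs` for a subgroup `H₀` of the wreath product,
with `L = K`, together with the passage to one variable (`Pool.Agent.H81R2.BT.taskA`). -/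
def St_arith : Prop :=
  ∀ (K K₀ N : Type) [Field K] [CharZero K] [Field K₀] [Algebra K K₀] [IsAlgClosed K₀]
    [Algebra.IsAlgebraic K K₀] [Field N] [IsAlgClosed N] [Algebra K₀ N] [Algebra K N]
    [IsScalarTower K K₀ N] (ι : Type) [Finite ι] (η : ι → N), IsTranscendenceBasis K₀ η →
    ∀ (G : Type) [Group G] [Finite G] (n : ℕ) (H₀ : Subgroup (Wr G n)) (r : Fin n → N),
    Function.Injective r → ∀ (vv : Fin n → G → N), (∀ i, Function.Injective (vv i)) →
    (∀ (σ : N ≃ₐ[K] N), (∀ v, σ (η v) = η v) → ∃ x ∈ H₀, ∀ i,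
        σ (r i) = r (x.right i) ∧
        ∀ g, σ (vv i g) = vv (x.right i) (x.left (x.right i) * g)) →
    (∀ x ∈ H₀, ∃ σ : N ≃ₐ[K₀] N, (∀ v, σ (η v) = η v) ∧ ∀ i,
        σ (r i) = r (x.right i) ∧
        ∀ g, σ (vv i g) = vv (x.right i) (x.left (x.right i) * g)) →
    RegSol K K H₀ 1

/-- The main theorem of the project. -/
def St_main : Prop :=
  ∀ (K : Type) [Field K] [CharZero K] (Γ : Type) [Group Γ] [Finite Γ], RegSol K K Γ 1 →
    ∀ P : Subgroup Γ, P.index = 2 → commutator P = ⊤ →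
    ∃ k₀ : ℕ, ∀ k ≥ k₀, RegSol K K (AWr P (8 * k + 4)) 1

end Pool.Agent.Y793
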