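import Mathlib
import Pool.Agent.Y793.Stm

set_option autoImplicit false
set_option linter.unusedSectionVars false
set_option linter.unusedSimpArgs false

namespace Pool.Agent.Y793

open Polynomial

section adr

variable {K : Type} [Field K] {E : Type} [CommRing E] [Algebra K E]

theorem coeff_adr_zero (p : E[X]) : (adr K p).coeff 0 = 0 := by
  unfold adr
  rw [Polynomial.sum_def, finsetSum_coeff]
  refine Finset.sum_eq_zero fun n _ => ?_
  rw [coeff_monomial, if_neg (Nat.succ_ne_zero n)]

theorem coeff_adr_succ (p : E[X]) (n : ℕ) :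
    (adr K p).coeff (n + 1) = algebraMap K E ((n : K) + 1)⁻¹ * p.coeff n := by
  classical
  unfold adr
  rw [Polynomial.sum_def, finsetSum_coeff]
  simp only [coeff_monomial, add_left_inj]
  rw [Finset.sum_ite_eq' p.support n]
  split_ifs with h
  · rfl
  · rw [notMem_support_iff.1 h, mul_zero]

theorem adr_add (p q : E[X]) : adr K (p + q) = adr K p + adr K q := by
  ext n
  rcases n with _ | n
  · simp only [coeff_add, coeff_adr_zero, add_zero]
  · simp only [coeff_add, coeff_adr_succ, mul_add]

theorem adr_C_mul (a : E) (p : E[X]) : adr K (C a * p) = C a * adr K p := by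
  ext n
  rcases n with _ | n
  · simp only [coeff_C_mul, coeff_adr_zero, mul_zero]
  · simp only [coeff_C_mul, coeff_adr_succ]
    ring

theorem adr_sum {J : Type} (s : Finset J) (f : J → E[X]) :
    adr K (∑ j ∈ s, f j) = ∑ j ∈ s, adr K (f j) := by
  classical
  induction s using Finset.induction_on with
  | empty =>
    rw [Finset.sum_empty, Finset.sum_empty]
    ext n
    rcases n with _ | n
    · rw [coeff_adr_zero, coeff_zero]
    · rw [coeff_adr_succ, coeff_zero, coeff_zero, mul_zero]
  | insert a s ha ih => rw [Finset.sum_insert ha, Finset.sum_insert ha, adr_add, ih]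

theorem adr_map {E' : Type} [CommRing E'] [Algebra K E'] (f : E →ₐ[K] E') (p : E[X]) :
    (adr K p).map (f : E →+* E') = adr K (p.map (f : E →+* E')) := by
  ext n
  rcases n with _ | n
  · rw [coeff_map, coeff_adr_zero, coeff_adr_zero, map_zero]
  · rw [coeff_map, coeff_adr_succ, coeff_adr_succ, coeff_map, map_mul]
    congr 1
    exact f.commutes _

theorem derivative_adr [CharZero K] (p : E[X]) : derivative (adr K p) = p := by
  ext n
  rw [coeff_derivative, coeff_adr_succ]
  have h1 : ((n : E) + 1) = algebraMap K E ((n : K) + 1) := by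
    rw [map_add, map_natCast, map_one]
  have h2 : ((n : K) + 1) ≠ 0 := by exact_mod_cast Nat.succ_ne_zero n
  rw [h1, mul_comm, ← mul_assoc, ← map_mul, mul_inv_cancel₀ h2, map_one, one_mul]

end adr

section fam

variable {K ι : Type} [Field K] [Fintype ι] (D : K[X]) (κ g u : ι → K[X])

/-- A linear combination of the polynomials of a family. -/
noncomputable def lin (f : ι → K[X]) {E : Type} [CommRing E] [Algebra K E] (v : ι ⊕ Bool → E) :
    E[X] :=
  ∑ i, C (v (Sum.inl i)) * (f i).map (algebraMap K E)

variable {E : Type} [CommRing E] [Algebra K E]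

theorem lin_add (f : ι → K[X]) (v v' : ι ⊕ Bool → E) : lin f (v + v') = lin f v + lin f v' := by
  unfold lin
  rw [← Finset.sum_add_distrib]
  refine Finset.sum_congr rfl fun i _ => ?_
  rw [Pi.add_apply, C_add, add_mul]

theorem lin_smul (f : ι → K[X]) (a : E) (v : ι ⊕ Bool → E) : lin f (a • v) = C a * lin f v := by
  unfold lin
  rw [Finset.mul_sum]
  refine Finset.sum_congr rfl fun i _ => ?_
  rw [Pi.smul_apply, smul_eq_mul, C_mul, mul_assoc]

theorem lin_map {E' : Type} [CommRing E'] [Algebra K E'] (φ : E →ₐ[K] E') (f : ι → K[X])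
    (v : ι ⊕ Bool → E) : (lin f v).map (φ : E →+* E') = lin f (fun i => φ (v i)) := by
  unfold lin
  rw [Polynomial.map_sum]
  refine Finset.sum_congr rfl fun i _ => ?_
  rw [Polynomial.map_mul, map_C, Polynomial.map_map]
  congr 2
  exact φ.comp_algebraMap

/-- The bilinear version of `κ² + (9/4) α² X Q'² + β² D`. -/
noncomputable def gin (v v' : ι ⊕ Bool → E) : E[X] :=
  lin κ v * lin κ v' + C (algebraMap K E (9 / 4) * v (Sum.inr true) * v' (Sum.inr true)) *
    (X * derivative (X * D) ^ 2).map (algebraMap K E) +
    C (v (Sum.inr false) * v' (Sum.inr false)) * D.map (algebraMap K E)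

/-- The bilinear version of the function `F`. -/
noncomputable def BF (v v' : ι ⊕ Bool → E) (w y : E) : E :=
  (adr K (gin D κ v v')).eval (w ^ 2) + ((X * D).map (algebraMap K E)).eval (w ^ 2) *
    algebraMap K E (1 / 2) *
    (w * (v (Sum.inr true) * (lin g v').eval (w ^ 2) + v' (Sum.inr true) * (lin g v).eval (w ^ 2)) +
    y * (v (Sum.inr false) * (lin u v').eval (w ^ 2) + v' (Sum.inr false) *
      (lin u v).eval (w ^ 2)) +
    2 * (v (Sum.inr true) * v' (Sum.inr false) + v' (Sum.inr true) * v (Sum.inr false)) * w * y)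

/-- The function `F`. -/
noncomputable def FF (v : ι ⊕ Bool → E) (w y : E) : E :=
  (adr K (gin D κ v v)).eval (w ^ 2) + ((X * D).map (algebraMap K E)).eval (w ^ 2) *
    (v (Sum.inr true) * w * (lin g v).eval (w ^ 2) +
      v (Sum.inr false) * y * (lin u v).eval (w ^ 2) +
      2 * v (Sum.inr true) * v (Sum.inr false) * w * y)

theorem gin_comm (v v' : ι ⊕ Bool → E) : gin D κ v v' = gin D κ v' v := by
  unfold gin
  have h1 : algebraMap K E (9 / 4) * v (Sum.inr true) * v' (Sum.inr true) =
    algebraMap K E (9 / 4) * v' (Sum.inr true) * v (Sum.inr true) := by ring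
  have h2 : v (Sum.inr false) * v' (Sum.inr false) = v' (Sum.inr false) * v (Sum.inr false) := by
    ring
  rw [mul_comm (lin κ v), h1, h2]

theorem gin_add (v v' v'' : ι ⊕ Bool → E) :
    gin D κ v (v' + v'') = gin D κ v v' + gin D κ v v'' := by
  unfold gin
  simp only [lin_add, Pi.add_apply, mul_add, C_add]
  ring

theorem gin_smul (a : E) (v v' : ι ⊕ Bool → E) :
    gin D κ v (a • v') = C a * gin D κ v v' := by
  unfold gin
  simp only [lin_smul, Pi.smul_apply, smul_eq_mul, C_mul]
  ring

theorem gin_map {E' : Type} [CommRing E'] [Algebra K E'] (φ : E →ₐ[K] E')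
    (v v' : ι ⊕ Bool → E) :
    (gin D κ v v').map (φ : E →+* E') = gin D κ (fun i => φ (v i)) (fun i => φ (v' i)) := by
  unfold gin
  have h1 : (φ : E →+* E').comp (algebraMap K E) = algebraMap K E' := φ.comp_algebraMap
  simp only [Polynomial.map_add, Polynomial.map_mul, lin_map, map_C, Polynomial.map_map, h1,
    map_mul, RingHom.coe_coe, AlgHom.commutes]

theorem BF_comm (v v' : ι ⊕ Bool → E) (w y : E) :
    BF D κ g u v v' w y = BF D κ g u v' v w y := by
  unfold BF
  rw [gin_comm]
  ring

theorem BF_add (v v' v'' : ι ⊕ Bool → E) (w y : E) :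
    BF D κ g u v (v' + v'') w y = BF D κ g u v v' w y + BF D κ g u v v'' w y := by
  unfold BF
  simp only [gin_add, adr_add, eval_add, lin_add, Pi.add_apply]
  ring

theorem BF_smul (a : E) (v v' : ι ⊕ Bool → E) (w y : E) :
    BF D κ g u v (a • v') w y = a * BF D κ g u v v' w y := by
  unfold BF
  simp only [gin_smul, adr_C_mul, eval_mul, eval_C, lin_smul, Pi.smul_apply, smul_eq_mul]
  ring

theorem BF_self [CharZero K] (v : ι ⊕ Bool → E) (w y : E) :
    BF D κ g u v v w y = FF D κ g u v w y := by
  unfold BF FF
  have h1 : algebraMap K E (1 / 2) * 2 = 1 := by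
    rw [← map_ofNat (algebraMap K E) 2, ← map_mul]
    norm_num
  linear_combination (((X * D).map (algebraMap K E)).eval (w ^ 2) *
    (v (Sum.inr true) * w * (lin g v).eval (w ^ 2) +
      v (Sum.inr false) * y * (lin u v).eval (w ^ 2) +
      2 * v (Sum.inr true) * v (Sum.inr false) * w * y)) * h1

theorem BF_map {E' : Type} [CommRing E'] [Algebra K E'] (φ : E →ₐ[K] E')
    (v v' : ι ⊕ Bool → E) (w y : E) :
    φ (BF D κ g u v v' w y) = BF D κ g u (fun i => φ (v i)) (fun i => φ (v' i)) (φ w) (φ y) := by
  have h1 : (φ : E →+* E').comp (algebraMap K E) = algebraMap K E' := φ.comp_algebraMap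
  have h2 : ∀ (p : E[X]) (x : E), φ (p.eval x) = (p.map (φ : E →+* E')).eval (φ x) := by
    intro p x
    exact (eval_map_apply (f := (φ : E →+* E')) (p := p) (x := x)).symm
  unfold BF
  simp only [map_add, map_mul, h2, adr_map, gin_map, lin_map, Polynomial.map_map, h1, map_pow,
    AlgHom.commutes, map_ofNat]

theorem FF_map {E' : Type} [CommRing E'] [Algebra K E'] (φ : E →ₐ[K] E')
    (v : ι ⊕ Bool → E) (w y : E) :
    φ (FF D κ g u v w y) = FF D κ g u (fun i => φ (v i)) (φ w) (φ y) := by
  have h1 : (φ : E →+* E').comp (algebraMap K E) = algebraMap K E' := φ.comp_algebraMap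
  have h2 : ∀ (p : E[X]) (x : E), φ (p.eval x) = (p.map (φ : E →+* E')).eval (φ x) := by
    intro p x
    exact (eval_map_apply (f := (φ : E →+* E')) (p := p) (x := x)).symm
  unfold FF
  simp only [map_add, map_mul, h2, adr_map, gin_map, lin_map, Polynomial.map_map, h1, map_pow,
    map_ofNat]

/-- The polynomial `A`. -/
noncomputable def PA (v : ι ⊕ Bool → E) (T : E) : E[X] :=
  expand E 2 (adr K (gin D κ v v)) + C (v (Sum.inr true)) * X *
    expand E 2 ((X * D).map (algebraMap K E) * lin g v) - C T

/-- The polynomial `B`. -/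
noncomputable def PB (v : ι ⊕ Bool → E) : E[X] :=
  expand E 2 ((X * D).map (algebraMap K E)) * (C (v (Sum.inr false)) * expand E 2 (lin u v) +
    C (2 * v (Sum.inr true) * v (Sum.inr false)) * X)

/-- The polynomial `Φ`. -/
noncomputable def PP (v : ι ⊕ Bool → E) (T : E) : E[X] :=
  PA D κ g v T ^ 2 - expand E 2 (D.map (algebraMap K E)) * PB D u v ^ 2

theorem FF_eq (v : ι ⊕ Bool → E) (T w y : E) :
    FF D κ g u v w y = (PA D κ g v T).eval w + T + y * (PB D u v).eval w := by
  unfold FF PA PB
  simp only [eval_add, eval_sub, eval_mul, eval_C, eval_X, expand_eval]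
  ring

/-- The component `a⁰` of the square root of the derivative. -/
noncomputable def PC (v : ι ⊕ Bool → E) : E[X] :=
  expand E 2 (lin κ v) + C (algebraMap K E (3 / 2) * v (Sum.inr true)) * X *
    expand E 2 ((derivative (X * D)).map (algebraMap K E))

end fam

section ident

variable {K ι : Type} [Field K] [CharZero K] [Fintype ι] {D : K[X]} {κ g u : ι → K[X]} {k : ℕ}
  (h : DOK D k κ g u) {E : Type} [CommRing E] [Algebra K E]

include h

theorem id1 (v : ι ⊕ Bool → E) :
    D.map (algebraMap K E) * lin g v + 2 * derivative ((X * D).map (algebraMap K E) * lin g v) =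
      6 * lin κ v * (derivative (X * D)).map (algebraMap K E) := by
  have h1 : ∀ i, D.map (algebraMap K E) * (g i).map (algebraMap K E) +
      2 * derivative ((X * D).map (algebraMap K E) * (g i).map (algebraMap K E)) =
      6 * (κ i).map (algebraMap K E) * (derivative (X * D)).map (algebraMap K E) := by
    intro i
    have h2 := congrArg (Polynomial.map (algebraMap K E)) (h.h1 i)
    simp only [Polynomial.map_add, Polynomial.map_mul, Polynomial.map_ofNat,
      ← derivative_map] at h2 ⊢
    exact h2
  unfold lin
  rw [Finset.mul_sum, Finset.mul_sum, derivative_sum, Finset.mul_sum, Finset.mul_sum,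
    Finset.sum_mul, ← Finset.sum_add_distrib]
  refine Finset.sum_congr rfl fun i _ => ?_
  have h3 : (X * D).map (algebraMap K E) * (C (v (Sum.inl i)) * (g i).map (algebraMap K E)) =
      C (v (Sum.inl i)) * ((X * D).map (algebraMap K E) * (g i).map (algebraMap K E)) := by ring
  rw [h3, derivative_C_mul]
  linear_combination C (v (Sum.inl i)) * h1 i

theorem id2 (v : ι ⊕ Bool → E) :
    X * (derivative D).map (algebraMap K E) * lin u v +
      2 * derivative ((X * D).map (algebraMap K E) * lin u v) = 4 * lin κ v := by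
  have h1 : ∀ i, X * (derivative D).map (algebraMap K E) * (u i).map (algebraMap K E) +
      2 * derivative ((X * D).map (algebraMap K E) * (u i).map (algebraMap K E)) =
      4 * (κ i).map (algebraMap K E) := by
    intro i
    have h2 := congrArg (Polynomial.map (algebraMap K E)) (h.h2 i)
    simp only [Polynomial.map_add, Polynomial.map_mul, Polynomial.map_ofNat,
      ← derivative_map, map_X] at h2 ⊢
    exact h2
  unfold lin
  rw [Finset.mul_sum, Finset.mul_sum, derivative_sum, Finset.mul_sum, Finset.mul_sum,
    ← Finset.sum_add_distrib]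
  refine Finset.sum_congr rfl fun i _ => ?_
  have h3 : (X * D).map (algebraMap K E) * (C (v (Sum.inl i)) * (u i).map (algebraMap K E)) =
      C (v (Sum.inl i)) * ((X * D).map (algebraMap K E) * (u i).map (algebraMap K E)) := by ring
  rw [h3, derivative_C_mul]
  linear_combination C (v (Sum.inl i)) * h1 i

omit h in
theorem expQ (D : K[X]) : expand E 2 ((X * D).map (algebraMap K E)) =
    X ^ 2 * expand E 2 (D.map (algebraMap K E)) := by
  rw [Polynomial.map_mul, map_X, map_mul, expand_X]

omit [CharZero K] h in
theorem exp_der (p : E[X]) : derivative (expand E 2 p) = expand E 2 (derivative p) * (2 * X) := by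
  rw [derivative_expand]
  simp

theorem dA (v : ι ⊕ Bool → E) (T : E) :
    derivative (PA D κ g v T) = 2 * X * (PC D κ v ^ 2 + C (v (Sum.inr false) ^ 2) *
      expand E 2 (D.map (algebraMap K E))) := by
  have h2 := congrArg (expand E 2) (id1 h v)
  simp only [map_add, map_mul, map_ofNat] at h2
  have h3 : C (v (Sum.inr true)) ^ 2 * C (algebraMap K E (9 / 4)) =
      C (v (Sum.inr true)) ^ 2 * (C (algebraMap K E (3 / 2)) : E[X]) ^ 2 := by
    have h0 : algebraMap K E (9 / 4) = algebraMap K E (3 / 2) ^ 2 := by
      rw [← map_pow]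
      congr 1
      norm_num
    rw [h0, C_pow]
  have h4 : 2 * C (algebraMap K E (3 / 2)) = (3 : E[X]) := by
    have e3 : (3 : E[X]) = C (algebraMap K E 3) := by rw [map_ofNat, map_ofNat]
    have e2 : (2 : E[X]) = C (algebraMap K E 2) := by rw [map_ofNat, map_ofNat]
    rw [e3, e2, ← C_mul, ← map_mul]
    norm_num
  have h5 : expand E 2 (gin D κ v v) = expand E 2 (lin κ v) ^ 2 +
      C (v (Sum.inr true)) ^ 2 * C (algebraMap K E (9 / 4)) * X ^ 2 *
        expand E 2 ((derivative (X * D)).map (algebraMap K E)) ^ 2 +
      C (v (Sum.inr false)) ^ 2 * expand E 2 (D.map (algebraMap K E)) := by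
    unfold gin
    simp only [map_add, map_mul, Polynomial.map_mul, Polynomial.map_pow, map_X, map_pow, expand_C,
      expand_X, C_mul]
    ring
  have h6 : derivative (PA D κ g v T) = expand E 2 (gin D κ v v) * (2 * X) +
      C (v (Sum.inr true)) * (expand E 2 ((X * D).map (algebraMap K E)) * expand E 2 (lin g v) +
      X * (expand E 2 (derivative ((X * D).map (algebraMap K E) * lin g v)) * (2 * X))) := by
    unfold PA
    rw [derivative_sub, derivative_add, derivative_C, sub_zero, exp_der, derivative_adr,
      derivative_mul, exp_der, derivative_mul, derivative_C, derivative_X, map_mul]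
    ring
  rw [h6, expQ, h5]
  unfold PC
  rw [C_mul, C_pow]
  linear_combination C (v (Sum.inr true)) * X ^ 2 * h2 + 2 * X ^ 3 *
    expand E 2 ((derivative (X * D)).map (algebraMap K E)) ^ 2 * h3 -
    2 * C (v (Sum.inr true)) * X ^ 2 * expand E 2 (lin κ v) *
      expand E 2 ((derivative (X * D)).map (algebraMap K E)) * h4

theorem dB (v : ι ⊕ Bool → E) :
    expand E 2 (D.map (algebraMap K E)) * derivative (PB D u v) +
      X * expand E 2 ((derivative D).map (algebraMap K E)) * PB D u v =
      4 * X * C (v (Sum.inr false)) * expand E 2 (D.map (algebraMap K E)) * PC D κ v := by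
  have h8 : derivative ((X * D).map (algebraMap K E)) = D.map (algebraMap K E) +
      X * (derivative D).map (algebraMap K E) := by
    rw [derivative_map, derivative_mul, derivative_X, one_mul, Polynomial.map_add,
      Polynomial.map_mul, map_X]
  have h2 := congrArg (expand E 2) (id2 h v)
  rw [derivative_mul, h8] at h2
  simp only [map_add, map_mul, map_ofNat, expand_X, Polynomial.map_mul, map_X] at h2
  have h4 : 2 * C (algebraMap K E (3 / 2)) = (3 : E[X]) := by
    have e3 : (3 : E[X]) = C (algebraMap K E 3) := by rw [map_ofNat, map_ofNat]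
    have e2 : (2 : E[X]) = C (algebraMap K E 2) := by rw [map_ofNat, map_ofNat]
    rw [e3, e2, ← C_mul, ← map_mul]
    norm_num
  have h7 : (derivative (X * D)).map (algebraMap K E) = D.map (algebraMap K E) +
      X * (derivative D).map (algebraMap K E) := by
    rw [derivative_mul, derivative_X, one_mul, Polynomial.map_add, Polynomial.map_mul, map_X]
  have h6 : derivative (PB D u v) = expand E 2 (derivative ((X * D).map (algebraMap K E))) *
      (2 * X) * (C (v (Sum.inr false)) * expand E 2 (lin u v) +
        C (2 * v (Sum.inr true) * v (Sum.inr false)) * X) +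
      expand E 2 ((X * D).map (algebraMap K E)) *
        (C (v (Sum.inr false)) * (expand E 2 (derivative (lin u v)) * (2 * X)) +
        C (2 * v (Sum.inr true) * v (Sum.inr false))) := by
    unfold PB
    rw [derivative_mul, derivative_add, derivative_mul, exp_der, exp_der, derivative_C,
      derivative_mul, derivative_C, derivative_X]
    ring
  rw [h6]
  unfold PB PC
  rw [expQ, h8, h7]
  simp only [C_mul, map_add, map_mul, expand_X, map_ofNat]
  linear_combination (X * C (v (Sum.inr false)) * expand E 2 (D.map (algebraMap K E))) * h2 -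
    2 * X ^ 2 * C (v (Sum.inr true)) * C (v (Sum.inr false)) *
      expand E 2 (D.map (algebraMap K E)) * (expand E 2 (D.map (algebraMap K E)) + X ^ 2 * expand E 2 ((derivative D).map (algebraMap K E))) * h4

end ident

end Pool.Agent.Y793
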