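import Mathlib
import Pool.Agent.Y793.Fam

set_option autoImplicit false
set_option linter.unusedSectionVars false
set_option linter.unusedSimpArgs false

namespace Pool.Agent.Y793

open Polynomial

section dg

variable {K ι : Type} [Field K] [CharZero K] [Fintype ι] {D : K[X]} {κ g u : ι → K[X]} {k : ℕ}
  {N : Type} [Field N] [Algebra K N]

/-- The leading coefficient of `A`. -/
noncomputable def gam (κ : ι → K[X]) (k : ℕ) (v : ι ⊕ Bool → N) : N :=
  algebraMap K N ((2 * k : ℕ) + 1 : K)⁻¹ * (lin κ v).coeff k ^ 2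

theorem lin_natDegree (f : ι → K[X]) (hf : ∀ i, (f i).natDegree ≤ k) (v : ι ⊕ Bool → N) :
    (lin f v).natDegree ≤ k := by
  unfold lin
  refine natDegree_sum_le_of_forall_le _ _ fun i _ => ?_
  exact (natDegree_C_mul_le _ _).trans (natDegree_map_le.trans (hf i))

variable (h : DOK D k κ g u) (hk : 2 * D.natDegree + 2 ≤ k)

include h hk

theorem gin_deg (v : ι ⊕ Bool → N) :
    (gin D κ v v).natDegree ≤ 2 * k ∧ (gin D κ v v).coeff (2 * k) = (lin κ v).coeff k ^ 2 := by
  have hl := lin_natDegree κ h.hκ v
  have h1 : (lin κ v * lin κ v).natDegree ≤ 2 * k := by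
    refine natDegree_mul_le.trans ?_
    omega
  have h2 : (C (algebraMap K N (9 / 4) * v (Sum.inr true) * v (Sum.inr true)) *
    (X * derivative (X * D) ^ 2).map (algebraMap K N)).natDegree < 2 * k := by
    refine lt_of_le_of_lt ((natDegree_C_mul_le _ _).trans natDegree_map_le) ?_
    have h3 : (derivative (X * D)).natDegree ≤ D.natDegree := by
      refine (natDegree_derivative_le _).trans ?_
      have := natDegree_mul_le (p := (X : K[X])) (q := D)
      rw [natDegree_X] at this
      omega
    have h4 : (X * derivative (X * D) ^ 2).natDegree ≤ 1 + 2 * D.natDegree := by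
      refine natDegree_mul_le.trans ?_
      rw [natDegree_X]
      have := natDegree_pow_le (p := derivative (X * D)) (n := 2)
      omega
    omega
  have h3 : (C (v (Sum.inr false) * v (Sum.inr false)) * D.map (algebraMap K N)).natDegree <
      2 * k := by
    refine lt_of_le_of_lt ((natDegree_C_mul_le _ _).trans natDegree_map_le) ?_
    omega
  unfold gin
  constructor
  · refine (natDegree_add_le _ _).trans (max_le ((natDegree_add_le _ _).trans
      (max_le h1 h2.le)) h3.le)
  · rw [coeff_add, coeff_add, coeff_eq_zero_of_natDegree_lt h2, coeff_eq_zero_of_natDegree_lt h3,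
      add_zero, add_zero, two_mul, coeff_mul_add_eq_of_natDegree_le hl hl, sq]

theorem adr_deg (v : ι ⊕ Bool → N) :
    (adr K (gin D κ v v)).natDegree ≤ 2 * k + 1 ∧
    (adr K (gin D κ v v)).coeff (2 * k + 1) = gam κ k v := by
  obtain ⟨h1, h2⟩ := gin_deg h hk v
  constructor
  · rw [natDegree_le_iff_coeff_eq_zero]
    intro n hn
    obtain ⟨n, rfl⟩ : ∃ n', n = n' + 1 := ⟨n - 1, by omega⟩
    rw [coeff_adr_succ, coeff_eq_zero_of_natDegree_lt (by omega), mul_zero]
  · rw [coeff_adr_succ, h2]
    rfl

theorem PA_deg (v : ι ⊕ Bool → N) (T : N) (hv : gam κ k v ≠ 0) :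
    (PA D κ g v T).natDegree = 2 * (2 * k + 1) ∧ (PA D κ g v T).leadingCoeff = gam κ k v := by
  obtain ⟨h1, h2⟩ := adr_deg h hk v
  have hl := lin_natDegree g h.hg v
  have h3 : (C (v (Sum.inr true)) * X *
    expand N 2 ((X * D).map (algebraMap K N) * lin g v) - C T).natDegree < 2 * (2 * k + 1) := by
    refine lt_of_le_of_lt (natDegree_sub_le _ _) ?_
    rw [natDegree_C, max_lt_iff]
    refine ⟨?_, by omega⟩
    have e1 : (X * D).natDegree ≤ 1 + D.natDegree := by
      refine natDegree_mul_le.trans ?_
      rw [natDegree_X]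
    have e2 : ((X * D).map (algebraMap K N) * lin g v).natDegree ≤ 1 + D.natDegree + k :=
      natDegree_mul_le.trans (add_le_add (natDegree_map_le.trans e1) hl)
    refine lt_of_le_of_lt natDegree_mul_le ?_
    rw [natDegree_expand]
    have e3 : (C (v (Sum.inr true)) * X).natDegree ≤ 1 :=
      (natDegree_C_mul_le _ _).trans natDegree_X_le
    omega
  have h4 : PA D κ g v T = expand N 2 (adr K (gin D κ v v)) + (C (v (Sum.inr true)) * X *
    expand N 2 ((X * D).map (algebraMap K N) * lin g v) - C T) := by
    unfold PA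
    ring
  have h5 : (PA D κ g v T).coeff (2 * (2 * k + 1)) = gam κ k v := by
    rw [h4, coeff_add, coeff_eq_zero_of_natDegree_lt h3, add_zero, mul_comm 2,
      coeff_expand_mul (by norm_num), h2]
  have h6 : (PA D κ g v T).natDegree = 2 * (2 * k + 1) := by
    refine natDegree_eq_of_le_of_coeff_ne_zero ?_ (by rw [h5]; exact hv)
    rw [h4]
    refine (natDegree_add_le _ _).trans (max_le ?_ h3.le)
    rw [natDegree_expand]
    omega
  exact ⟨h6, by rw [leadingCoeff, h6, h5]⟩

theorem PB_deg (v : ι ⊕ Bool → N) :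
    (PB D u v).natDegree ≤ 2 * (D.natDegree + 1) + 2 * k := by
  have hl := lin_natDegree u h.hu v
  unfold PB
  refine natDegree_mul_le.trans (add_le_add ?_ ?_)
  · rw [natDegree_expand]
    have e1 : (X * D).natDegree ≤ 1 + D.natDegree := by
      refine natDegree_mul_le.trans ?_
      rw [natDegree_X]
    have e2 := natDegree_map_le (f := algebraMap K N) (p := X * D)
    omega
  · refine (natDegree_add_le _ _).trans (max_le ?_ ?_)
    · refine (natDegree_C_mul_le _ _).trans ?_
      rw [natDegree_expand]
      omega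
    · refine ((natDegree_C_mul_le _ _).trans natDegree_X_le).trans ?_
      omega

theorem PP_deg (v : ι ⊕ Bool → N) (T : N) (hv : gam κ k v ≠ 0) :
    (PP D κ g u v T).natDegree = 2 * (2 * (2 * k + 1)) ∧
    (PP D κ g u v T).leadingCoeff = gam κ k v ^ 2 := by
  obtain ⟨h1, h2⟩ := PA_deg h hk v T hv
  have h3 := PB_deg h hk v
  have h4 : (expand N 2 (D.map (algebraMap K N)) * PB D u v ^ 2).natDegree <
      (PA D κ g v T ^ 2).natDegree := by
    rw [natDegree_pow, h1]
    refine lt_of_le_of_lt natDegree_mul_le ?_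
    rw [natDegree_expand]
    have e1 := natDegree_map_le (f := algebraMap K N) (p := D)
    have e2 := natDegree_pow_le (p := PB D u v) (n := 2)
    omega
  unfold PP
  constructor
  · rw [natDegree_sub_eq_left_of_natDegree_lt h4, natDegree_pow, h1]
  · rw [leadingCoeff_sub_of_degree_lt (degree_lt_degree h4), leadingCoeff_pow, h2]

end dg

end Pool.Agent.Y793
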