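import Mathlib
import Pool.Agent.Y793.Dg

set_option autoImplicit false
set_option linter.unusedSectionVars false
set_option linter.unusedSimpArgs false

namespace Pool.Agent.Y793

open Polynomial

section la

/-- Extension by zero. -/
def jl (F ι : Type) [Field F] : (ι → F) →ₗ[F] (ι ⊕ Bool → F) where
  toFun a := Sum.elim a (fun _ => 0)
  map_add' a b := by
    funext i
    rcases i with i | i
    · rfl
    · exact (add_zero (0 : F)).symm
  map_smul' c a := by
    funext i
    rcases i with i | i
    · rfl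
    · exact (mul_zero c).symm

theorem finrank_comap_jl {F ι : Type} [Field F] [Fintype ι] (U : Submodule F (ι ⊕ Bool → F)) :
    Module.finrank F U ≤ Module.finrank F (U.comap (jl F ι)) + 2 := by
  let π : U →ₗ[F] (Bool → F) :=
    { toFun := fun a b => (a : ι ⊕ Bool → F) (Sum.inr b)
      map_add' := fun a b => rfl
      map_smul' := fun c a => rfl }
  have h1 := π.finrank_range_add_finrank_ker
  have h2 : Module.finrank F (LinearMap.range π) ≤ 2 := by
    refine (Submodule.finrank_le _).trans ?_
    simp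
  have h4 : ∀ a : LinearMap.ker π, jl F ι (fun i => ((a : U) : ι ⊕ Bool → F) (Sum.inl i)) =
      ((a : U) : ι ⊕ Bool → F) := by
    intro a
    funext i
    rcases i with i | i
    · rfl
    · exact (congrFun (LinearMap.mem_ker.1 a.2) i).symm
  let f : LinearMap.ker π →ₗ[F] (U.comap (jl F ι)) :=
    { toFun := fun a => ⟨fun i => ((a : U) : ι ⊕ Bool → F) (Sum.inl i), by
        rw [Submodule.mem_comap, h4]
        exact (a : U).2⟩
      map_add' := fun a b => rfl
      map_smul' := fun c a => rfl }
  have hf : Function.Injective f := by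
    intro a b hab
    apply Subtype.ext
    apply Subtype.ext
    rw [← h4 a, ← h4 b]
    exact congrArg (jl F ι) (congrArg Subtype.val hab)
  have h3 := LinearMap.finrank_le_finrank_of_injective hf
  omega

theorem exists_isotropic {F V : Type} [Field F] [IsAlgClosed F] [CharZero F] [AddCommGroup V]
    [Module F V] [FiniteDimensional F V] (B : V → V → F)
    (hc : ∀ a b, B a b = B b a) (ha : ∀ a b c, B a (b + c) = B a b + B a c)
    (hs : ∀ (a : V) (t : F) (b : V), B a (t • b) = t * B a b)
    (hB : ∀ U : Submodule F V, (∀ a ∈ U, B a a = 0) → Module.finrank F U + 1 < Module.finrank F V) :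
    ∃ e, B e e = 0 ∧ ∃ v, B e v ≠ 0 := by
  obtain ⟨v, hv⟩ : ∃ v, B v v ≠ 0 := by
    by_contra hcon
    push Not at hcon
    have h1 := hB ⊤ (fun a _ => hcon a)
    rw [finrank_top] at h1
    omega
  let f : V →ₗ[F] F :=
    { toFun := fun b => B v b
      map_add' := fun b c => ha v b c
      map_smul' := fun t b => hs v t b }
  obtain ⟨v', hv'0, hv'⟩ : ∃ v', B v v' = 0 ∧ B v' v' ≠ 0 := by
    by_contra hcon
    push Not at hcon
    have h1 := hB (LinearMap.ker f) (fun a h => hcon a (LinearMap.mem_ker.1 h))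
    have h2 := f.finrank_range_add_finrank_ker
    have h3 : Module.finrank F (LinearMap.range f) ≤ 1 := by
      refine (Submodule.finrank_le _).trans ?_
      simp
    omega
  obtain ⟨c, hc2⟩ := IsAlgClosed.exists_pow_nat_eq (-(B v v) / B v' v') (n := 2) (by norm_num)
  have e1 : ∀ a b c, B (b + c) a = B b a + B c a := by
    intro a b c
    rw [hc, ha, hc a b, hc a c]
  have e2 : ∀ (a : V) (t : F) (b : V), B (t • b) a = t * B b a := by
    intro a t b
    rw [hc, hs, hc]
  refine ⟨v + c • v', ?_, v, ?_⟩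
  · rw [ha, e1, e1, hs, hs, e2, e2, hc v' v, hv'0]
    have h5 : c * (c * B v' v') = - B v v := by
      rw [← mul_assoc, ← sq, hc2, div_mul_cancel₀ _ hv']
    linear_combination h5
  · rw [e1, e2, hc v' v, hv'0, mul_zero, add_zero]
    exact hv

end la

section iso

variable {K ι : Type} [Field K] [CharZero K] [Fintype ι] {D : K[X]} {κ g u : ι → K[X]} {k : ℕ}
  (h : DOK D k κ g u) {F : Type} [Field F] [Algebra K F]

theorem FF_jl (a : ι → F) (w y : F) : FF D κ g u (jl F ι a) w y =
    (adr K ((∑ i, C (a i) * (κ i).map (algebraMap K F)) ^ 2)).eval (w ^ 2) := by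
  have h1 : (jl F ι a) (Sum.inr true) = 0 := rfl
  have h2 : (jl F ι a) (Sum.inr false) = 0 := rfl
  have h3 : gin D κ (jl F ι a) (jl F ι a) =
      (∑ i, C (a i) * (κ i).map (algebraMap K F)) ^ 2 := by
    unfold gin
    rw [h1, h2]
    simp only [mul_zero, map_zero, zero_mul, add_zero]
    rw [sq]
    rfl
  unfold FF
  rw [h3, h1, h2]
  ring

include h

theorem iso' (hiso : St_iso) (w₁ y₁ w₂ y₂ : F) (hw : w₁ ^ 2 ≠ w₂ ^ 2)
    (U : Submodule F (ι ⊕ Bool → F))
    (hU : ∀ a ∈ U, FF D κ g u a w₁ y₁ = FF D κ g u a w₂ y₂) :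
    Module.finrank F U < Fintype.card ι := by
  have h1 := finrank_comap_jl U
  have h2 := hiso K F ι κ k h.hli h.hκ (w₁ ^ 2) (w₂ ^ 2) hw (U.comap (jl F ι)) (fun a ha => by
    have h3 := hU _ (Submodule.mem_comap.1 ha)
    rwa [FF_jl, FF_jl] at h3)
  have h3 := h.hcard
  omega

end iso

end Pool.Agent.Y793
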