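import Mathlib
import Pool.Agent.H391R2.T4.Fam

set_option autoImplicit false
set_option linter.unusedSectionVars false
set_option linter.unusedSimpArgs false

namespace Pool.Agent.Y793

section trd

variable {k N : Type} [Field k] [Field N] [Algebra k N]

/-- The relative algebraic closure of `k(S)` in `N`. -/
noncomputable def cl (k : Type) {N : Type} [Field k] [Field N] [Algebra k N] (S : Set N) :
    IntermediateField k N :=
  (algebraicClosure (IntermediateField.adjoin k S) N).restrictScalars k

theorem mem_cl {S : Set N} {x : N} :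
    x ∈ cl k S ↔ IsAlgebraic (IntermediateField.adjoin k S) x := by
  unfold cl
  rw [IntermediateField.mem_restrictScalars, mem_algebraicClosure_iff]

theorem sub_cl (S : Set N) {x : N} (hx : x ∈ S) : x ∈ cl k S := by
  rw [mem_cl]
  exact isAlgebraic_algebraMap (⟨x, IntermediateField.subset_adjoin k S hx⟩ :
    IntermediateField.adjoin k S)

/-- Algebraic elements over a subfield of a field closed under algebraic elements. -/
theorem alg_mono {F₁ F₂ : Subfield N} (h : F₁ ≤ F₂) {x : N} (hx : IsAlgebraic F₁ x) :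
    IsAlgebraic F₂ x := by
  obtain ⟨p, hp, hp0⟩ := hx
  refine ⟨p.map (Subfield.inclusion h), ?_, ?_⟩
  · exact (Polynomial.map_ne_zero_iff (Subfield.inclusion h).injective).2 hp
  · rw [Polynomial.aeval_def, Polynomial.eval₂_map]
    exact hp0

theorem alg_monoI {k' : Type} [Field k'] [Algebra k' N] {F₁ : IntermediateField k N}
    {F₂ : IntermediateField k' N} (h : ∀ x ∈ F₁, x ∈ F₂) {x : N} (hx : IsAlgebraic F₁ x) :
    IsAlgebraic F₂ x :=
  alg_mono (F₁ := F₁.toSubfield) (F₂ := F₂.toSubfield) h hx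

theorem cl_closed {S : Set N} {x : N} (hx : IsAlgebraic (cl k S) x) : x ∈ cl k S := by
  have h1 : x ∈ algebraicClosure (IntermediateField.adjoin k S) N := by
    have h2 : IsAlgebraic (algebraicClosure (IntermediateField.adjoin k S) N) x :=
      alg_monoI (fun _ h => h) hx
    rw [mem_algebraicClosure_iff]
    exact h2.restrictScalars _
  exact h1

theorem mem_of_alg (F : IntermediateField k N) [IsAlgClosed F] {x : N} (hx : IsAlgebraic F x) :
    x ∈ F := by
  obtain ⟨c, hc⟩ := minpoly.mem_range_of_degree_eq_one F x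
    (IsAlgClosed.degree_eq_one_of_irreducible F (minpoly.irreducible hx.isIntegral))
  rw [← hc]
  exact c.2

theorem cl_le {S : Set N} {F : IntermediateField k N} (hS : ∀ x ∈ S, x ∈ F)
    (hF : ∀ x, IsAlgebraic F x → x ∈ F) {x : N} (hx : x ∈ cl k S) : x ∈ F := by
  rw [mem_cl] at hx
  have h1 : IntermediateField.adjoin k S ≤ F := IntermediateField.adjoin_le_iff.2 hS
  exact hF x (alg_monoI (fun y hy => h1 hy) hx)

theorem cl_isAlgClosed [IsAlgClosed N] (S : Set N) : IsAlgClosed (cl k S) := by
  have h1 : IsAlgClosed (algebraicClosure (IntermediateField.adjoin k S) N) :=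
    (algebraicClosure.isAlgClosure (IntermediateField.adjoin k S) N).isAlgClosed
  exact h1

theorem basis_top {V : Type} (z : V → N) (hz : IsTranscendenceBasis k z)
    {k' : Type} [Field k'] [Algebra k' N] (F : IntermediateField k' N)
    (hk : ∀ x : k, algebraMap k N x ∈ F) (hzF : ∀ v, z v ∈ F)
    (hF : ∀ x, IsAlgebraic F x → x ∈ F) (x : N) : x ∈ F := by
  have h1 := hz.isAlgebraic_field
  have h2 : IsAlgebraic (IntermediateField.adjoin k (Set.range z)) x := h1.isAlgebraic x
  refine hF x (alg_monoI (fun y hy => ?_) h2)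
  let F' : IntermediateField k N := F.toSubfield.toIntermediateField (fun x => hk x)
  have h3 : IntermediateField.adjoin k (Set.range z) ≤ F' :=
    IntermediateField.adjoin_le_iff.2 (by rintro _ ⟨v, rfl⟩; exact hzF v)
  exact h3 hy

theorem trdeg_cl_le {J : Type} [Finite J] (f : J → N) :
    Algebra.trdeg k (cl k (Set.range f)) ≤ Cardinal.mk J := by
  classical
  set F := cl k (Set.range f) with hF
  let f' : J → F := fun j => ⟨f j, sub_cl _ ⟨j, rfl⟩⟩
  have halg : Algebra.IsAlgebraic (Algebra.adjoin k (Set.range f')) F := by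
    rw [← IntermediateField.isAlgebraic_adjoin_iff_top]
    refine ⟨fun x => ?_⟩
    obtain ⟨p, hp, hp0⟩ := mem_cl.1 x.2
    let i : IntermediateField.adjoin k (Set.range f') →ₐ[k] N :=
      F.val.comp (IntermediateField.adjoin k (Set.range f')).val
    have h1 : IntermediateField.adjoin k (Set.range f) ≤ i.fieldRange := by
      rw [IntermediateField.adjoin_le_iff]
      rintro _ ⟨j, rfl⟩
      exact ⟨⟨f' j, IntermediateField.subset_adjoin _ _ ⟨j, rfl⟩⟩, rfl⟩
    have h2 : IsAlgebraic i.fieldRange (x : N) := alg_monoI (fun y hy => h1 hy) (mem_cl.1 x.2)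
    obtain ⟨p, hp, hp0⟩ := h2
    let e : IntermediateField.adjoin k (Set.range f') ≃ₐ[k] i.fieldRange :=
      AlgEquiv.ofInjectiveField i
    refine ⟨p.map (e.symm : i.fieldRange →+* _), ?_, ?_⟩
    · exact (Polynomial.map_ne_zero_iff e.symm.injective).2 hp
    · apply F.val.injective
      rw [map_zero, Polynomial.aeval_def, Polynomial.eval₂_map, ← hp0, Polynomial.aeval_def]
      change (F.val : F →+* N) _ = _
      rw [Polynomial.hom_eval₂]
      congr 1
      apply RingHom.ext
      intro z
      exact congrArg Subtype.val (e.apply_symm_apply z)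
  have h1 := Algebra.IsAlgebraic.trdeg_le_cardinalMk k (Set.range f') (A := F)
  exact h1.trans Cardinal.mk_range_le

theorem le_trdeg_cl {V J : Type} [Finite V] [Finite J] (z : V → N)
    (hz : IsTranscendenceBasis k z) (f : J → N) (n : ℕ) (hn : n + Nat.card J ≤ Nat.card V) :
    (n : Cardinal) ≤ Algebra.trdeg (cl k (Set.range f)) N := by
  have h1 : Algebra.trdeg k (cl k (Set.range f)) + Algebra.trdeg (cl k (Set.range f)) N =
      Algebra.trdeg k N := _root_.trdeg_add_eq ..
  have h2 : Cardinal.mk V = Algebra.trdeg k N := hz.cardinalMk_eq_trdeg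
  have h3 := trdeg_cl_le (k := k) f
  rw [← h2] at h1
  have hfV : Cardinal.mk V = (Nat.card V : Cardinal) := (Nat.cast_card).symm
  have hfJ : Cardinal.mk J = (Nat.card J : Cardinal) := (Nat.cast_card).symm
  rw [hfV] at h1
  rw [hfJ] at h3
  have h4 : Algebra.trdeg k (cl k (Set.range f)) < Cardinal.aleph0 :=
    lt_of_le_of_lt h3 (Cardinal.natCast_lt_aleph0)
  have h5 : Algebra.trdeg (cl k (Set.range f)) N < Cardinal.aleph0 := by
    refine lt_of_le_of_lt ?_ (Cardinal.natCast_lt_aleph0 (n := Nat.card V))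
    rw [← h1]
    exact self_le_add_left _ _
  obtain ⟨a, ha⟩ := Cardinal.lt_aleph0.1 h4
  obtain ⟨b, hb⟩ := Cardinal.lt_aleph0.1 h5
  rw [ha, hb] at h1
  rw [ha] at h3
  rw [hb]
  norm_cast at h1 h3 ⊢
  omega

/-- Automorphisms exchanging transcendence bases. -/
theorem exists_equiv_basis [IsAlgClosed N] {J : Type} (z z' : J → N)
    (hz : IsTranscendenceBasis k z) (hz' : IsTranscendenceBasis k z') :
    ∃ τ : N ≃ₐ[k] N, ∀ j, τ (z j) = z' j := by
  obtain ⟨τ, hτ⟩ := Pool.Agent.H391R2.T4.lift_family z hz z' hz'.1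
  refine ⟨AlgEquiv.ofBijective τ ⟨τ.injective, fun x => ?_⟩, hτ⟩
  have h1 : IsAlgClosed τ.fieldRange := by
    have e : N ≃ₐ[k] τ.fieldRange := AlgEquiv.ofInjectiveField τ
    exact IsAlgClosed.of_ringEquiv N _ e.toRingEquiv
  have h2 : x ∈ τ.fieldRange := by
    refine basis_top z' hz' τ.fieldRange (fun y => ⟨algebraMap k N y, τ.commutes y⟩)
      (fun j => ⟨z j, hτ j⟩) (fun y hy => ?_) x
    exact mem_of_alg τ.fieldRange hy
  exact h2

end trd

end Pool.Agent.Y793
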