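import Mathlib
import Pool.Agent.Y793.Rel

set_option autoImplicit false
set_option linter.unusedSectionVars false
set_option linter.unusedSimpArgs false

namespace Pool.Agent.Y793

open Polynomial

/-- The index set of the parameters. -/
abbrev Ix (ι : Type) : Type := (ι ⊕ Bool) ⊕ Unit

/-- A point of the curve on which the function takes the value `T`. -/
structure Pt {K ι : Type} [Field K] [Fintype ι] (D : K[X]) (κ g u : ι → K[X]) {E : Type}
    [CommRing E] [Algebra K E] (v : ι ⊕ Bool → E) (T w y : E) : Prop where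
  hy : y ^ 2 = aeval (w ^ 2) D
  hT : FF D κ g u v w y = T

section sa

variable {K ι : Type} [Field K] [CharZero K] [Fintype ι] {D : K[X]} {κ g u : ι → K[X]} {k : ℕ}
variable {k₀ N : Type} [Field k₀] [Field N] [Algebra K k₀] [Algebra K N] [Algebra k₀ N]
  [IsScalarTower K k₀ N]

/-- Elements of an intermediate field. -/
theorem aeval_mem' (F : IntermediateField k₀ N) {x : N} (hx : x ∈ F) (p : K[X]) :
    aeval x p ∈ F := by
  have h1 := Polynomial.aeval_algHom_apply (F.val.restrictScalars K) (⟨x, hx⟩ : F) p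
  change aeval x p = _ at h1
  rw [h1]
  exact (aeval (⟨x, hx⟩ : F) p).2

theorem FF_mem (F : IntermediateField k₀ N) (v : ι ⊕ Bool → N) (hv : ∀ i, v i ∈ F) {w y : N}
    (hw : w ∈ F) (hy : y ∈ F) : FF D κ g u v w y ∈ F := by
  have h1 := FF_map D κ g u (F.val.restrictScalars K) (fun i => (⟨v i, hv i⟩ : F)) ⟨w, hw⟩ ⟨y, hy⟩
  change _ = FF D κ g u v w y at h1
  rw [← h1]
  exact (FF D κ g u (fun i => (⟨v i, hv i⟩ : F)) ⟨w, hw⟩ ⟨y, hy⟩).2

theorem sq_mem (F : IntermediateField k₀ N) (hF : ∀ x, IsAlgebraic F x → x ∈ F) {y : N}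
    (hy : y ^ 2 ∈ F) : y ∈ F := by
  apply hF
  have h1 : IsAlgebraic F (y ^ 2) := isAlgebraic_algebraMap (⟨y ^ 2, hy⟩ : F)
  exact h1.of_pow (by norm_num)

theorem Pt.y_mem {v : ι ⊕ Bool → N} {T w y : N} (h : Pt D κ g u v T w y)
    (F : IntermediateField k₀ N) (hF : ∀ x, IsAlgebraic F x → x ∈ F) (hw : w ∈ F) : y ∈ F := by
  apply sq_mem F hF
  rw [h.hy]
  exact aeval_mem' F (pow_mem hw 2) D

variable (η : Ix ι → N) (hη : IsTranscendenceBasis k₀ η)

include hη

/-- `N` is algebraic over the field generated by the parameters over a field containing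
a point. -/
theorem alg_over (F : IntermediateField k₀ N) {w y : N} (hw : w ∈ F) (hy : y ∈ F)
    (hp : Pt D κ g u (fun i => η (Sum.inl i)) (η (Sum.inr ())) w y) :
    Algebra.IsAlgebraic (IntermediateField.adjoin F (Set.range fun i => η (Sum.inl i))) N := by
  refine ⟨fun x => mem_cl.1 ?_⟩
  have hF : ∀ x ∈ F, x ∈ cl F (Set.range fun i => η (Sum.inl i)) := fun x hx =>
    (cl F (Set.range fun i => η (Sum.inl i))).algebraMap_mem (⟨x, hx⟩ : F)
  have hv : ∀ i, η (Sum.inl i) ∈ cl F (Set.range fun i => η (Sum.inl i)) :=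
    fun i => sub_cl _ ⟨i, rfl⟩
  have hk : ∀ z : k₀, algebraMap k₀ N z ∈ cl F (Set.range fun i => η (Sum.inl i)) := fun z =>
    hF _ (F.algebraMap_mem z)
  refine basis_top η hη (cl F (Set.range fun i => η (Sum.inl i))) hk
    (fun j => ?_) (fun z hz => cl_closed hz) x
  rcases j with j | j
  · exact hv j
  · have h1 := FF_mem (D := D) (κ := κ) (g := g) (u := u)
      ((cl F (Set.range fun i => η (Sum.inl i))).toSubfield.toIntermediateField hk)
      (fun i => η (Sum.inl i)) hv (hF w hw) (hF y hy)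
    rw [hp.hT] at h1
    exact h1

theorem card_Ix : Nat.card (Ix ι) = Fintype.card ι + 3 := by
  simp [Nat.card_eq_fintype_card]

/-- The coordinate of a point is not algebraic over the parameters. -/
theorem w_not_mem {w y : N} (hp : Pt D κ g u (fun i => η (Sum.inl i)) (η (Sum.inr ())) w y) :
    w ∉ cl k₀ (Set.range fun i => η (Sum.inl i)) := by
  intro hw
  have hcl : ∀ x, IsAlgebraic (cl k₀ (Set.range fun i => η (Sum.inl i))) x →
      x ∈ cl k₀ (Set.range fun i => η (Sum.inl i)) := fun x hx => cl_closed hx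
  have hy := hp.y_mem _ hcl hw
  have hv : ∀ i, η (Sum.inl i) ∈ cl k₀ (Set.range fun i => η (Sum.inl i)) :=
    fun i => sub_cl _ ⟨i, rfl⟩
  have h1 := le_trdeg_cl η hη (fun i => η (Sum.inl i)) 1 (by
    rw [card_Ix η hη]
    simp [Nat.card_eq_fintype_card]
    omega)
  have h2 : Algebra.IsAlgebraic (cl k₀ (Set.range fun i => η (Sum.inl i))) N := by
    refine ⟨fun x => ?_⟩
    have h3 : x ∈ cl k₀ (Set.range fun i => η (Sum.inl i)) := by
      refine basis_top η hη _ (fun z => IntermediateField.algebraMap_mem _ z) (fun j => ?_) hcl x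
      rcases j with j | j
      · exact hv j
      · have h1 := FF_mem (D := D) (κ := κ) (g := g) (u := u) _ (fun i => η (Sum.inl i)) hv hw hy
        rw [hp.hT] at h1
        exact h1
    exact isAlgebraic_algebraMap (⟨x, h3⟩ : cl k₀ (Set.range fun i => η (Sum.inl i)))
  have h4 : Algebra.trdeg (cl k₀ (Set.range fun i => η (Sum.inl i))) N = 0 :=
    _root_.trdeg_eq_zero
  rw [h4] at h1
  simp at h1

end sa

end Pool.Agent.Y793
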