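import Mathlib
import Pool.Agent.Y793.Sa

/-!
Statement (NOT a result) of a further piece of the project (G wr A_n) wr A_r over Q
(owner helper793, problem MP_dadaab_nt).
-/

set_option autoImplicit false

namespace Pool.Agent.Y793

open Polynomial

/-- CYC: from a specialisation of the polynomial `Φ` with a triple root, an automorphism acting as
a three-cycle on the roots of `Φ`. -/
def St_cyc : Prop :=
  ∀ (K ι : Type) [Field K] [CharZero K] [Fintype ι] (D : K[X]) (κ g u : ι → K[X]) (k : ℕ),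
    DOK D k κ g u → 2 * D.natDegree + 2 ≤ k →
  ∀ (k₀ N : Type) [Field k₀] [IsAlgClosed k₀] [Algebra K k₀] [Field N] [IsAlgClosed N]
    [Algebra K N] [Algebra k₀ N] [IsScalarTower K k₀ N] (η : Ix ι → N),
    IsTranscendenceBasis k₀ η →
  ∀ (F : Type) [Field F] [IsAlgClosed F] [Algebra K F] [Algebra k₀ F] [IsScalarTower K k₀ F]
    (c : ι ⊕ Bool → F), AlgebraicIndependent k₀ c → gam κ k c ≠ 0 →
  ∀ (T₁ w₁ : F) (m : ℕ) (a : Fin m → F), Function.Injective a → (∀ i, a i ≠ w₁) →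
    PP D κ g u c T₁ = C (gam κ k c ^ 2) * ((X - C w₁) ^ 3 * ∏ i, (X - C (a i))) →
    (PA D κ g c T₁).eval w₁ ≠ 0 →
  ∀ (r : Fin (m + 3) → N), Function.Injective r →
    (∀ i, (PP D κ g u (fun i => η (Sum.inl i)) (η (Sum.inr ()))).eval (r i) = 0) →
    ∃ (σ : N ≃ₐ[k₀] N) (π : Equiv.Perm (Fin (m + 3))), (∀ i, σ (η i) = η i) ∧
      (∀ i, σ (r i) = r (π i)) ∧ π.IsThreeCycle

end Pool.Agent.Y793
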