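import Mathlib

set_option autoImplicit false
set_option linter.unusedSectionVars false
set_option linter.unusedSimpArgs false

namespace Pool.Agent.Y793

open Polynomial

section fac

variable {F : Type} [Field F] [IsAlgClosed F]

/-- Factorisation with one possibly multiple root. -/
theorem fac (f : F[X]) (hf : f ≠ 0) (w : F) (e : ℕ) (he : f.rootMultiplicity w = e)
    (hs : ∀ x, f.eval x = 0 → x ≠ w → (derivative f).eval x ≠ 0) :
    ∃ (m : ℕ) (a : Fin m → F), Function.Injective a ∧ (∀ i, a i ≠ w) ∧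
      f = C f.leadingCoeff * ((X - C w) ^ e * ∏ i, (X - C (a i))) := by
  classical
  have h1 : C f.leadingCoeff * (f.roots.map fun a => X - C a).prod = f :=
    C_leadingCoeff_mul_prod_multiset_X_sub_C IsAlgClosed.card_roots_eq_natDegree
  rw [prod_multiset_root_eq_finset_root] at h1
  let s := f.roots.toFinset.erase w
  have hmul : ∀ x ∈ s, f.rootMultiplicity x = 1 := by
    intro x hx
    have hx1 : x ≠ w := Finset.ne_of_mem_erase hx
    have hx2 : f.IsRoot x := by
      have := Multiset.mem_toFinset.1 (Finset.mem_of_mem_erase hx)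
      exact (mem_roots hf).1 this
    have h2 := hs x hx2 hx1
    have h3 : 0 < f.rootMultiplicity x := (rootMultiplicity_pos hf).2 hx2
    by_contra hcon
    have h4 : 1 < f.rootMultiplicity x := by omega
    exact h2 ((one_lt_rootMultiplicity_iff_isRoot hf).1 h4).2
  have h2 : ∏ a ∈ f.roots.toFinset, (X - C a) ^ f.rootMultiplicity a =
      (X - C w) ^ e * ∏ a ∈ s, (X - C a) := by
    have h3 : ∏ a ∈ s, (X - C a) ^ f.rootMultiplicity a = ∏ a ∈ s, (X - C a) :=
      Finset.prod_congr rfl fun x hx => by rw [hmul x hx, pow_one]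
    by_cases hw : w ∈ f.roots.toFinset
    · rw [← Finset.mul_prod_erase _ _ hw, he, h3]
    · have h4 : s = f.roots.toFinset := Finset.erase_eq_of_notMem hw
      have h5 : e = 0 := by
        rw [← he]
        apply rootMultiplicity_eq_zero
        intro h6
        exact hw (Multiset.mem_toFinset.2 ((mem_roots hf).2 h6))
      rw [h5, pow_zero, one_mul, ← h3, h4]
  let ε := (s.equivFin).symm
  refine ⟨s.card, fun i => (ε i : F), fun i j hij => ε.injective (Subtype.ext hij),
    fun i => Finset.ne_of_mem_erase (ε i).2, ?_⟩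
  have h3 : ∏ i, (X - C ((ε i : F))) = ∏ a ∈ s, (X - C a) := by
    rw [Equiv.prod_comp ε (fun a : s => X - C (a : F))]
    exact Finset.prod_coe_sort s (fun a => X - C a)
  rw [h3, ← h2]
  exact h1.symm

theorem fac_simple (f : F[X]) (hf : f ≠ 0) (n : ℕ) (hn : f.natDegree = n)
    (hs : ∀ x, f.eval x = 0 → (derivative f).eval x ≠ 0) :
    ∃ (a : Fin n → F), Function.Injective a ∧ f = C f.leadingCoeff * ∏ i, (X - C (a i)) := by
  classical
  have h1 : C f.leadingCoeff * (f.roots.map fun a => X - C a).prod = f :=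
    C_leadingCoeff_mul_prod_multiset_X_sub_C IsAlgClosed.card_roots_eq_natDegree
  have hnd : f.roots.Nodup := by
    rw [Multiset.nodup_iff_count_le_one]
    intro x
    rw [count_roots]
    by_contra hcon
    have h4 : 1 < f.rootMultiplicity x := by omega
    have h5 := (one_lt_rootMultiplicity_iff_isRoot hf).1 h4
    exact hs x h5.1 h5.2
  let s : Finset F := ⟨f.roots, hnd⟩
  have hs : s.card = n := by
    rw [← hn, ← IsAlgClosed.card_roots_eq_natDegree (p := f)]
    rfl
  let ε := (s.equivFinOfCardEq hs).symm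
  refine ⟨fun i => (ε i : F), fun i j hij => ε.injective (Subtype.ext hij), ?_⟩
  have h3 : ∏ i, (X - C ((ε i : F))) = ∏ a ∈ s, (X - C a) := by
    rw [Equiv.prod_comp ε (fun a : s => X - C (a : F))]
    exact Finset.prod_coe_sort s (fun a => X - C a)
  rw [h3]
  exact h1.symm

/-- The multiplicity of a triple root. -/
theorem mult_three [CharZero F] (f P Pb S R M : F[X]) (w : F) (hf : f ≠ 0) (hw : w ≠ 0)
    (h1 : derivative f = 4 * X * P) (h2 : P * Pb = S ^ 2 * f + R ^ 2 * M) (h3 : f.eval w = 0)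
    (h4 : Pb.eval w ≠ 0) (h5 : R.eval w = 0) (h6 : (derivative R).eval w ≠ 0)
    (h7 : M.eval w ≠ 0) : f.rootMultiplicity w = 3 := by
  have hd : ∀ (p : F[X]), p.eval w ≠ 0 → p.rootMultiplicity w = 0 := fun p hp =>
    rootMultiplicity_eq_zero hp
  have hR0 : R ≠ 0 := by
    intro h0
    apply h6
    rw [h0, derivative_zero, eval_zero]
  have hM0 : M ≠ 0 := fun h0 => h7 (by rw [h0, eval_zero])
  have hPb0 : Pb ≠ 0 := fun h0 => h4 (by rw [h0, eval_zero])
  have hR1 : R.rootMultiplicity w = 1 := by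
    have h8 : 0 < R.rootMultiplicity w := (rootMultiplicity_pos hR0).2 h5
    by_contra hcon
    have h9 : 1 < R.rootMultiplicity w := by omega
    exact h6 ((one_lt_rootMultiplicity_iff_isRoot hR0).1 h9).2
  have hf0 : 0 < f.rootMultiplicity w := (rootMultiplicity_pos hf).2 h3
  have hdf : (derivative f).rootMultiplicity w = f.rootMultiplicity w - 1 :=
    derivative_rootMultiplicity_of_root h3
  have hdf0 : derivative f ≠ 0 := by
    intro h0
    have h10 := derivative_eq_zero.1 h0
    rw [eq_C_of_natDegree_eq_zero h10, eval_C] at h3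
    apply hf
    rw [eq_C_of_natDegree_eq_zero h10, h3, C_0]
  have hP0 : P ≠ 0 := fun h0 => hdf0 (by rw [h1, h0, mul_zero])
  have hX : (4 * X : F[X]) ≠ 0 := mul_ne_zero (by norm_num) X_ne_zero
  have hXm : (4 * X : F[X]).rootMultiplicity w = 0 := by
    apply hd
    simp [hw]
  have hPm : P.rootMultiplicity w = f.rootMultiplicity w - 1 := by
    rw [← hdf, h1, rootMultiplicity_mul (by rw [← h1]; exact hdf0), hXm, zero_add]
  have hPPb : (P * Pb).rootMultiplicity w = f.rootMultiplicity w - 1 := by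
    rw [rootMultiplicity_mul (mul_ne_zero hP0 hPb0), hPm, hd Pb h4, add_zero]
  have hRM0 : R ^ 2 * M ≠ 0 := mul_ne_zero (pow_ne_zero 2 hR0) hM0
  have hRM : (R ^ 2 * M).rootMultiplicity w = 2 := by
    rw [rootMultiplicity_mul hRM0, hd M h7, sq, rootMultiplicity_mul (mul_ne_zero hR0 hR0), hR1]
  have key : ∀ j, (X - C w) ^ j ∣ f ↔ j ≤ f.rootMultiplicity w := fun j =>
    (le_rootMultiplicity_iff hf).symm
  have key2 : ∀ j, (X - C w) ^ j ∣ P * Pb ↔ j ≤ f.rootMultiplicity w - 1 := fun j => by
    have h8 := le_rootMultiplicity_iff (mul_ne_zero hP0 hPb0) (a := w) (n := j)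
    rw [hPPb] at h8
    exact h8.symm
  have key3 : ∀ j, (X - C w) ^ j ∣ R ^ 2 * M ↔ j ≤ 2 := fun j => by
    have h8 := le_rootMultiplicity_iff hRM0 (a := w) (n := j)
    rw [hRM] at h8
    exact h8.symm
  -- the lower bound
  have hlow : 3 ≤ f.rootMultiplicity w := by
    by_contra hcon
    have a1 : (X - C w) ^ f.rootMultiplicity w ∣ P * Pb := by
      rw [h2]
      refine dvd_add (((key _).2 le_rfl).mul_left _) ((key3 _).2 (by omega))
    have a2 := (key2 _).1 a1
    omega
  have hup : ¬ 4 ≤ f.rootMultiplicity w := by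
    intro hcon
    have a1 : (X - C w) ^ 3 ∣ R ^ 2 * M := by
      have a2 : R ^ 2 * M = P * Pb - S ^ 2 * f := by rw [h2]; ring
      rw [a2]
      exact dvd_sub ((key2 _).2 (by omega)) (((key _).2 (by omega)).mul_left _)
    have a3 := (key3 _).1 a1
    omega
  omega

end fac

end Pool.Agent.Y793
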