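import Mathlib
import Pool.Agent.Y793.Sa

set_option autoImplicit false
set_option linter.unusedSectionVars false
set_option linter.unusedSimpArgs false

namespace Pool.Agent.Y793

open Polynomial

section sb0

variable {K ι : Type} [Field K] [Fintype ι] {D : K[X]} {κ g u : ι → K[X]} {k : ℕ}
variable {E : Type} [CommRing E] [Algebra K E]

theorem FF_sub (a : ι ⊕ Bool → E) (w y w' y' : E) (hw : w ^ 2 = w' ^ 2) :
    FF D κ g u a w y - FF D κ g u a w' y' = ((X * D).map (algebraMap K E)).eval (w ^ 2) *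
      (a (Sum.inr true) * (w - w') * (lin g a).eval (w ^ 2) +
      a (Sum.inr false) * (y - y') * (lin u a).eval (w ^ 2) +
      2 * a (Sum.inr true) * a (Sum.inr false) * (w * y - w' * y')) := by
  unfold FF
  rw [← hw]
  ring

theorem lin_zero (f : ι → K[X]) (b : Bool → E) : lin f (Sum.elim (fun _ => (0 : E)) b) = 0 := by
  unfold lin
  simp

theorem lin_single [DecidableEq ι] (f : ι → K[X]) (b : Bool → E) (i : ι) (t : E) :
    lin f (Sum.elim (Pi.single i t) b) = C t * (f i).map (algebraMap K E) := by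
  unfold lin
  rw [Finset.sum_eq_single i]
  · simp
  · intro j _ hj
    simp [hj]
  · intro h
    exact absurd (Finset.mem_univ _) h

end sb0

section sb

variable {K ι : Type} [Field K] [CharZero K] [Fintype ι] {D : K[X]} {κ g u : ι → K[X]} {k : ℕ}

theorem DOK.der_ne (h : DOK D k κ g u) : derivative (X * D) ≠ 0 := by
  intro h0
  have h1 := derivative_eq_zero.1 h0
  rw [natDegree_mul X_ne_zero h.hD, natDegree_X] at h1
  omega

theorem DOK.g_ne (h : DOK D k κ g u) (i : ι) : g i ≠ 0 := by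
  intro h0
  have h1 := h.h1 i
  rw [h0, mul_zero, mul_zero, derivative_zero, mul_zero, add_zero] at h1
  have h2 : (6 : K[X]) ≠ 0 := by norm_num
  rcases mul_eq_zero.1 h1.symm with h3 | h3
  · rcases mul_eq_zero.1 h3 with h4 | h4
    · exact h2 h4
    · exact h.hli.ne_zero i h4
  · exact h.der_ne h3

theorem DOK.pos (h : DOK D k κ g u) : 0 < Fintype.card ι := by
  have := h.hcard
  omega

variable {k₀ N : Type} [Field k₀] [Field N] [Algebra K k₀] [Algebra K N] [Algebra k₀ N]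
  [IsScalarTower K k₀ N]

instance towI (F : IntermediateField k₀ N) : IsScalarTower K F N :=
  IsScalarTower.of_algebraMap_eq fun _ => rfl

theorem ev_ne {S : Set N} {w : N} (hw : w ∉ cl k₀ S) {p : K[X]} (hp : p ≠ 0) :
    aeval (w ^ 2) p ≠ 0 := by
  intro h0
  apply hw
  apply cl_closed
  have h1 : IsAlgebraic K (w ^ 2) := ⟨p, hp, h0⟩
  have h2 : IsAlgebraic K w := h1.of_pow (by norm_num)
  exact (h2.tower_top k₀).tower_top _

variable (η : Ix ι → N) (hη : IsTranscendenceBasis k₀ η) (h : DOK D k κ g u)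
include hη h

theorem sep (hgen : St_gen) (hiso : St_iso) {w₁ y₁ w₂ y₂ : N}
    (p₁ : Pt D κ g u (fun i => η (Sum.inl i)) (η (Sum.inr ())) w₁ y₁)
    (p₂ : Pt D κ g u (fun i => η (Sum.inl i)) (η (Sum.inr ())) w₂ y₂)
    (hw : w₂ ∈ cl k₀ (Set.range fun _ : Unit => w₁)) : w₂ = w₁ ∧ y₂ = y₁ := by
  classical
  set F := cl k₀ (Set.range fun _ : Unit => w₁) with hF
  have hcl : ∀ x, IsAlgebraic F x → x ∈ F := fun x hx => cl_closed hx
  have hw₁ : w₁ ∈ F := sub_cl _ ⟨(), rfl⟩
  have hy₁ : y₁ ∈ F := p₁.y_mem F hcl hw₁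
  have hy₂ : y₂ ∈ F := p₂.y_mem F hcl hw
  have halg := alg_over η hη F hw₁ hy₁ p₁
  have htr : (Module.finrank F (⊤ : Submodule F (ι ⊕ Bool → F)) : Cardinal) ≤
      Algebra.trdeg F N := by
    rw [finrank_top, Module.finrank_fintype_fun_eq_card, Fintype.card_sum, Fintype.card_bool]
    refine le_trdeg_cl η hη (fun _ : Unit => w₁) _ ?_
    rw [card_Ix η hη]
    simp
  have hrel : FF D κ g u (fun i => η (Sum.inl i)) (algebraMap F N ⟨w₁, hw₁⟩)
      (algebraMap F N ⟨y₁, hy₁⟩) =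
      FF D κ g u (fun i => η (Sum.inl i)) (algebraMap F N ⟨w₂, hw⟩) (algebraMap F N ⟨y₂, hy₂⟩) :=
    p₁.hT.trans p₂.hT.symm
  have hall := rel_all hgen (fun i => η (Sum.inl i)) halg ⊤ (mem_span_top _) htr _ _ _ _ hrel
  have hsq : (⟨w₁, hw₁⟩ : F) ^ 2 = ⟨w₂, hw⟩ ^ 2 := by
    by_contra hne
    refine rel_contra h hgen hiso (fun i => η (Sum.inl i)) halg ⊤ (mem_span_top _) htr ?_ _ _ _ _
      hne hrel
    rw [finrank_top, Module.finrank_fintype_fun_eq_card, Fintype.card_sum]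
    omega
  have hw₁' : w₁ ∉ cl k₀ (Set.range fun i => η (Sum.inl i)) := w_not_mem η hη p₁
  have hev : ∀ p : K[X], p ≠ 0 → (p.map (algebraMap K F)).eval ((⟨w₁, hw₁⟩ : F) ^ 2) ≠ 0 := by
    intro p hp h0
    apply ev_ne hw₁' hp
    rw [eval_map_algebraMap] at h0
    have h1 := Polynomial.aeval_algHom_apply (F.val.restrictScalars K) ((⟨w₁, hw₁⟩ : F) ^ 2) p
    rw [h0, map_zero] at h1
    exact h1
  have hQ : ((X * D).map (algebraMap K F)).eval ((⟨w₁, hw₁⟩ : F) ^ 2) ≠ 0 :=
    hev _ (mul_ne_zero X_ne_zero h.hD)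
  obtain ⟨i⟩ : Nonempty ι := Fintype.card_pos_iff.1 h.pos
  have h1 : (⟨w₁, hw₁⟩ : F) = ⟨w₂, hw⟩ := by
    have h2 := hall (Sum.elim (Pi.single i 1) (fun b => if b then 1 else 0)) trivial
    rw [← sub_eq_zero, FF_sub _ _ _ _ _ hsq, lin_single] at h2
    have h3 := (mul_eq_zero.1 h2).resolve_left hQ
    simp only [Sum.elim_inr, if_true, Bool.false_eq_true, if_false, one_mul, zero_mul, mul_zero,
      add_zero, C_1] at h3
    exact sub_eq_zero.1 ((mul_eq_zero.1 h3).resolve_right (hev _ (h.g_ne i)))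
  have h4 : (⟨y₁, hy₁⟩ : F) = ⟨y₂, hy₂⟩ := by
    have h2 := hall (Sum.elim (fun _ => 0) (fun _ => 1)) trivial
    rw [← sub_eq_zero, FF_sub _ _ _ _ _ hsq, lin_zero, lin_zero] at h2
    have h3 := (mul_eq_zero.1 h2).resolve_left hQ
    simp only [Sum.elim_inr, eval_zero, mul_zero, zero_add, mul_one] at h3
    have h5 : (2 : F) ≠ 0 := by
      have : CharZero F := charZero_of_injective_algebraMap (algebraMap K F).injective
      norm_num
    have h6 := (mul_eq_zero.1 h3).resolve_left h5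
    rw [← h1, ← mul_sub] at h6
    refine sub_eq_zero.1 ((mul_eq_zero.1 h6).resolve_left fun h7 => ?_)
    apply hev X X_ne_zero
    rw [map_X, eval_X, h7]
    ring
  exact ⟨(congrArg Subtype.val h1).symm, (congrArg Subtype.val h4).symm⟩

end sb

end Pool.Agent.Y793
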