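import Mathlib
import Pool.Agent.Y793.Sb

set_option autoImplicit false
set_option linter.unusedSectionVars false
set_option linter.unusedSimpArgs false

namespace Pool.Agent.Y793

open Polynomial

section bb

variable {K ι : Type} [Field K] [CharZero K] [Fintype ι] (D : K[X]) (κ g u : ι → K[X])
variable {E : Type} [CommRing E] [Algebra K E]

/-- The difference of the bilinear forms at two points. -/
noncomputable def BB (w₁ y₁ w₂ y₂ : E) (a b : ι ⊕ Bool → E) : E :=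
  BF D κ g u a b w₁ y₁ - BF D κ g u a b w₂ y₂

theorem BB_comm (w₁ y₁ w₂ y₂ : E) (a b : ι ⊕ Bool → E) :
    BB D κ g u w₁ y₁ w₂ y₂ a b = BB D κ g u w₁ y₁ w₂ y₂ b a := by
  unfold BB
  rw [BF_comm, BF_comm D κ g u a b w₂ y₂]

theorem BB_add (w₁ y₁ w₂ y₂ : E) (a b c : ι ⊕ Bool → E) :
    BB D κ g u w₁ y₁ w₂ y₂ a (b + c) =
      BB D κ g u w₁ y₁ w₂ y₂ a b + BB D κ g u w₁ y₁ w₂ y₂ a c := by
  unfold BB
  rw [BF_add, BF_add]
  ring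

theorem BB_smul (w₁ y₁ w₂ y₂ : E) (a : ι ⊕ Bool → E) (t : E) (b : ι ⊕ Bool → E) :
    BB D κ g u w₁ y₁ w₂ y₂ a (t • b) = t * BB D κ g u w₁ y₁ w₂ y₂ a b := by
  unfold BB
  rw [BF_smul, BF_smul]
  ring

theorem BB_self (w₁ y₁ w₂ y₂ : E) (a : ι ⊕ Bool → E) :
    BB D κ g u w₁ y₁ w₂ y₂ a a = FF D κ g u a w₁ y₁ - FF D κ g u a w₂ y₂ := by
  unfold BB
  rw [BF_self, BF_self]

theorem BB_map {E' : Type} [CommRing E'] [Algebra K E'] (φ : E →ₐ[K] E')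
    (w₁ y₁ w₂ y₂ : E) (a b : ι ⊕ Bool → E) :
    φ (BB D κ g u w₁ y₁ w₂ y₂ a b) =
      BB D κ g u (φ w₁) (φ y₁) (φ w₂) (φ y₂) (fun i => φ (a i)) (fun i => φ (b i)) := by
  unfold BB
  rw [map_sub, BF_map, BF_map]

theorem BB_tilde (w₁ y₁ w₂ y₂ : E) (e v : ι ⊕ Bool → E) (t : E)
    (he : BB D κ g u w₁ y₁ w₂ y₂ e e = 0) (hv : BB D κ g u w₁ y₁ w₂ y₂ v v = 0) :
    BB D κ g u w₁ y₁ w₂ y₂ e (v + (-t) • e) = BB D κ g u w₁ y₁ w₂ y₂ e v ∧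
    BB D κ g u w₁ y₁ w₂ y₂ (v + (-t) • e) (v + (-t) • e) =
      -2 * t * BB D κ g u w₁ y₁ w₂ y₂ e v := by
  have h1 : BB D κ g u w₁ y₁ w₂ y₂ e (v + (-t) • e) = BB D κ g u w₁ y₁ w₂ y₂ e v := by
    rw [BB_add, BB_smul, he, mul_zero, add_zero]
  refine ⟨h1, ?_⟩
  rw [BB_add, BB_smul, BB_comm _ _ _ _ _ _ _ _ (v + (-t) • e) e, h1,
    BB_comm _ _ _ _ _ _ _ _ (v + (-t) • e) v, BB_add, BB_smul, hv,
    BB_comm _ _ _ _ _ _ _ _ v e]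
  ring

end bb

section sc

variable {K ι : Type} [Field K] [CharZero K] [Fintype ι] {D : K[X]} {κ g u : ι → K[X]} {k : ℕ}
variable {k₀ N : Type} [Field k₀] [Field N] [Algebra K k₀] [Algebra K N] [Algebra k₀ N]
  [IsScalarTower K k₀ N]

theorem exists_e (h : DOK D k κ g u) (hiso : St_iso) {F : Type} [Field F] [Algebra K F]
    [IsAlgClosed F] (w₁ y₁ w₂ y₂ : F) (hne : w₁ ^ 2 ≠ w₂ ^ 2) :
    ∃ (e : ι ⊕ Bool → F) (i₀ : ι ⊕ Bool), e i₀ = 1 ∧ BB D κ g u w₁ y₁ w₂ y₂ e e = 0 ∧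
      ∃ b, BB D κ g u w₁ y₁ w₂ y₂ e b ≠ 0 := by
  have hF : CharZero F := charZero_of_injective_algebraMap (algebraMap K F).injective
  obtain ⟨e, he, b, hb⟩ := exists_isotropic (BB D κ g u w₁ y₁ w₂ y₂)
    (BB_comm D κ g u w₁ y₁ w₂ y₂) (BB_add D κ g u w₁ y₁ w₂ y₂) (BB_smul D κ g u w₁ y₁ w₂ y₂)
    (fun U hU => by
      have h1 := iso' h hiso w₁ y₁ w₂ y₂ hne U (fun a ha => by
        have h2 := hU a ha
        rwa [BB_self, sub_eq_zero] at h2)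
      rw [Module.finrank_fintype_fun_eq_card, Fintype.card_sum, Fintype.card_bool]
      omega)
  have he0 : ∃ i₀, e i₀ ≠ 0 := by
    by_contra hcon
    push Not at hcon
    have h1 : e = 0 := funext hcon
    have h2 : BB D κ g u w₁ y₁ w₂ y₂ e b = 0 := by
      rw [BB_comm, h1]
      have h3 := BB_smul D κ g u w₁ y₁ w₂ y₂ b 0 (0 : ι ⊕ Bool → F)
      rwa [zero_smul, zero_mul] at h3
    exact hb h2
  obtain ⟨i₀, hi₀⟩ := he0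
  refine ⟨(e i₀)⁻¹ • e, i₀, ?_, ?_, b, ?_⟩
  · rw [Pi.smul_apply, smul_eq_mul, inv_mul_cancel₀ hi₀]
  · rw [BB_smul, BB_comm, BB_smul, he, mul_zero, mul_zero]
  · rw [BB_comm, BB_smul, BB_comm]
    exact mul_ne_zero (inv_ne_zero hi₀) hb

variable (η : Ix ι → N) (hη : IsTranscendenceBasis k₀ η) (h : DOK D k κ g u)
include hη h

/-- The isotropic vector is not orthogonal to the parameters. -/
theorem BB_ne (hgen : St_gen) (hiso : St_iso) {w₁ y₁ w₂ y₂ : N}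
    (p₁ : Pt D κ g u (fun i => η (Sum.inl i)) (η (Sum.inr ())) w₁ y₁)
    (p₂ : Pt D κ g u (fun i => η (Sum.inl i)) (η (Sum.inr ())) w₂ y₂)
    (F : IntermediateField k₀ N) (hF : F = cl k₀ (Set.range ![w₁, w₂]))
    (hw₁ : w₁ ∈ F) (hy₁ : y₁ ∈ F) (hw₂ : w₂ ∈ F) (hy₂ : y₂ ∈ F)
    (hne : (⟨w₁, hw₁⟩ : F) ^ 2 ≠ ⟨w₂, hw₂⟩ ^ 2)
    (e b : ι ⊕ Bool → F) (hb : BB D κ g u (⟨w₁, hw₁⟩ : F) ⟨y₁, hy₁⟩ ⟨w₂, hw₂⟩ ⟨y₂, hy₂⟩ e b ≠ 0) :
    BB D κ g u w₁ y₁ w₂ y₂ (fun i => (e i : N)) (fun i => η (Sum.inl i)) ≠ 0 := by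
  intro h0
  have halg := alg_over η hη F hw₁ hy₁ p₁
  have hrel : FF D κ g u (fun i => η (Sum.inl i)) (algebraMap F N ⟨w₁, hw₁⟩)
      (algebraMap F N ⟨y₁, hy₁⟩) =
      FF D κ g u (fun i => η (Sum.inl i)) (algebraMap F N ⟨w₂, hw₂⟩) (algebraMap F N ⟨y₂, hy₂⟩) :=
    p₁.hT.trans p₂.hT.symm
  let L : (ι ⊕ Bool → F) →ₗ[F] F :=
    { toFun := BB D κ g u (⟨w₁, hw₁⟩ : F) ⟨y₁, hy₁⟩ ⟨w₂, hw₂⟩ ⟨y₂, hy₂⟩ e
      map_add' := BB_add D κ g u _ _ _ _ e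
      map_smul' := BB_smul D κ g u _ _ _ _ e }
  let LN : (ι ⊕ Bool → N) →ₗ[N] N :=
    { toFun := BB D κ g u w₁ y₁ w₂ y₂ (fun i => (e i : N))
      map_add' := BB_add D κ g u _ _ _ _ _
      map_smul' := BB_smul D κ g u _ _ _ _ _ }
  have hLN : ∀ c : ι ⊕ Bool → F, LN (fun i => (c i : N)) = ((L c : F) : N) := fun c =>
    (BB_map D κ g u (F.val.restrictScalars K) ⟨w₁, hw₁⟩ ⟨y₁, hy₁⟩ ⟨w₂, hw₂⟩ ⟨y₂, hy₂⟩ e c).symm
  have hmem := mem_span_ker (F := F) (N := N) (I := ι ⊕ Bool) (J := Unit) (fun _ => L)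
    (fun _ => LN) (fun _ c => hLN c)
    (fun i => η (Sum.inl i)) (fun _ => h0)
  rw [ciInf_const] at hmem
  have hr := L.finrank_range_add_finrank_ker
  rw [Module.finrank_fintype_fun_eq_card, Fintype.card_sum, Fintype.card_bool] at hr
  have hr1 : Module.finrank F (LinearMap.range L) ≤ 1 := by
    refine (Submodule.finrank_le _).trans ?_
    simp
  have hr2 : 0 < Module.finrank F (LinearMap.range L) := by
    rw [Module.finrank_pos_iff_exists_ne_zero]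
    exact ⟨⟨L b, ⟨b, rfl⟩⟩, fun h1 => hb (congrArg Subtype.val h1)⟩
  refine rel_contra h hgen hiso (fun i => η (Sum.inl i)) halg (LinearMap.ker L) hmem ?_ ?_ _ _ _ _
    hne hrel
  · subst hF
    refine le_trdeg_cl η hη ![w₁, w₂] _ ?_
    rw [card_Ix η hη]
    simp
    omega
  · omega

end sc

end Pool.Agent.Y793
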