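import Mathlib
import Pool.Agent.Y793.Sc

set_option autoImplicit false
set_option linter.unusedSectionVars false
set_option linter.unusedSimpArgs false

namespace Pool.Agent.Y793

open Polynomial

theorem basis_of_cl {k N : Type} [Field k] [Field N] [Algebra k N] {J : Type} [Finite J]
    (z : J → N) (hall : ∀ x, x ∈ cl k (Set.range z))
    (hle : (Nat.card J : Cardinal) ≤ Algebra.trdeg k N) : IsTranscendenceBasis k z := by
  have h1 : Algebra.IsAlgebraic (Algebra.adjoin k (Set.range z)) N := by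
    rw [← IntermediateField.isAlgebraic_adjoin_iff_top]
    exact ⟨fun x => mem_cl.1 (hall x)⟩
  refine Algebra.IsAlgebraic.isTranscendenceBasis_of_le_trdeg_of_finite k z ?_
  rw [← Nat.cast_card (α := J)]
  exact hle

section sd

variable {K ι : Type} [Field K] [CharZero K] [Fintype ι] {D : K[X]} {κ g u : ι → K[X]} {k : ℕ}
variable {k₀ N : Type} [Field k₀] [Field N] [Algebra K k₀] [Algebra K N] [Algebra k₀ N]
  [IsScalarTower K k₀ N]

theorem BB_mem (F : IntermediateField k₀ N) (a b : ι ⊕ Bool → N) (ha : ∀ i, a i ∈ F)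
    (hb : ∀ i, b i ∈ F) {w₁ y₁ w₂ y₂ : N} (h1 : w₁ ∈ F) (h2 : y₁ ∈ F) (h3 : w₂ ∈ F) (h4 : y₂ ∈ F) :
    BB D κ g u w₁ y₁ w₂ y₂ a b ∈ F := by
  have h := BB_map D κ g u (F.val.restrictScalars K) ⟨w₁, h1⟩ ⟨y₁, h2⟩ ⟨w₂, h3⟩ ⟨y₂, h4⟩
    (fun i => (⟨a i, ha i⟩ : F)) (fun i => (⟨b i, hb i⟩ : F))
  change _ = BB D κ g u w₁ y₁ w₂ y₂ a b at h
  rw [← h]
  exact (BB D κ g u (⟨w₁, h1⟩ : F) ⟨y₁, h2⟩ ⟨w₂, h3⟩ ⟨y₂, h4⟩
    (fun i => (⟨a i, ha i⟩ : F)) (fun i => (⟨b i, hb i⟩ : F))).2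

/-- The formula for the coordinate `i₀`. -/
theorem coord [CharZero N] {w₁ y₁ w₂ y₂ : N} {v : ι ⊕ Bool → N} {T : N}
    (p₁ : Pt D κ g u v T w₁ y₁) (p₂ : Pt D κ g u v T w₂ y₂) (e : ι ⊕ Bool → N) (i₀ : ι ⊕ Bool)
    (hee : BB D κ g u w₁ y₁ w₂ y₂ e e = 0) (hev : BB D κ g u w₁ y₁ w₂ y₂ e v ≠ 0) :
    v i₀ = BB D κ g u w₁ y₁ w₂ y₂ (v + (-(v i₀)) • e) (v + (-(v i₀)) • e) /
      (-2 * BB D κ g u w₁ y₁ w₂ y₂ e (v + (-(v i₀)) • e)) := by
  have hvv : BB D κ g u w₁ y₁ w₂ y₂ v v = 0 := by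
    rw [BB_self, p₁.hT, p₂.hT, sub_self]
  obtain ⟨h1, h2⟩ := BB_tilde D κ g u w₁ y₁ w₂ y₂ e v (v i₀) hee hvv
  rw [h1, h2, eq_div_iff (mul_ne_zero (by norm_num) hev)]
  ring

variable (η : Ix ι → N) (hη : IsTranscendenceBasis k₀ η)
include hη

theorem mem_all [CharZero N] {w₁ y₁ w₂ y₂ : N}
    (p₁ : Pt D κ g u (fun i => η (Sum.inl i)) (η (Sum.inr ())) w₁ y₁)
    (p₂ : Pt D κ g u (fun i => η (Sum.inl i)) (η (Sum.inr ())) w₂ y₂)
    (e : ι ⊕ Bool → N) (i₀ : ι ⊕ Bool) (he1 : e i₀ = 1)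
    (hee : BB D κ g u w₁ y₁ w₂ y₂ e e = 0)
    (hev : BB D κ g u w₁ y₁ w₂ y₂ e (fun i => η (Sum.inl i)) ≠ 0)
    (L : IntermediateField k₀ N) (hL : ∀ x, IsAlgebraic L x → x ∈ L) (hw₁ : w₁ ∈ L)
    (hw₂ : w₂ ∈ L) (he : ∀ i, e i ∈ L)
    (hz : ∀ i, i ≠ i₀ → η (Sum.inl i) - η (Sum.inl i₀) * e i ∈ L) (x : N) : x ∈ L := by
  have hy₁ := p₁.y_mem L hL hw₁
  have hy₂ := p₂.y_mem L hL hw₂
  have hct : ∀ i, ((fun i => η (Sum.inl i)) + (-(η (Sum.inl i₀))) • e) i ∈ L := by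
    intro i
    change η (Sum.inl i) + -(η (Sum.inl i₀)) * e i ∈ L
    by_cases hi : i = i₀
    · subst hi
      rw [he1, mul_one, add_neg_cancel]
      exact L.zero_mem
    · have h1 := hz i hi
      have h2 : η (Sum.inl i) + -(η (Sum.inl i₀)) * e i =
        η (Sum.inl i) - η (Sum.inl i₀) * e i := by ring
      rw [h2]
      exact h1
  have hc := coord p₁ p₂ e i₀ hee hev
  have h0 : η (Sum.inl i₀) ∈ L := by
    rw [hc]
    refine div_mem (BB_mem L _ _ hct hct hw₁ hy₁ hw₂ hy₂) (mul_mem ?_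
      (BB_mem L _ _ he hct hw₁ hy₁ hw₂ hy₂))
    exact neg_mem (by exact_mod_cast L.natCast_mem 2)
  have hv : ∀ i, η (Sum.inl i) ∈ L := by
    intro i
    by_cases hi : i = i₀
    · rw [hi]
      exact h0
    · have h1 := add_mem (hz i hi) (mul_mem h0 (he i))
      rwa [sub_add_cancel] at h1
  refine basis_top η hη L (fun x => L.algebraMap_mem x) (fun j => ?_) hL x
  rcases j with i | ⟨⟩
  · exact hv i
  · have h1 := FF_mem (D := D) (κ := κ) (g := g) (u := u) L (fun i => η (Sum.inl i)) hv hw₁ hy₁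
    rw [p₁.hT] at h1
    exact h1

theorem card_sub [DecidableEq ι] (i₀ : ι ⊕ Bool) :
    Nat.card {i // i ≠ i₀} = Fintype.card ι + 1 := by
  rw [Nat.card_eq_fintype_card, Fintype.card_subtype_compl, Fintype.card_sum, Fintype.card_bool,
    Fintype.card_subtype_eq]
  omega

theorem basis₂ [CharZero N] {w₁ y₁ w₂ y₂ : N}
    (p₁ : Pt D κ g u (fun i => η (Sum.inl i)) (η (Sum.inr ())) w₁ y₁)
    (p₂ : Pt D κ g u (fun i => η (Sum.inl i)) (η (Sum.inr ())) w₂ y₂)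
    (F : IntermediateField k₀ N) (hF : F = cl k₀ (Set.range ![w₁, w₂]))
    (e : ι ⊕ Bool → F) (i₀ : ι ⊕ Bool) (he1 : e i₀ = 1)
    (hee : BB D κ g u w₁ y₁ w₂ y₂ (fun i => (e i : N)) (fun i => (e i : N)) = 0)
    (hev : BB D κ g u w₁ y₁ w₂ y₂ (fun i => (e i : N)) (fun i => η (Sum.inl i)) ≠ 0) :
    IsTranscendenceBasis F (fun i : {i // i ≠ i₀} =>
      η (Sum.inl i.1) - η (Sum.inl i₀) * (e i.1 : N)) ∧
    IsTranscendenceBasis k₀ (Sum.elim ![w₁, w₂] (fun i : {i // i ≠ i₀} =>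
      η (Sum.inl i.1) - η (Sum.inl i₀) * (e i.1 : N))) := by
  classical
  have hw₁ : w₁ ∈ F := by
    rw [hF]
    exact sub_cl _ ⟨0, rfl⟩
  have hw₂ : w₂ ∈ F := by
    rw [hF]
    exact sub_cl _ ⟨1, rfl⟩
  constructor
  · refine basis_of_cl _ (fun x => ?_) ?_
    · set S := Set.range fun i : {i // i ≠ i₀} =>
        η (Sum.inl i.1) - η (Sum.inl i₀) * (e i.1 : N) with hS
      have hmem : ∀ y ∈ F, y ∈ cl F S := fun y hy => (cl F S).algebraMap_mem (⟨y, hy⟩ : F)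
      have hk : ∀ z : k₀, algebraMap k₀ N z ∈ (cl F S).toSubfield := fun z =>
        hmem _ (F.algebraMap_mem z)
      have hc : ∀ y, IsAlgebraic ((cl F S).toSubfield.toIntermediateField hk) y →
          y ∈ (cl F S).toSubfield.toIntermediateField hk := fun y hy => cl_closed (k := F) hy
      exact mem_all η hη p₁ p₂ (fun i => (e i : N)) i₀ (by rw [he1]; rfl) hee hev
        ((cl F S).toSubfield.toIntermediateField hk) hc (hmem _ hw₁) (hmem _ hw₂)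
        (fun i => hmem _ (e i).2) (fun i hi => sub_cl (k := F) S ⟨⟨i, hi⟩, rfl⟩) x
    · rw [card_sub η hη]
      subst hF
      refine le_trdeg_cl η hη ![w₁, w₂] _ ?_
      rw [card_Ix η hη]
      simp
  · refine basis_of_cl _ (fun x => ?_) ?_
    · have hsub : ∀ y ∈ F, y ∈ cl k₀ (Set.range (Sum.elim ![w₁, w₂] (fun i : {i // i ≠ i₀} =>
          η (Sum.inl i.1) - η (Sum.inl i₀) * (e i.1 : N)))) := by
        intro y hy
        rw [hF] at hy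
        refine cl_le ?_ (fun x hx => cl_closed hx) hy
        rintro _ ⟨j, rfl⟩
        exact sub_cl _ ⟨Sum.inl j, rfl⟩
      refine mem_all η hη p₁ p₂ (fun i => (e i : N)) i₀ (by rw [he1]; rfl) hee hev _
        (fun y hy => cl_closed hy) (hsub _ hw₁) (hsub _ hw₂) (fun i => hsub _ (e i).2)
        (fun i hi => sub_cl _ ⟨Sum.inr ⟨i, hi⟩, rfl⟩) x
    · rw [← hη.cardinalMk_eq_trdeg, ← Nat.cast_card (α := Ix ι), card_Ix η hη, Nat.card_sum,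
        card_sub η hη]
      simp
      norm_cast
      omega

end sd

section mv

variable {K ι : Type} [Field K] [CharZero K] [Fintype ι] {D : K[X]} {κ g u : ι → K[X]} {k : ℕ}
variable {k₀ N : Type} [Field k₀] [Field N] [Algebra K k₀] [Algebra K N] [Algebra k₀ N]
  [IsScalarTower K k₀ N] [IsAlgClosed N] (h : DOK D k κ g u)

include h

/-- The data of two distinct points. -/
theorem two_pts (hgen : St_gen) (hiso : St_iso) (η : Ix ι → N) (hη : IsTranscendenceBasis k₀ η)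
    {w₁ y₁ w₂ y₂ : N}
    (p₁ : Pt D κ g u (fun i => η (Sum.inl i)) (η (Sum.inr ())) w₁ y₁)
    (p₂ : Pt D κ g u (fun i => η (Sum.inl i)) (η (Sum.inr ())) w₂ y₂) (hne : w₂ ≠ w₁) :
    ∃ (e : ι ⊕ Bool → cl k₀ (Set.range ![w₁, w₂])) (i₀ : ι ⊕ Bool), e i₀ = 1 ∧
      BB D κ g u w₁ y₁ w₂ y₂ (fun i => (e i : N)) (fun i => (e i : N)) = 0 ∧
      ∀ (η' : Ix ι → N), IsTranscendenceBasis k₀ η' →
      Pt D κ g u (fun i => η' (Sum.inl i)) (η' (Sum.inr ())) w₁ y₁ →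
      Pt D κ g u (fun i => η' (Sum.inl i)) (η' (Sum.inr ())) w₂ y₂ →
      BB D κ g u w₁ y₁ w₂ y₂ (fun i => (e i : N)) (fun i => η' (Sum.inl i)) ≠ 0 := by
  have hcN : CharZero N := charZero_of_injective_algebraMap (algebraMap K N).injective
  set F := cl k₀ (Set.range ![w₁, w₂]) with hF
  have hFc : IsAlgClosed F := cl_isAlgClosed _
  have hcl : ∀ x, IsAlgebraic F x → x ∈ F := fun x hx => cl_closed hx
  have hw₁ : w₁ ∈ F := sub_cl _ ⟨0, rfl⟩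
  have hw₂ : w₂ ∈ F := sub_cl _ ⟨1, rfl⟩
  have hy₁ := p₁.y_mem F hcl hw₁
  have hy₂ := p₂.y_mem F hcl hw₂
  have hsq : (⟨w₁, hw₁⟩ : F) ^ 2 ≠ ⟨w₂, hw₂⟩ ^ 2 := by
    intro h1
    have h2 : w₁ ^ 2 = w₂ ^ 2 := congrArg Subtype.val h1
    apply hne
    refine (sep η hη h hgen hiso p₁ p₂ ?_).1
    refine sq_mem (cl k₀ (Set.range fun _ : Unit => w₁)) (fun x hx => cl_closed hx) ?_
    rw [← h2]
    exact pow_mem (sub_cl (Set.range fun _ : Unit => w₁) ⟨(), rfl⟩) 2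
  obtain ⟨e, i₀, he1, hee, b, hb⟩ := exists_e h hiso (⟨w₁, hw₁⟩ : F) (⟨y₁, hy₁⟩ : F)
    (⟨w₂, hw₂⟩ : F) (⟨y₂, hy₂⟩ : F) hsq
  refine ⟨e, i₀, he1, ?_, ?_⟩
  · have h1 := BB_map D κ g u (F.val.restrictScalars K) (⟨w₁, hw₁⟩ : F) (⟨y₁, hy₁⟩ : F)
      (⟨w₂, hw₂⟩ : F) (⟨y₂, hy₂⟩ : F) e e
    rw [hee, map_zero] at h1
    exact h1.symm
  · intro η' hη' p₁' p₂'
    exact BB_ne η' hη' h hgen hiso p₁' p₂' F hF hw₁ hy₁ hw₂ hy₂ hsq e b hb

/-- Two systems of parameters with two common points are conjugate. -/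
theorem move (hgen : St_gen) (hiso : St_iso) (η η' : Ix ι → N)
    (hη : IsTranscendenceBasis k₀ η) (hη' : IsTranscendenceBasis k₀ η') {w₁ y₁ w₂ y₂ : N}
    (p₁ : Pt D κ g u (fun i => η (Sum.inl i)) (η (Sum.inr ())) w₁ y₁)
    (p₂ : Pt D κ g u (fun i => η (Sum.inl i)) (η (Sum.inr ())) w₂ y₂)
    (p₁' : Pt D κ g u (fun i => η' (Sum.inl i)) (η' (Sum.inr ())) w₁ y₁)
    (p₂' : Pt D κ g u (fun i => η' (Sum.inl i)) (η' (Sum.inr ())) w₂ y₂) (hne : w₂ ≠ w₁) :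
    ∃ τ : N ≃ₐ[cl k₀ (Set.range ![w₁, w₂])] N, ∀ i, τ (η i) = η' i := by
  have hcN : CharZero N := charZero_of_injective_algebraMap (algebraMap K N).injective
  obtain ⟨e, i₀, he1, hee, hev⟩ := two_pts h hgen hiso η hη p₁ p₂ hne
  have hb := basis₂ η hη p₁ p₂ _ rfl e i₀ he1 hee (hev η hη p₁ p₂)
  have hb' := basis₂ η' hη' p₁' p₂' _ rfl e i₀ he1 hee (hev η' hη' p₁' p₂')
  obtain ⟨τ, hτ⟩ := exists_equiv_basis _ _ hb.1 hb'.1
  have hfix : ∀ x ∈ cl k₀ (Set.range ![w₁, w₂]), τ x = x := fun x hx =>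
    τ.commutes (⟨x, hx⟩ : cl k₀ (Set.range ![w₁, w₂]))
  have hcl : ∀ x, IsAlgebraic (cl k₀ (Set.range ![w₁, w₂])) x →
    x ∈ cl k₀ (Set.range ![w₁, w₂]) := fun x hx => cl_closed hx
  have hw₁ : w₁ ∈ cl k₀ (Set.range ![w₁, w₂]) := sub_cl _ ⟨0, rfl⟩
  have hw₂ : w₂ ∈ cl k₀ (Set.range ![w₁, w₂]) := sub_cl _ ⟨1, rfl⟩
  have hy₁ := p₁.y_mem _ hcl hw₁
  have hy₂ := p₂.y_mem _ hcl hw₂
  set e' : ι ⊕ Bool → N := fun i => (e i : N) with he'
  have he0 : e' i₀ = 1 := by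
    rw [he']
    simp only [he1]
    rfl
  have hct : ∀ i, τ (((fun i => η (Sum.inl i)) + (-(η (Sum.inl i₀))) • e') i) =
      ((fun i => η' (Sum.inl i)) + (-(η' (Sum.inl i₀))) • e') i := by
    intro i
    change τ (η (Sum.inl i) + -(η (Sum.inl i₀)) * e' i) =
      η' (Sum.inl i) + -(η' (Sum.inl i₀)) * e' i
    by_cases hi : i = i₀
    · rw [hi, he0, mul_one, mul_one, add_neg_cancel, add_neg_cancel, map_zero]
    · have h1 : ∀ a b : N, a + -b * e' i = a - b * e' i := fun a b => by ring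
      rw [h1, h1]
      exact hτ ⟨i, hi⟩
  have hBB : ∀ a b : ι ⊕ Bool → N, τ (BB D κ g u w₁ y₁ w₂ y₂ a b) =
      BB D κ g u w₁ y₁ w₂ y₂ (fun i => τ (a i)) (fun i => τ (b i)) := by
    intro a b
    have h1 := BB_map D κ g u ((τ : N →ₐ[cl k₀ (Set.range ![w₁, w₂])] N).restrictScalars K)
      w₁ y₁ w₂ y₂ a b
    change τ _ = BB D κ g u (τ w₁) (τ y₁) (τ w₂) (τ y₂) _ _ at h1
    rwa [hfix _ hw₁, hfix _ hw₂, hfix _ hy₁, hfix _ hy₂] at h1
  have hfe : (fun i => τ (e' i)) = e' := funext fun i => hfix _ (e i).2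
  have h0 : τ (η (Sum.inl i₀)) = η' (Sum.inl i₀) := by
    rw [coord p₁ p₂ e' i₀ hee (hev η hη p₁ p₂), coord p₁' p₂' e' i₀ hee (hev η' hη' p₁' p₂'),
      map_div₀, map_mul, map_neg, map_ofNat, hBB, hBB, hfe]
    simp only [hct]
  have hv : ∀ i, τ (η (Sum.inl i)) = η' (Sum.inl i) := by
    intro i
    have h1 := hct i
    change τ (η (Sum.inl i) + -(η (Sum.inl i₀)) * e' i) =
      η' (Sum.inl i) + -(η' (Sum.inl i₀)) * e' i at h1
    rw [map_add, map_mul, map_neg, h0, congrFun hfe i] at h1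
    exact add_right_cancel h1
  refine ⟨τ, fun j => ?_⟩
  rcases j with i | ⟨⟩
  · exact hv i
  · have h1 := FF_map D κ g u ((τ : N →ₐ[cl k₀ (Set.range ![w₁, w₂])] N).restrictScalars K)
      (fun i => η (Sum.inl i)) w₁ y₁
    change τ _ = FF D κ g u (fun i => τ (η (Sum.inl i))) (τ w₁) (τ y₁) at h1
    rw [hfix _ hw₁, hfix _ hy₁, p₁.hT, funext hv, p₁'.hT] at h1
    exact h1

end mv

end Pool.Agent.Y793
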