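import Mathlib
import Pool.Agent.Y793.Sd

set_option autoImplicit false
set_option linter.unusedSectionVars false
set_option linter.unusedSimpArgs false

namespace Pool.Agent.Y793

open Polynomial

section gal

variable {K Z N : Type} [Field K] [Field Z] [Algebra (RatFunc K) Z] [Algebra K Z]
  [IsScalarTower K (RatFunc K) Z] [Field N] [Algebra K N]

/-- A function field generator. -/
noncomputable def tz (K Z : Type) [Field K] [Field Z] [Algebra (RatFunc K) Z] (t₀ : K) : Z :=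
  algebraMap (RatFunc K) Z (RatFunc.X - RatFunc.C t₀)

theorem poly_eval (φ : Z →ₐ[K] N) (t₀ : K) (w : N) (hw : w ^ 2 = φ (tz K Z t₀)) (p : K[X]) :
    φ (algebraMap (RatFunc K) Z (algebraMap K[X] (RatFunc K) p)) =
      aeval (w ^ 2 + algebraMap K N t₀) p := by
  have h1 : φ (algebraMap (RatFunc K) Z (algebraMap K[X] (RatFunc K) X)) =
      w ^ 2 + algebraMap K N t₀ := by
    rw [hw, tz, map_sub, map_sub, RatFunc.algebraMap_X]
    have h2 : algebraMap (RatFunc K) Z (RatFunc.C t₀) = algebraMap K Z t₀ := by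
      rw [← RatFunc.algebraMap_eq_C, ← IsScalarTower.algebraMap_apply]
    rw [h2, φ.commutes, sub_add_cancel]
  rw [← h1]
  induction p using Polynomial.induction_on' with
  | add p q hp hq => simp only [map_add, hp, hq]
  | monomial n a =>
    rw [aeval_monomial, ← C_mul_X_pow_eq_monomial, map_mul, map_mul, map_mul, map_pow, map_pow,
      map_pow]
    congr 1
    rw [RatFunc.algebraMap_C, ← RatFunc.algebraMap_eq_C, ← IsScalarTower.algebraMap_apply,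
      φ.commutes]

/-- The image of an embedding is algebraic over the image of the variable. -/
theorem emb_mem [CharZero K] {k₀ : Type} [Field k₀] [Algebra K k₀] [Algebra k₀ N] [IsScalarTower K k₀ N]
    [FiniteDimensional (RatFunc K) Z]
    (φ : Z →ₐ[K] N) (t₀ : K) (w : N) (hw : w ^ 2 = φ (tz K Z t₀)) (L : IntermediateField k₀ N)
    (hL : ∀ x, IsAlgebraic L x → x ∈ L) (hwL : w ∈ L) (z : Z) : φ z ∈ L := by
  have hK : ∀ a : K, algebraMap K N a ∈ L := by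
    intro a
    rw [IsScalarTower.algebraMap_apply K k₀ N]
    exact L.algebraMap_mem _
  have hq : ∀ q : RatFunc K, φ (algebraMap (RatFunc K) Z q) ∈ L := by
    intro q
    rw [← RatFunc.num_div_denom q, map_div₀, map_div₀, poly_eval φ t₀ w hw, poly_eval φ t₀ w hw]
    have h1 : w ^ 2 + algebraMap K N t₀ ∈ L := add_mem (pow_mem hwL 2) (hK _)
    exact div_mem (aeval_mem' L h1 _) (aeval_mem' L h1 _)
  let ψ : RatFunc K →+* L := ((φ : Z →+* N).comp (algebraMap (RatFunc K) Z)).codRestrict L hq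
  apply hL
  have hz : IsAlgebraic (RatFunc K) z := Algebra.IsAlgebraic.isAlgebraic z
  obtain ⟨p, hp, hp0⟩ := hz
  refine ⟨p.map ψ, (Polynomial.map_ne_zero_iff ψ.injective).2 hp, ?_⟩
  rw [aeval_def, eval₂_map]
  have h2 : (algebraMap L N).comp ψ = (φ : Z →+* N).comp (algebraMap (RatFunc K) Z) := by
    apply RingHom.ext
    intro x
    rfl
  rw [h2]
  have h3 := Polynomial.hom_eval₂ p (algebraMap (RatFunc K) Z) (φ : Z →+* N) z
  rw [← aeval_def, hp0, map_zero] at h3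
  exact h3.symm

/-- Two embeddings which agree on the variable differ by an element of the Galois group. -/
theorem comp_gal [FiniteDimensional (RatFunc K) Z] [IsGalois (RatFunc K) Z] (t₀ : K)
    (f f' : Z →ₐ[K] N) (w : N) (hw : w ^ 2 = f (tz K Z t₀)) (hw' : w ^ 2 = f' (tz K Z t₀)) :
    ∃ γ : Z ≃ₐ[RatFunc K] Z, ∀ z, f' z = f (γ z) := by
  have hq : ∀ q : RatFunc K, f' (algebraMap (RatFunc K) Z q) = f (algebraMap (RatFunc K) Z q) := by
    intro q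
    rw [← RatFunc.num_div_denom q, map_div₀, map_div₀, map_div₀, poly_eval f t₀ w hw,
      poly_eval f t₀ w hw, poly_eval f' t₀ w hw', poly_eval f' t₀ w hw']
  let _ : Algebra Z N := (f : Z →+* N).toAlgebra
  let _ : Algebra (RatFunc K) N := ((f : Z →+* N).comp (algebraMap (RatFunc K) Z)).toAlgebra
  have t1 : IsScalarTower (RatFunc K) Z N := .of_algebraMap_eq fun _ => rfl
  let f'' : Z →ₐ[RatFunc K] N := { (f' : Z →+* N) with commutes' := fun q => hq q }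
  refine ⟨f''.restrictNormal' Z, fun z => ?_⟩
  have h1 := f''.restrictNormal_commutes Z z
  exact h1.symm

end gal

/-- A labelled point. -/
structure LP {K Z N ι : Type} [Field K] [Fintype ι] [Field Z] [Algebra (RatFunc K) Z]
    [Algebra K Z] [Field N] [Algebra K N] (D : K[X]) (κ g u : ι → K[X]) (t₀ : K) (δ : Z)
    (v : ι ⊕ Bool → N) (T : N) (φ : Z →ₐ[K] N) (w : N) : Prop where
  hw : w ^ 2 = φ (tz K Z t₀)
  hp : Pt D κ g u v T w (φ δ)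

section pair

variable {K ι : Type} [Field K] [CharZero K] [Fintype ι] {D : K[X]} {κ g u : ι → K[X]} {k : ℕ}
variable {k₀ N Z : Type} [Field k₀] [Field N] [Algebra K k₀] [Algebra K N] [Algebra k₀ N]
  [IsScalarTower K k₀ N] [IsAlgClosed N] (h : DOK D k κ g u)
  [Field Z] [Algebra (RatFunc K) Z] [Algebra K Z] [IsScalarTower K (RatFunc K) Z]
  [FiniteDimensional (RatFunc K) Z] [IsGalois (RatFunc K) Z]

include h

theorem pair_trans (hgen : St_gen) (hiso : St_iso) (hext : St_ext) (η : Ix ι → N)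
    (hη : IsTranscendenceBasis k₀ η)
    (hreg : ∀ y : Z, IsAlgebraic K y → y ∈ Set.range (algebraMap K Z)) (t₀ : K)
    (hstar : ∀ (z : Z) (a : K), a ≠ 0 →
      z ^ 2 ≠ algebraMap (RatFunc K) Z (RatFunc.C a * (RatFunc.X - RatFunc.C t₀))) (δ : Z)
    {φ₁ φ₂ φ₁' φ₂' : Z →ₐ[K] N} {w₁ w₂ w₁' w₂' : N}
    (l₁ : LP D κ g u t₀ δ (fun i => η (Sum.inl i)) (η (Sum.inr ())) φ₁ w₁)
    (l₂ : LP D κ g u t₀ δ (fun i => η (Sum.inl i)) (η (Sum.inr ())) φ₂ w₂)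
    (l₁' : LP D κ g u t₀ δ (fun i => η (Sum.inl i)) (η (Sum.inr ())) φ₁' w₁')
    (l₂' : LP D κ g u t₀ δ (fun i => η (Sum.inl i)) (η (Sum.inr ())) φ₂' w₂')
    (hne : w₂ ≠ w₁) (hne' : w₂' ≠ w₁') :
    ∃ σ : N ≃ₐ[k₀] N, (∀ i, σ (η i) = η i) ∧ σ w₁ = w₁' ∧ σ w₂ = w₂' ∧
      (∀ z, σ (φ₁ z) = φ₁' z) ∧ ∀ z, σ (φ₂ z) = φ₂' z := by
  classical
  have hcN : CharZero N := charZero_of_injective_algebraMap (algebraMap K N).injective
  -- the first step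
  obtain ⟨ρ, hρ₁, hρ₂⟩ : ∃ ρ : N ≃ₐ[k₀] N, ρ w₁ = w₁' ∧ ρ w₂ = w₂' := by
    obtain ⟨e, i₀, he1, hee, hev⟩ := two_pts h hgen hiso η hη l₁.hp l₂.hp hne
    obtain ⟨e', i₀', he1', hee', hev'⟩ := two_pts h hgen hiso η hη l₁'.hp l₂'.hp hne'
    have hb := (basis₂ η hη l₁.hp l₂.hp _ rfl e i₀ he1 hee (hev η hη l₁.hp l₂.hp)).2
    have hb' := (basis₂ η hη l₁'.hp l₂'.hp _ rfl e' i₀' he1' hee'
      (hev' η hη l₁'.hp l₂'.hp)).2
    have hcard : Nat.card {i // i ≠ i₀} = Nat.card {i // i ≠ i₀'} := by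
      rw [card_sub η hη, card_sub η hη]
    obtain ⟨ε⟩ : Nonempty ({i // i ≠ i₀} ≃ {i // i ≠ i₀'}) := Finite.card_eq.1 hcard
    have hb'' := (isTranscendenceBasis_equiv ((Equiv.refl (Fin 2)).sumCongr ε)).2 hb'
    obtain ⟨ρ, hρ⟩ := exists_equiv_basis _ _ hb hb''
    exact ⟨ρ, hρ (Sum.inl 0), hρ (Sum.inl 1)⟩
  -- the correction of one embedding
  have hcorr : ∀ (ψ ψ' : Z →ₐ[K] N) (w v : N), w ^ 2 = ψ (tz K Z t₀) → w ^ 2 = ψ' (tz K Z t₀) →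
      w ∉ cl k₀ (Set.range fun _ : Unit => v) →
      ∃ τ : N ≃ₐ[k₀] N, (∀ z, τ (ψ z) = ψ' z) ∧ τ w = w ∧
        ∀ x ∈ cl k₀ (Set.range fun _ : Unit => v), τ x = x := by
    intro ψ ψ' w v hψ hψ' hwv
    set L := cl k₀ (Set.range fun _ : Unit => v) with hL
    have hKL : ∀ a : K, algebraMap K N a ∈ L.toSubfield := by
      intro a
      rw [IsScalarTower.algebraMap_apply K k₀ N]
      exact L.algebraMap_mem _
    obtain ⟨γ, hγ⟩ := comp_gal t₀ ψ' ψ w hψ' hψ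
    have htr : Transcendental (L.toSubfield.toIntermediateField hKL) w := by
      intro h1
      exact hwv (cl_closed h1)
    obtain ⟨τ, hτ1, hτ2⟩ := hext K Z N hreg t₀ hstar (L.toSubfield.toIntermediateField hKL) ψ' w
      hψ' htr γ.symm 1
    have hfix : ∀ x ∈ L, τ x = x := fun x hx =>
      τ.commutes (⟨x, hx⟩ : L.toSubfield.toIntermediateField hKL)
    refine ⟨AlgEquiv.ofRingEquiv (f := τ.toRingEquiv) fun x => hfix _ (L.algebraMap_mem x),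
      fun z => ?_, ?_, hfix⟩
    · change τ (ψ z) = ψ' z
      rw [hγ, hτ1, AlgEquiv.symm_apply_apply]
    · change τ w = w
      rw [hτ2]
      simp
  have hn1 : w₁' ∉ cl k₀ (Set.range fun _ : Unit => w₂') := fun h1 =>
    hne' (sep η hη h hgen hiso l₂'.hp l₁'.hp h1).1.symm
  have hn2 : w₂' ∉ cl k₀ (Set.range fun _ : Unit => w₁') := fun h1 =>
    hne' (sep η hη h hgen hiso l₁'.hp l₂'.hp h1).1
  let ρK : N →ₐ[K] N := (ρ : N →ₐ[k₀] N).restrictScalars K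
  have hf1 : w₁' ^ 2 = (ρK.comp φ₁) (tz K Z t₀) := by
    change _ = ρ (φ₁ (tz K Z t₀))
    rw [← l₁.hw, map_pow, hρ₁]
  have hf2 : w₂' ^ 2 = (ρK.comp φ₂) (tz K Z t₀) := by
    change _ = ρ (φ₂ (tz K Z t₀))
    rw [← l₂.hw, map_pow, hρ₂]
  obtain ⟨τ₁, a1, a2, a3⟩ := hcorr (ρK.comp φ₁) φ₁' w₁' w₂' hf1 l₁'.hw hn1
  obtain ⟨τ₂, b1, b2, b3⟩ := hcorr (ρK.comp φ₂) φ₂' w₂' w₁' hf2 l₂'.hw hn2
  let σ₀ : N ≃ₐ[k₀] N := (ρ.trans τ₁).trans τ₂
  have hσ₀ : ∀ x, σ₀ x = τ₂ (τ₁ (ρ x)) := fun x => rfl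
  have c1 : ∀ z, σ₀ (φ₁ z) = φ₁' z := by
    intro z
    rw [hσ₀]
    have h1 : τ₁ (ρ (φ₁ z)) = φ₁' z := a1 z
    rw [h1]
    exact b3 _ (emb_mem φ₁' t₀ w₁' l₁'.hw _ (fun x hx => cl_closed hx)
      (sub_cl (Set.range fun _ : Unit => w₁') ⟨(), rfl⟩) z)
  have c2 : ∀ z, σ₀ (φ₂ z) = φ₂' z := by
    intro z
    rw [hσ₀]
    have h1 : τ₁ (ρ (φ₂ z)) = ρ (φ₂ z) :=
      a3 _ (emb_mem (ρK.comp φ₂) t₀ w₂' hf2 _ (fun x hx => cl_closed hx)
        (sub_cl (Set.range fun _ : Unit => w₂') ⟨(), rfl⟩) z)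
    rw [h1]
    exact b1 z
  have c3 : σ₀ w₁ = w₁' := by
    rw [hσ₀, hρ₁, a2]
    exact b3 _ (sub_cl _ ⟨(), rfl⟩)
  have c4 : σ₀ w₂ = w₂' := by
    rw [hσ₀, hρ₂, a3 _ (sub_cl _ ⟨(), rfl⟩), b2]
  -- the second step
  have hη' : IsTranscendenceBasis k₀ (fun i => σ₀.symm (η i)) :=
    AlgEquiv.isTranscendenceBasis σ₀.symm hη
  have hpt : ∀ (φ φ' : Z →ₐ[K] N) (w w' : N),
      LP D κ g u t₀ δ (fun i => η (Sum.inl i)) (η (Sum.inr ())) φ w →
      LP D κ g u t₀ δ (fun i => η (Sum.inl i)) (η (Sum.inr ())) φ' w' →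
      (∀ z, σ₀ (φ z) = φ' z) → σ₀ w = w' →
      Pt D κ g u (fun i => σ₀.symm (η (Sum.inl i))) (σ₀.symm (η (Sum.inr ()))) w (φ δ) := by
    intro φ φ' w w' l l' h1 h2
    refine ⟨l.hp.hy, ?_⟩
    have h3 := FF_map D κ g u ((σ₀.symm : N →ₐ[k₀] N).restrictScalars K)
      (fun i => η (Sum.inl i)) w' (φ' δ)
    change σ₀.symm _ = FF D κ g u (fun i => σ₀.symm (η (Sum.inl i))) (σ₀.symm w')
      (σ₀.symm (φ' δ)) at h3
    rw [l'.hp.hT, ← h2, ← h1, AlgEquiv.symm_apply_apply, AlgEquiv.symm_apply_apply] at h3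
    exact h3.symm
  obtain ⟨τ, hτ⟩ := move h hgen hiso η (fun i => σ₀.symm (η i)) hη hη' l₁.hp l₂.hp
    (hpt φ₁ φ₁' w₁ w₁' l₁ l₁' c1 c3) (hpt φ₂ φ₂' w₂ w₂' l₂ l₂' c2 c4) hne
  have hfix : ∀ x ∈ cl k₀ (Set.range ![w₁, w₂]), τ x = x := fun x hx =>
    τ.commutes (⟨x, hx⟩ : cl k₀ (Set.range ![w₁, w₂]))
  have m1 : w₁ ∈ cl k₀ (Set.range ![w₁, w₂]) := sub_cl _ ⟨0, rfl⟩
  have m2 : w₂ ∈ cl k₀ (Set.range ![w₁, w₂]) := sub_cl _ ⟨1, rfl⟩
  let τ' : N ≃ₐ[k₀] N := AlgEquiv.ofRingEquiv (f := τ.toRingEquiv) fun x =>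
    hfix _ ((cl k₀ (Set.range ![w₁, w₂])).algebraMap_mem x)
  have hτ' : ∀ x, τ' x = τ x := fun x => rfl
  refine ⟨τ'.trans σ₀, fun i => ?_, ?_, ?_, fun z => ?_, fun z => ?_⟩
  · change σ₀ (τ (η i)) = η i
    rw [hτ, AlgEquiv.apply_symm_apply]
  · change σ₀ (τ w₁) = w₁'
    rw [hfix _ m1, c3]
  · change σ₀ (τ w₂) = w₂'
    rw [hfix _ m2, c4]
  · change σ₀ (τ (φ₁ z)) = φ₁' z
    rw [hfix _ (emb_mem φ₁ t₀ w₁ l₁.hw _ (fun x hx => cl_closed hx) m1 z), c1]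
  · change σ₀ (τ (φ₂ z)) = φ₂' z
    rw [hfix _ (emb_mem φ₂ t₀ w₂ l₂.hw _ (fun x hx => cl_closed hx) m2 z), c2]

end pair

end Pool.Agent.Y793
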