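import Mathlib
import Pool.Agent.Y793.Se

set_option autoImplicit false
set_option linter.unusedSectionVars false
set_option linter.unusedSimpArgs false

namespace Pool.Agent.Y793

open Polynomial

section maps

variable {K ι : Type} [Field K] [Fintype ι] (D : K[X]) (κ g u : ι → K[X])
variable {E E' : Type} [CommRing E] [Algebra K E] [CommRing E'] [Algebra K E']

theorem PA_map (φ : E →ₐ[K] E') (v : ι ⊕ Bool → E) (T : E) :
    (PA D κ g v T).map (φ : E →+* E') = PA D κ g (fun i => φ (v i)) (φ T) := by
  have h1 : (φ : E →+* E').comp (algebraMap K E) = algebraMap K E' := φ.comp_algebraMap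
  unfold PA
  simp only [Polynomial.map_sub, Polynomial.map_add, Polynomial.map_mul, Polynomial.map_expand,
    adr_map, gin_map, lin_map, Polynomial.map_map, h1, map_C, map_X, RingHom.coe_coe]

theorem PB_map (φ : E →ₐ[K] E') (v : ι ⊕ Bool → E) :
    (PB D u v).map (φ : E →+* E') = PB D u (fun i => φ (v i)) := by
  have h1 : (φ : E →+* E').comp (algebraMap K E) = algebraMap K E' := φ.comp_algebraMap
  unfold PB
  simp only [Polynomial.map_sub, Polynomial.map_add, Polynomial.map_mul, Polynomial.map_expand,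
    adr_map, gin_map, lin_map, Polynomial.map_map, h1, map_C, map_X, RingHom.coe_coe, map_mul,
    map_ofNat, Polynomial.map_ofNat]

theorem PP_map (φ : E →ₐ[K] E') (v : ι ⊕ Bool → E) (T : E) :
    (PP D κ g u v T).map (φ : E →+* E') = PP D κ g u (fun i => φ (v i)) (φ T) := by
  have h1 : (φ : E →+* E').comp (algebraMap K E) = algebraMap K E' := φ.comp_algebraMap
  unfold PP
  rw [Polynomial.map_sub, Polynomial.map_mul, Polynomial.map_pow, Polynomial.map_pow, PA_map,
    PB_map, Polynomial.map_expand, Polynomial.map_map, h1]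

theorem expD_eval (w y : E) (hy : y ^ 2 = aeval (w ^ 2) D) :
    (expand E 2 (D.map (algebraMap K E))).eval w = y ^ 2 := by
  rw [expand_eval, eval_map_algebraMap, hy]

theorem PP_eval (v : ι ⊕ Bool → E) (T w y : E) (hy : y ^ 2 = aeval (w ^ 2) D) :
    (PP D κ g u v T).eval w = (FF D κ g u v w y - T) *
      ((PA D κ g v T).eval w - y * (PB D u v).eval w) := by
  rw [FF_eq D κ g u v T w y]
  unfold PP
  rw [eval_sub, eval_mul, eval_pow, eval_pow, expD_eval D w y hy]
  ring

end maps

section pts

variable {K ι : Type} [Field K] [Fintype ι] {D : K[X]} {κ g u : ι → K[X]}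
variable {N : Type} [Field N] [Algebra K N]

theorem Pt.root {v : ι ⊕ Bool → N} {T w y : N} (p : Pt D κ g u v T w y) :
    (PP D κ g u v T).eval w = 0 := by
  rw [PP_eval D κ g u v T w y p.hy, p.hT, sub_self, zero_mul]

theorem Pt.eqn {v : ι ⊕ Bool → N} {T w y : N} (p : Pt D κ g u v T w y) :
    (PA D κ g v T).eval w = -(y * (PB D u v).eval w) := by
  have h1 := p.hT
  rw [FF_eq D κ g u v T w y] at h1
  linear_combination h1

theorem exists_pt [IsAlgClosed N] {v : ι ⊕ Bool → N} {T w : N}
    (hw : (PP D κ g u v T).eval w = 0) : ∃ y, Pt D κ g u v T w y := by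
  obtain ⟨y, hy⟩ := IsAlgClosed.exists_pow_nat_eq (aeval (w ^ 2) D) (n := 2) (by norm_num)
  rw [PP_eval D κ g u v T w y hy] at hw
  rcases mul_eq_zero.1 hw with h1 | h1
  · exact ⟨y, hy, sub_eq_zero.1 h1⟩
  · refine ⟨-y, by rw [neg_sq]; exact hy, ?_⟩
    rw [FF_eq D κ g u v T w (-y)]
    linear_combination h1

end pts

section der

variable {K ι : Type} [Field K] [CharZero K] [Fintype ι] {D : K[X]} {κ g u : ι → K[X]} {k : ℕ}
  (h : DOK D k κ g u) {E : Type} [CommRing E] [Algebra K E]

include h

theorem dPP (v : ι ⊕ Bool → E) (T : E) :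
    derivative (PP D κ g u v T) = 4 * X * ((PC D κ v ^ 2 + C (v (Sum.inr false) ^ 2) *
      expand E 2 (D.map (algebraMap K E))) * PA D κ g v T -
      2 * C (v (Sum.inr false)) * PC D κ v * expand E 2 (D.map (algebraMap K E)) * PB D u v) := by
  have h1 := dA h v T
  have h2 := dB h v
  unfold PP
  rw [derivative_sub, derivative_mul, derivative_pow, derivative_pow, exp_der, h1]
  simp only [Nat.cast_ofNat, Nat.add_one_sub_one, pow_one, derivative_map]
  have h3 : (C 2 : E[X]) = 2 := map_ofNat C 2
  rw [h3]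
  linear_combination (-2 * PB D u v) * h2

theorem dPP_pt {v : ι ⊕ Bool → E} {T w y : E} (p : Pt D κ g u v T w y) :
    (derivative (PP D κ g u v T)).eval w = w * (PA D κ g v T).eval w *
      (2 * ((PC D κ v).eval w + v (Sum.inr false) * y)) ^ 2 := by
  have h1 : (PA D κ g v T).eval w = -(y * (PB D u v).eval w) := by
    have h1 := p.hT
    rw [FF_eq D κ g u v T w y] at h1
    linear_combination h1
  rw [dPP h v T]
  simp only [eval_mul, eval_sub, eval_add, eval_pow, eval_C, eval_X, eval_ofNat,
    expD_eval D w y p.hy]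
  rw [h1]
  ring

end der

end Pool.Agent.Y793
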