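import Mathlib
import Pool.Agent.Y793.Pm

set_option autoImplicit false
set_option linter.unusedSectionVars false
set_option linter.unusedSimpArgs false

namespace Pool.Agent.Y793

open Polynomial

section forms

variable {K ι : Type} [Field K] [Fintype ι] (D : K[X]) (κ u : ι → K[X])
variable {E E' : Type} [CommRing E] [Algebra K E] [CommRing E'] [Algebra K E']

theorem PC_eval (v : ι ⊕ Bool → E) (w : E) : (PC D κ v).eval w = (lin κ v).eval (w ^ 2) +
    algebraMap K E (3 / 2) * v (Sum.inr true) * w *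
      ((derivative (X * D)).map (algebraMap K E)).eval (w ^ 2) := by
  unfold PC
  simp only [eval_add, eval_mul, eval_C, eval_X, expand_eval]

/-- The value of the square root of the derivative, as a linear form. -/
noncomputable def aL (w y : E) : (ι ⊕ Bool → E) →ₗ[E] E where
  toFun v := (PC D κ v).eval w + v (Sum.inr false) * y
  map_add' a b := by
    rw [PC_eval, PC_eval, PC_eval, lin_add]
    simp only [Pi.add_apply, eval_add]
    ring
  map_smul' t a := by
    rw [PC_eval, PC_eval, lin_smul]
    simp only [Pi.smul_apply, eval_mul, eval_C, smul_eq_mul, RingHom.id_apply]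
    ring

theorem aL_apply (w y : E) (v : ι ⊕ Bool → E) :
    aL D κ w y v = (PC D κ v).eval w + v (Sum.inr false) * y := rfl

theorem aL_eq (w y : E) (v : ι ⊕ Bool → E) :
    aL D κ w y v = (lin κ v).eval (w ^ 2) + algebraMap K E (3 / 2) * v (Sum.inr true) * w *
      ((derivative (X * D)).map (algebraMap K E)).eval (w ^ 2) + v (Sum.inr false) * y := by
  rw [aL_apply, PC_eval]

/-- The other factor of `B`, as a linear form. -/
noncomputable def uL (w : E) : (ι ⊕ Bool → E) →ₗ[E] E where
  toFun v := (lin u v).eval (w ^ 2) + 2 * v (Sum.inr true) * w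
  map_add' a b := by
    rw [lin_add]
    simp only [Pi.add_apply, eval_add]
    ring
  map_smul' t a := by
    rw [lin_smul]
    simp only [Pi.smul_apply, eval_mul, eval_C, smul_eq_mul, RingHom.id_apply]
    ring

theorem uL_apply (w : E) (v : ι ⊕ Bool → E) :
    uL u w v = (lin u v).eval (w ^ 2) + 2 * v (Sum.inr true) * w := rfl

theorem map_ev (φ : E →ₐ[K] E') (p : E[X]) (x : E) :
    φ (p.eval x) = (p.map (φ : E →+* E')).eval (φ x) :=
  (eval_map_apply (f := (φ : E →+* E')) (p := p) (x := x)).symm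

theorem aL_map (φ : E →ₐ[K] E') (w y : E) (v : ι ⊕ Bool → E) :
    φ (aL D κ w y v) = aL D κ (φ w) (φ y) (fun i => φ (v i)) := by
  have h1 : (φ : E →+* E').comp (algebraMap K E) = algebraMap K E' := φ.comp_algebraMap
  rw [aL_eq, aL_eq]
  simp only [map_add, map_mul, map_ev, lin_map, Polynomial.map_map, h1, map_pow,
    AlgHom.commutes]

theorem uL_map (φ : E →ₐ[K] E') (w : E) (v : ι ⊕ Bool → E) :
    φ (uL u w v) = uL u (φ w) (fun i => φ (v i)) := by
  rw [uL_apply, uL_apply]
  simp only [map_add, map_mul, map_ev, lin_map, map_pow, map_ofNat]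

theorem PB_eval (v : ι ⊕ Bool → E) (w : E) : (PB D u v).eval w =
    ((X * D).map (algebraMap K E)).eval (w ^ 2) * v (Sum.inr false) * uL u w v := by
  rw [uL_apply]
  unfold PB
  simp only [eval_add, eval_mul, eval_C, eval_X, expand_eval]
  ring

end forms

section linall

variable {F N I : Type} [Field F] [Field N] [Algebra F N] [Fintype I]

/-- A generic point of `U` is a zero of a linear form only if the form vanishes on `U`. -/
theorem lin_all (hgen : St_gen) (v : I → N)
    (halg : Algebra.IsAlgebraic (IntermediateField.adjoin F (Set.range v)) N)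
    (U : Submodule F (I → F))
    (hvU : v ∈ Submodule.span N ((fun (c : I → F) (i : I) => algebraMap F N (c i)) ''
      (U : Set (I → F))))
    (htr : (Module.finrank F U : Cardinal) ≤ Algebra.trdeg F N) (L : (I → F) →ₗ[F] F)
    (LN : (I → N) →ₗ[N] N)
    (hL : ∀ c : I → F, LN (fun i => algebraMap F N (c i)) = algebraMap F N (L c))
    (h0 : LN v = 0) (a : I → F) (ha : a ∈ U) : L a = 0 := by
  classical
  let f : MvPolynomial I F := ∑ i, MvPolynomial.C (L (Pi.single i 1)) * MvPolynomial.X i
  have h1 : ∀ b : I → F, b = ∑ i, b i • (Pi.single i 1 : I → F) := by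
    intro b
    funext j
    simp [Finset.sum_apply, Pi.single_apply]
  have h2 : MvPolynomial.eval a f = L a := by
    conv_rhs => rw [h1 a]
    rw [map_sum, map_sum]
    refine Finset.sum_congr rfl fun i _ => ?_
    rw [map_mul, MvPolynomial.eval_C, MvPolynomial.eval_X, map_smul, smul_eq_mul, mul_comm]
  have h3 : MvPolynomial.aeval v f = LN v := by
    have h4 : v = ∑ i, v i • (fun j => algebraMap F N ((Pi.single i 1 : I → F) j)) := by
      funext j
      simp only [Finset.sum_apply, Pi.smul_apply, smul_eq_mul]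
      rw [Finset.sum_eq_single j]
      · simp
      · intro i _ hi
        rw [Pi.single_eq_of_ne hi.symm, map_zero, mul_zero]
      · intro h
        exact absurd (Finset.mem_univ _) h
    conv_rhs => rw [h4]
    rw [map_sum, map_sum]
    refine Finset.sum_congr rfl fun i _ => ?_
    rw [map_mul, MvPolynomial.aeval_C, MvPolynomial.aeval_X, map_smul, hL, smul_eq_mul, mul_comm]
  rw [← h2]
  exact hgen F N I v halg U hvU htr f (h3.trans h0) a ha

end linall

section gam

variable {K ι : Type} [Field K] [CharZero K] [Fintype ι] {D : K[X]} {κ g u : ι → K[X]} {k : ℕ}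
variable {k₀ N : Type} [Field k₀] [Field N] [Algebra K k₀] [Algebra K N] [Algebra k₀ N]
  [IsScalarTower K k₀ N] (h : DOK D k κ g u)

include h

theorem gam_ne (c : ι ⊕ Bool → N) (hc : AlgebraicIndependent k₀ c) : gam κ k c ≠ 0 := by
  obtain ⟨i, hi⟩ := h.htop
  have hi0 : (κ i).coeff k ≠ 0 := by
    rw [← hi]
    exact leadingCoeff_ne_zero.2 (h.hli.ne_zero i)
  unfold gam
  refine mul_ne_zero ?_ (pow_ne_zero 2 fun h0 => ?_)
  · rw [Ne, FaithfulSMul.algebraMap_eq_zero_iff]
    exact inv_ne_zero (by exact_mod_cast Nat.succ_ne_zero (2 * k))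
  · have hl : LinearIndependent k₀ (fun i : ι => c (Sum.inl i)) :=
      (hc.comp Sum.inl Sum.inl_injective).linearIndependent
    rw [Fintype.linearIndependent_iff] at hl
    have h1 := hl (fun i => algebraMap K k₀ ((κ i).coeff k)) (by
      rw [← h0]
      unfold lin
      rw [finsetSum_coeff]
      refine Finset.sum_congr rfl fun j _ => ?_
      rw [coeff_C_mul, coeff_map, Algebra.smul_def, ← IsScalarTower.algebraMap_apply, mul_comm]) i
    rw [FaithfulSMul.algebraMap_eq_zero_iff] at h1
    exact hi0 h1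

end gam

section sf

variable {K ι : Type} [Field K] [CharZero K] [Fintype ι] {D : K[X]} {κ g u : ι → K[X]} {k : ℕ}
variable {k₀ N : Type} [Field k₀] [Field N] [Algebra K k₀] [Algebra K N] [Algebra k₀ N]
  [IsScalarTower K k₀ N] (η : Ix ι → N) (hη : IsTranscendenceBasis k₀ η) (h : DOK D k κ g u)

include hη h

theorem uniq_y (hgen : St_gen) (hiso : St_iso) {w y y' : N}
    (p : Pt D κ g u (fun i => η (Sum.inl i)) (η (Sum.inr ())) w y)
    (p' : Pt D κ g u (fun i => η (Sum.inl i)) (η (Sum.inr ())) w y') : y' = y :=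
  (sep η hη h hgen hiso p p' (sub_cl _ ⟨(), rfl⟩)).2

theorem w_ne {w y : N} (p : Pt D κ g u (fun i => η (Sum.inl i)) (η (Sum.inr ())) w y) :
    w ≠ 0 := by
  intro h0
  apply w_not_mem η hη p
  rw [h0]
  exact IntermediateField.zero_mem _

theorem y_ne {w y : N} (p : Pt D κ g u (fun i => η (Sum.inl i)) (η (Sum.inr ())) w y) :
    y ≠ 0 := by
  intro h0
  have h1 := p.hy
  rw [h0] at h1
  exact ev_ne (w_not_mem η hη p) h.hD (by rw [← h1]; ring)

theorem B_ne (hgen : St_gen) (hiso : St_iso) {w y : N}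
    (p : Pt D κ g u (fun i => η (Sum.inl i)) (η (Sum.inr ())) w y) :
    (PB D u (fun i => η (Sum.inl i))).eval w ≠ 0 := by
  intro h0
  have hcN : CharZero N := charZero_of_injective_algebraMap (algebraMap K N).injective
  have h1 := p.eqn
  rw [h0, mul_zero, neg_zero] at h1
  have p' : Pt D κ g u (fun i => η (Sum.inl i)) (η (Sum.inr ())) w (-y) := by
    refine ⟨by rw [neg_sq]; exact p.hy, ?_⟩
    rw [FF_eq D κ g u _ (η (Sum.inr ())) w (-y), h0, h1]
    ring
  have h2 := uniq_y η hη h hgen hiso p p'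
  apply y_ne η hη h p
  have h3 : (2 : N) * y = 0 := by linear_combination -h2
  exact (mul_eq_zero.1 h3).resolve_left (by norm_num)

theorem a_ne (hgen : St_gen) {w y : N}
    (p : Pt D κ g u (fun i => η (Sum.inl i)) (η (Sum.inr ())) w y) :
    aL D κ w y (fun i => η (Sum.inl i)) ≠ 0 := by
  classical
  intro h0
  set F := cl k₀ (Set.range fun _ : Unit => w) with hF
  have hcl : ∀ x, IsAlgebraic F x → x ∈ F := fun x hx => cl_closed hx
  have hw : w ∈ F := sub_cl _ ⟨(), rfl⟩
  have hy : y ∈ F := p.y_mem F hcl hw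
  have halg := alg_over η hη F hw hy p
  have htr : (Module.finrank F (⊤ : Submodule F (ι ⊕ Bool → F)) : Cardinal) ≤
      Algebra.trdeg F N := by
    rw [finrank_top, Module.finrank_fintype_fun_eq_card, Fintype.card_sum, Fintype.card_bool]
    refine le_trdeg_cl η hη (fun _ : Unit => w) _ ?_
    rw [card_Ix η hη]
    simp
  have hall := lin_all hgen (fun i => η (Sum.inl i)) halg ⊤ (mem_span_top _) htr
    (aL D κ (⟨w, hw⟩ : F) ⟨y, hy⟩) (aL D κ w y)
    (fun c => (aL_map D κ (F.val.restrictScalars K) ⟨w, hw⟩ ⟨y, hy⟩ c).symm) h0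
  obtain ⟨i⟩ : Nonempty ι := Fintype.card_pos_iff.1 h.pos
  have h1 := hall (Sum.elim (Pi.single i 1) (fun _ => 0)) trivial
  rw [aL_eq, lin_single] at h1
  simp only [Sum.elim_inr, mul_zero, zero_mul, add_zero, C_1, one_mul, eval_map_algebraMap] at h1
  have h2 := Polynomial.aeval_algHom_apply (F.val.restrictScalars K) ((⟨w, hw⟩ : F) ^ 2) (κ i)
  rw [h1, map_zero] at h2
  exact ev_ne (w_not_mem η hη p) (h.hli.ne_zero i) h2

/-- The roots of `Φ` are simple. -/
theorem der_ne (hgen : St_gen) (hiso : St_iso) {w y : N}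
    (p : Pt D κ g u (fun i => η (Sum.inl i)) (η (Sum.inr ())) w y) :
    (derivative (PP D κ g u (fun i => η (Sum.inl i)) (η (Sum.inr ())))).eval w ≠ 0 := by
  have hcN : CharZero N := charZero_of_injective_algebraMap (algebraMap K N).injective
  rw [dPP_pt h p, p.eqn]
  refine mul_ne_zero (mul_ne_zero (w_ne η hη h p) (neg_ne_zero.2 (mul_ne_zero (y_ne η hη h p)
    (B_ne η hη h hgen hiso p)))) (pow_ne_zero 2 (mul_ne_zero (by norm_num)
    (a_ne η hη h hgen p)))

end sf

end Pool.Agent.Y793
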