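import Mathlib
import Pool.Agent.Y793.Fo
import Pool.Agent.Y793.Fac

set_option autoImplicit false
set_option linter.unusedSectionVars false
set_option linter.unusedSimpArgs false

namespace Pool.Agent.Y793

open Polynomial Pool.Agent.H391R2

section emb

variable {K Z N : Type} [Field K] [Field Z] [Algebra (RatFunc K) Z] [Algebra K Z]
  [IsScalarTower K (RatFunc K) Z] [Field N] [Algebra K N] [IsAlgClosed N]
  [FiniteDimensional (RatFunc K) Z]

theorem exists_emb (t₀ : K) (w : N) (hw : Transcendental K w) :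
    ∃ φ : Z →ₐ[K] N, w ^ 2 = φ (tz K Z t₀) := by
  have hs : Transcendental K (w ^ 2 + algebraMap K N t₀) := by
    intro h1
    apply hw
    have h2 : IsAlgebraic K (w ^ 2) := by
      have h3 := h1.sub (isAlgebraic_algebraMap t₀)
      rwa [add_sub_cancel_right] at h3
    exact h2.of_pow (by norm_num)
  let ψ : RatFunc K →ₐ[K] N := (IntermediateField.adjoin K {w ^ 2 + algebraMap K N t₀}).val.comp
    (RatFunc.algEquivOfTranscendental _ hs : RatFunc K →ₐ[K] _)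
  have hψ : ψ RatFunc.X = w ^ 2 + algebraMap K N t₀ := by
    change ((RatFunc.algEquivOfTranscendental _ hs RatFunc.X :
      IntermediateField.adjoin K {w ^ 2 + algebraMap K N t₀}) : N) = _
    simp
  let _ : Algebra (RatFunc K) N := (ψ : RatFunc K →+* N).toAlgebra
  have t1 : IsScalarTower K (RatFunc K) N := .of_algebraMap_eq fun x => (ψ.commutes x).symm
  let φ : Z →ₐ[RatFunc K] N := IsAlgClosed.lift
  refine ⟨φ.restrictScalars K, ?_⟩
  change _ = φ (tz K Z t₀)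
  rw [tz, φ.commutes]
  change _ = ψ (RatFunc.X - RatFunc.C t₀)
  rw [map_sub, hψ, ← RatFunc.algebraMap_eq_C, ψ.commutes, add_sub_cancel_right]

end emb

section lab

variable {K Z N : Type} [Field K] [Field Z] [Algebra (RatFunc K) Z] [Algebra K Z]
  [IsScalarTower K (RatFunc K) Z] [Field N] [Algebra K N]

theorem emb_delta (φ : Z →ₐ[K] N) (t₀ : K) (w : N) (hw : w ^ 2 = φ (tz K Z t₀)) (D : K[X])
    (δ : Z) (hδ : δ ^ 2 = algebraMap (RatFunc K) Z (algebraMap K[X] (RatFunc K)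
      (D.comp (X - C t₀)))) : φ δ ^ 2 = aeval (w ^ 2) D := by
  rw [← map_pow, hδ, poly_eval φ t₀ w hw, aeval_comp]
  simp

theorem exists_label [IsAlgClosed N] [FiniteDimensional (RatFunc K) Z] (t₀ : K) (w y : N)
    (hw : Transcendental K w) (D : K[X]) (δ : Z) (hδ : δ ^ 2 = algebraMap (RatFunc K) Z
      (algebraMap K[X] (RatFunc K) (D.comp (X - C t₀)))) (γ₀ : Z ≃ₐ[RatFunc K] Z)
    (hγ₀ : γ₀ δ = -δ) (hy : y ^ 2 = aeval (w ^ 2) D) :
    ∃ φ : Z →ₐ[K] N, w ^ 2 = φ (tz K Z t₀) ∧ φ δ = y := by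
  obtain ⟨φ, hφ⟩ := exists_emb (Z := Z) t₀ w hw
  have h1 := emb_delta φ t₀ w hφ D δ hδ
  rw [← hy] at h1
  rcases sq_eq_sq_iff_eq_or_eq_neg.1 h1 with h2 | h2
  · exact ⟨φ, hφ, h2⟩
  · refine ⟨φ.comp ((γ₀ : Z →ₐ[RatFunc K] Z).restrictScalars K), ?_, ?_⟩
    · change _ = φ (γ₀ (tz K Z t₀))
      rw [tz, γ₀.commutes]
      exact hφ
    · change φ (γ₀ δ) = y
      rw [hγ₀, map_neg, h2, neg_neg]

end lab

/-- The labelled solutions. -/
structure Sy {K Z N ι : Type} [Field K] [Fintype ι] [Field Z] [Algebra (RatFunc K) Z]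
    [Algebra K Z] [Field N] [Algebra K N] (D : K[X]) (κ g u : ι → K[X]) (k : ℕ) (t₀ : K) (δ : Z)
    (v : ι ⊕ Bool → N) (T : N) (n : ℕ) (r : Fin n → N) (φ : Fin n → (Z →ₐ[K] N)) : Prop where
  inj : Function.Injective r
  lp : ∀ i, LP D κ g u t₀ δ v T (φ i) (r i)
  prod : PP D κ g u v T = C (gam κ k v ^ 2) * ∏ i, (X - C (r i))

/-- The action of an automorphism on the labelled solutions. -/
def Rl {K Z N : Type} [Field K] [Field Z] [Algebra (RatFunc K) Z] [Algebra K Z] [Field N]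
    [Algebra K N] {P : Subgroup (Z ≃ₐ[RatFunc K] Z)} {n : ℕ} (r : Fin n → N)
    (φ : Fin n → (Z →ₐ[K] N)) (σ : N → N) (x : Wr P n) : Prop :=
  ∀ i, σ (r i) = r (x.right i) ∧
    ∀ z, σ (φ i z) = φ (x.right i) ((x.left (x.right i) : Z ≃ₐ[RatFunc K] Z) z)

section rl

variable {K Z N : Type} [Field K] [Field Z] [Algebra (RatFunc K) Z] [Algebra K Z] [Field N]
    [Algebra K N] {P : Subgroup (Z ≃ₐ[RatFunc K] Z)} {n : ℕ} {r : Fin n → N}
    {φ : Fin n → (Z →ₐ[K] N)}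

theorem Rl.mul {σ τ : N → N} {x y : Wr P n} (h1 : Rl r φ σ x) (h2 : Rl r φ τ y) :
    Rl r φ (fun a => σ (τ a)) (x * y) := by
  intro i
  refine ⟨?_, fun z => ?_⟩
  · change σ (τ (r i)) = _
    rw [(h2 i).1, (h1 _).1]
    rfl
  · change σ (τ (φ i z)) = _
    rw [(h2 i).2, (h1 _).2, wr_mul_left, wr_mul_right]
    have h3 : x.right⁻¹ ((x.right * y.right) i) = y.right i := by simp
    rw [h3]
    rfl

theorem Rl.inv {σ τ : N → N} (hστ : ∀ a, τ (σ a) = a) {x : Wr P n} (h1 : Rl r φ σ x) :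
    Rl r φ τ x⁻¹ := by
  intro i
  obtain ⟨j, rfl⟩ := x.right.surjective i
  have h3 : x⁻¹.right (x.right j) = j := by simp
  refine ⟨?_, fun z => ?_⟩
  · rw [h3, ← (h1 j).1, hστ]
  · rw [h3, wr_inv_left]
    have h2 := (h1 j).2 (((x.left (x.right j) : Z ≃ₐ[RatFunc K] Z))⁻¹ z)
    have h4 : ((x.left (x.right j) : Z ≃ₐ[RatFunc K] Z))
        (((x.left (x.right j) : Z ≃ₐ[RatFunc K] Z))⁻¹ z) = z := by
      change (((x.left (x.right j) : Z ≃ₐ[RatFunc K] Z)) *
        ((x.left (x.right j) : Z ≃ₐ[RatFunc K] Z))⁻¹) z = z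
      rw [mul_inv_cancel]
      rfl
    rw [h4] at h2
    rw [← h2, hστ]
    rfl

theorem Rl.one : Rl r φ (fun a : N => a) (1 : Wr P n) := fun _ => ⟨rfl, fun _ => rfl⟩

end rl

section sols

variable {K ι : Type} [Field K] [CharZero K] [Fintype ι] {D : K[X]} {κ g u : ι → K[X]} {k : ℕ}
variable {k₀ N : Type} [Field k₀] [Field N] [Algebra K k₀] [Algebra K N] [Algebra k₀ N]
  [IsScalarTower K k₀ N] [IsAlgClosed N] (η : Ix ι → N) (hη : IsTranscendenceBasis k₀ η)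
  (h : DOK D k κ g u)
variable {Z : Type} [Field Z] [Algebra (RatFunc K) Z] [Algebra K Z] [IsScalarTower K (RatFunc K) Z]
  [FiniteDimensional (RatFunc K) Z] [IsGalois (RatFunc K) Z] (t₀ : K) (δ : Z)

include hη h

theorem exists_sy (hk : 2 * D.natDegree + 2 ≤ k) (hgen : St_gen) (hiso : St_iso)
    (hδ : δ ^ 2 = algebraMap (RatFunc K) Z
      (algebraMap K[X] (RatFunc K) (D.comp (X - C t₀)))) (γ₀ : Z ≃ₐ[RatFunc K] Z)
    (hγ₀ : γ₀ δ = -δ) :
    ∃ (r : Fin (2 * (2 * (2 * k + 1))) → N) (φ : Fin (2 * (2 * (2 * k + 1))) → (Z →ₐ[K] N)),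
      Sy D κ g u k t₀ δ (fun i => η (Sum.inl i)) (η (Sum.inr ())) _ r φ := by
  have hc : AlgebraicIndependent k₀ (fun i => η (Sum.inl i)) :=
    hη.1.comp Sum.inl Sum.inl_injective
  have hgam := gam_ne h (fun i => η (Sum.inl i)) hc
  obtain ⟨hd, hl⟩ := PP_deg h hk (fun i => η (Sum.inl i)) (η (Sum.inr ())) hgam
  have hne : PP D κ g u (fun i => η (Sum.inl i)) (η (Sum.inr ())) ≠ 0 := by
    intro h0
    rw [h0, leadingCoeff_zero] at hl
    exact pow_ne_zero 2 hgam hl.symm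
  obtain ⟨r, hr, hp⟩ := fac_simple _ hne _ hd (fun x hx => by
    obtain ⟨y, hy⟩ := exists_pt hx
    exact der_ne η hη h hgen hiso hy)
  rw [hl] at hp
  have hroot : ∀ i, (PP D κ g u (fun i => η (Sum.inl i)) (η (Sum.inr ()))).eval (r i) = 0 := by
    intro i
    rw [hp, eval_mul, eval_prod]
    apply mul_eq_zero_of_right
    exact Finset.prod_eq_zero (Finset.mem_univ i) (by simp)
  have hex : ∀ i, ∃ φ : Z →ₐ[K] N, LP D κ g u t₀ δ (fun i => η (Sum.inl i)) (η (Sum.inr ())) φ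
      (r i) := by
    intro i
    obtain ⟨y, hy⟩ := exists_pt (hroot i)
    have htr : Transcendental K (r i) := by
      intro h1
      exact w_not_mem η hη hy (cl_closed ((h1.tower_top k₀).tower_top _))
    obtain ⟨φ, h1, h2⟩ := exists_label t₀ (r i) y htr D δ hδ γ₀ hγ₀ hy.hy
    exact ⟨φ, h1, by rw [h2]; exact hy⟩
  choose φ hφ using hex
  exact ⟨r, φ, hr, hφ, hp⟩

theorem exists_x0 (hgen : St_gen) (hiso : St_iso) {n : ℕ} {r : Fin n → N}
    {φ : Fin n → (Z →ₐ[K] N)} (hgam : gam κ k (fun i => η (Sum.inl i)) ≠ 0)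
    (S : Sy D κ g u k t₀ δ (fun i => η (Sum.inl i)) (η (Sum.inr ())) n r φ) (σ : N ≃ₐ[K] N)
    (hσ : ∀ i, σ (η i) = η i) :
    ∃ x : Wr (MulAction.stabilizer (Z ≃ₐ[RatFunc K] Z) δ) n, Rl r φ σ x := by
  have hstep : ∀ i, ∃ j, σ (r i) = r j ∧ ∃ γ : MulAction.stabilizer (Z ≃ₐ[RatFunc K] Z) δ,
      ∀ z, σ (φ i z) = φ j ((γ : Z ≃ₐ[RatFunc K] Z) z) := by
    intro i
    have p : Pt D κ g u (fun i => η (Sum.inl i)) (η (Sum.inr ())) (σ (r i)) (σ (φ i δ)) := by
      have q := (S.lp i).hp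
      refine ⟨?_, ?_⟩
      · rw [← map_pow, q.hy, ← map_pow]
        exact (Polynomial.aeval_algHom_apply (σ : N →ₐ[K] N) _ D).symm
      · have h3 := FF_map D κ g u (σ : N →ₐ[K] N) (fun i => η (Sum.inl i)) (r i) (φ i δ)
        change σ _ = FF D κ g u (fun i => σ (η (Sum.inl i))) (σ (r i)) (σ (φ i δ)) at h3
        rw [q.hT] at h3
        simp only [hσ] at h3
        exact h3.symm
    have hroot := p.root
    rw [S.prod, eval_mul, eval_prod, eval_C] at hroot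
    have h1 := (mul_eq_zero.1 hroot).resolve_left (pow_ne_zero 2 hgam)
    obtain ⟨j, -, hj⟩ := Finset.prod_eq_zero_iff.1 h1
    have hj' : σ (r i) = r j := by
      simpa [sub_eq_zero] using hj
    refine ⟨j, hj', ?_⟩
    have hw' : r j ^ 2 = ((σ : N →ₐ[K] N).comp (φ i)) (tz K Z t₀) := by
      change _ = σ (φ i (tz K Z t₀))
      rw [← (S.lp i).hw, map_pow, hj']
    obtain ⟨γ, hγ⟩ := comp_gal t₀ (φ j) ((σ : N →ₐ[K] N).comp (φ i)) (r j) (S.lp j).hw hw'
    have hy : σ (φ i δ) = φ j δ := by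
      rw [hj'] at p
      exact uniq_y η hη h hgen hiso (S.lp j).hp p
    refine ⟨⟨γ, ?_⟩, hγ⟩
    rw [MulAction.mem_stabilizer_iff]
    apply (φ j).injective
    change φ j (γ δ) = φ j δ
    rw [← hy]
    exact (hγ δ).symm
  choose π hπ γ hγ using hstep
  have hπinj : Function.Injective π := by
    intro i j hij
    apply S.inj
    apply σ.injective
    rw [hπ, hπ, hij]
  let π' : Equiv.Perm (Fin n) := Equiv.ofBijective π (Finite.injective_iff_bijective.1 hπinj)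
  have hπ' : ∀ i, π' i = π i := fun i => rfl
  refine ⟨⟨fun j => γ (π'.symm j), π'⟩, fun i => ⟨hπ i, fun z => ?_⟩⟩
  change σ (φ i z) = φ (π i) ((γ (π'.symm (π' i)) : Z ≃ₐ[RatFunc K] Z) z)
  rw [Equiv.symm_apply_apply]
  exact hγ i z

/-- Automorphisms act as even permutations. -/
theorem exists_x (hk : 2 * D.natDegree + 2 ≤ k) (hgen : St_gen) (hiso : St_iso)
    (hevn : St_evn) {r : Fin (2 * (2 * (2 * k + 1))) → N}
    {φ : Fin (2 * (2 * (2 * k + 1))) → (Z →ₐ[K] N)}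
    (S : Sy D κ g u k t₀ δ (fun i => η (Sum.inl i)) (η (Sum.inr ())) _ r φ) (σ : N ≃ₐ[K] N)
    (hσ : ∀ i, σ (η i) = η i) :
    ∃ x ∈ AWr (MulAction.stabilizer (Z ≃ₐ[RatFunc K] Z) δ) (2 * (2 * (2 * k + 1))),
      Rl r φ σ x := by
  have hcN : CharZero N := charZero_of_injective_algebraMap (algebraMap K N).injective
  have hc : AlgebraicIndependent k₀ (fun i => η (Sum.inl i)) :=
    hη.1.comp Sum.inl Sum.inl_injective
  have hgam := gam_ne h (fun i => η (Sum.inl i)) hc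
  obtain ⟨x, hx⟩ := exists_x0 η hη h t₀ δ hgen hiso hgam S σ hσ
  refine ⟨x, ?_, hx⟩
  obtain ⟨hd, hl⟩ := PA_deg h hk (fun i => η (Sum.inl i)) (η (Sum.inr ())) hgam
  change Equiv.Perm.sign x.right = 1
  have i₀ : Fin (2 * (2 * (2 * k + 1))) := ⟨0, by omega⟩
  refine hevn N σ.toRingEquiv (PA D κ g (fun i => η (Sum.inl i)) (η (Sum.inr ())))
    (PB D u (fun i => η (Sum.inl i))) (D.map (algebraMap K N))
    (gam κ k (fun i => η (Sum.inl i))) (2 * (2 * k + 1)) r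
    (fun i => 2 * aL D κ (r i) (φ i δ) (fun i => η (Sum.inl i))) x.right (even_two_mul _) hgam
    hd hl ?_ ?_ ?_ ?_ ?_ ?_ S.inj ?_ ?_ ?_ ?_ ?_
  · intro h0
    apply B_ne η hη h hgen hiso (S.lp i₀).hp
    rw [h0, eval_zero]
  · exact (Polynomial.map_ne_zero_iff (algebraMap K N).injective).2 h.hD
  · have h1 := PA_map D κ g (σ : N →ₐ[K] N) (fun i => η (Sum.inl i)) (η (Sum.inr ()))
    have h2 : (fun i => (σ : N →ₐ[K] N) (η (Sum.inl i))) = fun i : ι ⊕ Bool => η (Sum.inl i) :=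
      funext fun i => hσ _
    have h3 : (σ : N →ₐ[K] N) (η (Sum.inr ())) = η (Sum.inr ()) := hσ _
    rw [h2, h3] at h1
    exact h1
  · have h1 := PB_map D u (σ : N →ₐ[K] N) (fun i => η (Sum.inl i))
    have h2 : (fun i => (σ : N →ₐ[K] N) (η (Sum.inl i))) = fun i : ι ⊕ Bool => η (Sum.inl i) :=
      funext fun i => hσ _
    rw [h2] at h1
    exact h1
  · rw [Polynomial.map_map]
    congr 1
    exact (σ : N →ₐ[K] N).comp_algebraMap
  · exact S.prod
  · unfold PB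
    simp only [eval_mul, expand_eval, Polynomial.map_mul, map_X, eval_X]
    ring
  · intro t ht
    unfold PA
    simp only [eval_add, eval_sub, eval_mul, eval_C, eval_X, expand_eval, Polynomial.map_mul,
      map_X, neg_sq, ht]
    ring
  · intro i
    exact dPP_pt h (S.lp i).hp
  · intro i
    exact (hx i).1
  · intro i
    change σ (2 * aL D κ (r i) (φ i δ) (fun i => η (Sum.inl i))) =
      2 * aL D κ (r (x.right i)) (φ (x.right i) δ) (fun i => η (Sum.inl i))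
    have h1 := aL_map D κ (σ : N →ₐ[K] N) (r i) (φ i δ) (fun i => η (Sum.inl i))
    change σ _ = aL D κ (σ (r i)) (σ (φ i δ)) (fun i => σ (η (Sum.inl i))) at h1
    rw [map_mul, h1, map_ofNat, (hx i).1, (hx i).2]
    have h2 : ((x.left (x.right i) : Z ≃ₐ[RatFunc K] Z)) δ = δ :=
      MulAction.mem_stabilizer_iff.1 (x.left (x.right i)).2
    simp only [h2, hσ]

end sols

end Pool.Agent.Y793
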