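import Mathlib
import Pool.Agent.Y793.Gr

set_option autoImplicit false
set_option linter.unusedSectionVars false
set_option linter.unusedSimpArgs false

namespace Pool.Agent.Y793

open Polynomial Pool.Agent.H391R2

section geo

variable {K ι : Type} [Field K] [CharZero K] [Fintype ι] {D : K[X]} {κ g u : ι → K[X]} {k : ℕ}
variable {k₀ N : Type} [Field k₀] [Field N] [Algebra K k₀] [Algebra K N] [Algebra k₀ N]
  [IsScalarTower K k₀ N] [IsAlgClosed N] (η : Ix ι → N) (hη : IsTranscendenceBasis k₀ η)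
  (h : DOK D k κ g u)
variable {Z : Type} [Field Z] [Algebra (RatFunc K) Z] [Algebra K Z] [IsScalarTower K (RatFunc K) Z]
  [FiniteDimensional (RatFunc K) Z] [IsGalois (RatFunc K) Z] (t₀ : K) (δ : Z)

/-- The group of the automorphisms over `k₀`. -/
def HH (η : Ix ι → N) (P : Subgroup (Z ≃ₐ[RatFunc K] Z)) {n : ℕ} (r : Fin n → N)
    (φ : Fin n → (Z →ₐ[K] N)) (k₀ : Type) [Field k₀] [Algebra k₀ N] : Subgroup (Wr P n) where
  carrier := {x | ∃ σ : N ≃ₐ[k₀] N, (∀ i, σ (η i) = η i) ∧ Rl r φ σ x}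
  one_mem' := ⟨1, fun _ => rfl, Rl.one⟩
  mul_mem' := by
    rintro x y ⟨σ, h1, h2⟩ ⟨τ, h3, h4⟩
    refine ⟨σ * τ, fun i => ?_, h2.mul h4⟩
    change σ (τ (η i)) = η i
    rw [h3, h1]
  inv_mem' := by
    rintro x ⟨σ, h1, h2⟩
    refine ⟨σ⁻¹, fun i => ?_, h2.inv (fun a => σ.symm_apply_apply a)⟩
    change σ.symm (η i) = η i
    rw [AlgEquiv.symm_apply_eq, h1]

include hη h

theorem geo (hgen : St_gen) (hiso : St_iso) (hext : St_ext) (hgrp : St_grp)
    (hreg : ∀ y : Z, IsAlgebraic K y → y ∈ Set.range (algebraMap K Z))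
    (hstar : ∀ (z : Z) (a : K), a ≠ 0 →
      z ^ 2 ≠ algebraMap (RatFunc K) Z (RatFunc.C a * (RatFunc.X - RatFunc.C t₀)))
    {n : ℕ} {r : Fin n → N} {φ : Fin n → (Z →ₐ[K] N)}
    (S : Sy D κ g u k t₀ δ (fun i => η (Sum.inl i)) (η (Sum.inr ())) n r φ)
    (hperf : commutator (MulAction.stabilizer (Z ≃ₐ[RatFunc K] Z) δ) = ⊤) (hn : 7 ≤ n)
    (hn2 : 2 * (Nat.card (MulAction.stabilizer (Z ≃ₐ[RatFunc K] Z) δ)) ^ 2 < (n - 2).factorial)
    (h3 : ∃ (σ : N ≃ₐ[k₀] N) (π : Equiv.Perm (Fin n)), (∀ i, σ (η i) = η i) ∧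
      (∀ i, σ (r i) = r (π i)) ∧ π.IsThreeCycle)
    (x : Wr (MulAction.stabilizer (Z ≃ₐ[RatFunc K] Z) δ) n) (hx : x ∈ AWr _ n) :
    ∃ σ : N ≃ₐ[k₀] N, (∀ i, σ (η i) = η i) ∧ Rl r φ σ x := by
  have hc : AlgebraicIndependent k₀ (fun i => η (Sum.inl i)) :=
    hη.1.comp Sum.inl Sum.inl_injective
  have hgam := gam_ne h (fun i => η (Sum.inl i)) hc
  refine hgrp _ hperf n hn hn2 (HH η _ r φ k₀) ?_ ?_ hx
  · intro a b a' b' hab hab' γ γ'
    have hlp : ∀ (j : Fin n) (γ : MulAction.stabilizer (Z ≃ₐ[RatFunc K] Z) δ),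
        LP D κ g u t₀ δ (fun i => η (Sum.inl i)) (η (Sum.inr ()))
          ((φ j).comp (((γ : Z ≃ₐ[RatFunc K] Z) : Z →ₐ[RatFunc K] Z).restrictScalars K))
          (r j) := by
      intro j γ
      refine ⟨?_, ?_⟩
      · change _ = φ j ((γ : Z ≃ₐ[RatFunc K] Z) (tz K Z t₀))
        rw [tz, AlgEquiv.commutes]
        exact (S.lp j).hw
      · change Pt D κ g u _ _ _ (φ j ((γ : Z ≃ₐ[RatFunc K] Z) δ))
        have h2 : (γ : Z ≃ₐ[RatFunc K] Z) δ = δ := MulAction.mem_stabilizer_iff.1 γ.2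
        rw [h2]
        exact (S.lp j).hp
    obtain ⟨σ, h1, h2, h4, h5, h6⟩ := pair_trans h hgen hiso hext η hη hreg t₀ hstar δ
      (S.lp a) (S.lp b) (hlp a' γ) (hlp b' γ') (fun h0 => hab (S.inj h0).symm)
      (fun h0 => hab' (S.inj h0).symm)
    obtain ⟨x, hx⟩ := exists_x0 η hη h t₀ δ hgen hiso hgam S (σ.restrictScalars K) h1
    have ha : x.right a = a' := by
      apply S.inj
      rw [← (hx a).1]
      exact h2
    have hb : x.right b = b' := by
      apply S.inj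
      rw [← (hx b).1]
      exact h4
    refine ⟨x, ⟨σ, h1, hx⟩, ha, hb, ?_, ?_⟩
    · apply Subtype.ext
      apply AlgEquiv.ext
      intro z
      apply (φ a').injective
      have h7 := (hx a).2 z
      rw [ha] at h7
      exact h7.symm.trans (h5 z)
    · apply Subtype.ext
      apply AlgEquiv.ext
      intro z
      apply (φ b').injective
      have h7 := (hx b).2 z
      rw [hb] at h7
      exact h7.symm.trans (h6 z)
  · obtain ⟨σ, π, h1, h2, h4⟩ := h3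
    obtain ⟨x, hx⟩ := exists_x0 η hη h t₀ δ hgen hiso hgam S (σ.restrictScalars K) h1
    refine ⟨x, ⟨σ, h1, hx⟩, ?_⟩
    have h5 : x.right = π := by
      apply Equiv.ext
      intro i
      apply S.inj
      rw [← (hx i).1, ← h2]
      rfl
    rw [h5]
    exact h4

end geo

end Pool.Agent.Y793
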