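import Mathlib
import Pool.Agent.Y793.Gs

set_option autoImplicit false
set_option linter.unusedSectionVars false
set_option linter.unusedSimpArgs false

namespace Pool.Agent.Y793

open Polynomial

section dl

variable {K ι : Type} [Field K] [Fintype ι] (D : K[X]) (κ u : ι → K[X])
variable {E E' : Type} [CommRing E] [Algebra K E] [CommRing E'] [Algebra K E']

theorem PC_map (φ : E →ₐ[K] E') (v : ι ⊕ Bool → E) :
    (PC D κ v).map (φ : E →+* E') = PC D κ (fun i => φ (v i)) := by
  have h1 : (φ : E →+* E').comp (algebraMap K E) = algebraMap K E' := φ.comp_algebraMap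
  unfold PC
  simp only [Polynomial.map_add, Polynomial.map_mul, Polynomial.map_expand, lin_map,
    Polynomial.map_map, h1, map_C, map_X, RingHom.coe_coe, map_mul, AlgHom.commutes]

theorem PC_add (a b : ι ⊕ Bool → E) : PC D κ (a + b) = PC D κ a + PC D κ b := by
  unfold PC
  simp only [lin_add, Pi.add_apply, map_add, mul_add, C_add]
  ring

theorem PC_smul (t : E) (a : ι ⊕ Bool → E) : PC D κ (t • a) = C t * PC D κ a := by
  unfold PC
  simp only [lin_smul, Pi.smul_apply, smul_eq_mul, map_mul, expand_C]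
  ring

/-- `y` times the derivative of the square root of the derivative, as a linear form. -/
noncomputable def dL (w y : E) : (ι ⊕ Bool → E) →ₗ[E] E where
  toFun v := (derivative (PC D κ v)).eval w * y + v (Sum.inr false) * w *
    aeval (w ^ 2) (derivative D)
  map_add' a b := by
    rw [PC_add, derivative_add, eval_add, Pi.add_apply]
    ring
  map_smul' t a := by
    rw [PC_smul, derivative_C_mul, eval_mul, eval_C, Pi.smul_apply, smul_eq_mul, smul_eq_mul,
      RingHom.id_apply]
    ring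

theorem dL_apply (w y : E) (v : ι ⊕ Bool → E) : dL D κ w y v =
    (derivative (PC D κ v)).eval w * y + v (Sum.inr false) * w *
      aeval (w ^ 2) (derivative D) := rfl

theorem dL_map (φ : E →ₐ[K] E') (w y : E) (v : ι ⊕ Bool → E) :
    φ (dL D κ w y v) = dL D κ (φ w) (φ y) (fun i => φ (v i)) := by
  rw [dL_apply, dL_apply, ← PC_map, derivative_map]
  simp only [map_add, map_mul, map_ev]
  congr 2
  rw [← map_pow]
  exact (Polynomial.aeval_algHom_apply φ _ _).symm

end dl

section ta

variable {K ι : Type} [Field K] [CharZero K] [Fintype ι] {D : K[X]} {κ g u : ι → K[X]} {k : ℕ}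
variable {k₀ F : Type} [Field k₀] [Field F] [Algebra K k₀] [Algebra K F] [Algebra k₀ F]
  [IsScalarTower K k₀ F]

/-- The data: the field `F` with transcendence basis `w₁` and the `c i`, `i ≠ j₀`; the root of
`aL` at the point `w₁, y₁`. -/
structure TD (D : K[X]) (κ : ι → K[X]) (k₀ : Type) [Field k₀] [Algebra k₀ F]
    (b c : ι ⊕ Bool → F) (j₀ : ι) (w₁ y₁ : F) : Prop where
  hb : IsTranscendenceBasis k₀ b
  hw : b (Sum.inl j₀) = w₁
  hc : ∀ i, i ≠ Sum.inl j₀ → c i = b i
  hy : y₁ ^ 2 = aeval (w₁ ^ 2) D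
  ha : aL D κ w₁ y₁ c = 0

theorem exists_TD (h : DOK D k κ g u) [IsAlgClosed F] (b : ι ⊕ Bool → F)
    (hb : IsTranscendenceBasis k₀ b) (j₀ : ι) :
    ∃ (c : ι ⊕ Bool → F) (y₁ : F), TD D κ k₀ b c j₀ (b (Sum.inl j₀)) y₁ := by
  classical
  set w₁ := b (Sum.inl j₀) with hw₁
  obtain ⟨y₁, hy₁⟩ := IsAlgClosed.exists_pow_nat_eq (aeval (w₁ ^ 2) D) (n := 2) (by norm_num)
  have hne : aeval (w₁ ^ 2) (κ j₀) ≠ 0 := by
    intro h0
    have h1 : IsAlgebraic K (w₁ ^ 2) := ⟨κ j₀, h.hli.ne_zero j₀, h0⟩
    have h2 : IsAlgebraic K w₁ := h1.of_pow (by norm_num)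
    exact hb.1.transcendental (Sum.inl j₀) (h2.tower_top k₀)
  let c₀ : ι ⊕ Bool → F := Function.update b (Sum.inl j₀) 0
  let e : ι ⊕ Bool → F := Sum.elim (Pi.single j₀ 1) (fun _ => 0)
  have he : aL D κ w₁ y₁ e = aeval (w₁ ^ 2) (κ j₀) := by
    rw [aL_eq, lin_single]
    simp only [e, Sum.elim_inr, mul_zero, zero_mul, add_zero, C_1, one_mul, eval_map_algebraMap]
  refine ⟨c₀ + (-(aL D κ w₁ y₁ c₀ / aeval (w₁ ^ 2) (κ j₀))) • e, y₁, hb, rfl, ?_, hy₁, ?_⟩
  · intro i hi
    have h1 : c₀ i = b i := Function.update_of_ne hi _ _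
    have h2 : e i = 0 := by
      rcases i with i | i
      · have h3 : i ≠ j₀ := fun h4 => hi (by rw [h4])
        change (Pi.single j₀ (1 : F) : ι → F) i = 0
        exact Pi.single_eq_of_ne h3 _
      · rfl
    rw [Pi.add_apply, Pi.smul_apply, h1, h2, smul_zero, add_zero]
  · rw [map_add, map_smul, he, smul_eq_mul, neg_mul, div_mul_cancel₀ _ hne, add_neg_cancel]

variable {b c : ι ⊕ Bool → F} {j₀ : ι} {w₁ y₁ : F} (t : TD D κ k₀ b c j₀ w₁ y₁)

include t

theorem TD.ev {p : K[X]} (hp : p ≠ 0) : aeval (w₁ ^ 2) p ≠ 0 := by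
  intro h0
  have h1 : IsAlgebraic K (w₁ ^ 2) := ⟨p, hp, h0⟩
  have h2 : IsAlgebraic K w₁ := h1.of_pow (by norm_num)
  have h3 := t.hb.1.transcendental (Sum.inl j₀)
  rw [t.hw] at h3
  exact h3 (h2.tower_top k₀)

theorem TD.w_ne : w₁ ≠ 0 := by
  intro h0
  have h1 := t.ev X_ne_zero
  rw [aeval_X, h0] at h1
  exact h1 (by ring)

theorem TD.y_ne (h : DOK D k κ g u) : y₁ ≠ 0 := by
  intro h0
  have h1 := t.ev h.hD
  rw [← t.hy, h0] at h1
  exact h1 (by ring)

theorem TD.all (L : IntermediateField k₀ F) (hL : ∀ x, IsAlgebraic L x → x ∈ L) (hw : w₁ ∈ L)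
    (hc : ∀ i, c i ∈ L) (x : F) : x ∈ L := by
  classical
  refine basis_top b t.hb L (fun x => L.algebraMap_mem x) (fun j => ?_) hL x
  by_cases hj : j = Sum.inl j₀
  · rw [hj, t.hw]
    exact hw
  · rw [← t.hc j hj]
    exact hc j

theorem TD.alg (L : IntermediateField k₀ F) (hw : w₁ ∈ L) :
    Algebra.IsAlgebraic (IntermediateField.adjoin L (Set.range c)) F := by
  refine ⟨fun x => mem_cl.1 ?_⟩
  have hL : ∀ x ∈ L, x ∈ cl L (Set.range c) := fun x hx =>
    (cl L (Set.range c)).algebraMap_mem (⟨x, hx⟩ : L)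
  have hk : ∀ z : k₀, algebraMap k₀ F z ∈ (cl L (Set.range c)).toSubfield := fun z =>
    hL _ (L.algebraMap_mem z)
  have hcl : ∀ y, IsAlgebraic ((cl L (Set.range c)).toSubfield.toIntermediateField hk) y →
      y ∈ (cl L (Set.range c)).toSubfield.toIntermediateField hk := fun y hy =>
    cl_closed (k := L) hy
  exact t.all ((cl L (Set.range c)).toSubfield.toIntermediateField hk) hcl (hL _ hw)
    (fun i => sub_cl (k := L) (Set.range c) ⟨i, rfl⟩) x

theorem TD.trd {J : Type} [Finite J] (f : J → F) (n : ℕ)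
    (hn : n + Nat.card J ≤ Fintype.card ι + 2) :
    (n : Cardinal) ≤ Algebra.trdeg (cl k₀ (Set.range f)) F := by
  refine le_trdeg_cl b t.hb f n ?_
  rw [Nat.card_eq_fintype_card (α := ι ⊕ Bool), Fintype.card_sum, Fintype.card_bool]
  exact hn

end ta

section two

variable {F V : Type} [Field F] [AddCommGroup V] [Module F V] [FiniteDimensional F V]

theorem finrank_two (L : Bool → (V →ₗ[F] F)) (e e' : V)
    (hdet : L true e * L false e' - L true e' * L false e ≠ 0) :
    Module.finrank F (⨅ b, LinearMap.ker (L b) : Submodule F V) + 2 = Module.finrank F V := by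
  have h1 := (LinearMap.pi L).finrank_range_add_finrank_ker
  rw [LinearMap.ker_pi] at h1
  have h2 : LinearMap.range (LinearMap.pi L) = ⊤ := by
    rw [LinearMap.range_eq_top]
    intro s
    set d := L true e * L false e' - L true e' * L false e with hd
    refine ⟨((s true * L false e' - s false * L true e') / d) • e +
      ((s false * L true e - s true * L false e) / d) • e', ?_⟩
    funext b
    rw [LinearMap.pi_apply, map_add, map_smul, map_smul, smul_eq_mul, smul_eq_mul]
    rcases b with _ | _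
    · field_simp
      rw [hd]
      ring
    · field_simp
      rw [hd]
      ring
  rw [h2, finrank_top, Module.finrank_fintype_fun_eq_card, Fintype.card_bool] at h1
  omega

theorem finrank_one (L : Bool → (V →ₗ[F] F)) (hL : ∀ b, L b = L true) (e : V)
    (he : L true e ≠ 0) :
    Module.finrank F (⨅ b, LinearMap.ker (L b) : Submodule F V) + 1 = Module.finrank F V := by
  have h0 : (⨅ b, LinearMap.ker (L b) : Submodule F V) = LinearMap.ker (L true) := by
    simp only [hL]
    exact ciInf_const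
  rw [h0]
  have h1 := (L true).finrank_range_add_finrank_ker
  have h2 : LinearMap.range (L true) = ⊤ := by
    rw [LinearMap.range_eq_top]
    intro s
    exact ⟨(s / L true e) • e, by rw [map_smul, smul_eq_mul, div_mul_cancel₀ _ he]⟩
  rw [h2, finrank_top, Module.finrank_self] at h1
  omega

end two

end Pool.Agent.Y793
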