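import Mathlib
import Pool.Agent.Y793.Ta

set_option autoImplicit false
set_option linter.unusedSectionVars false
set_option linter.unusedSimpArgs false

namespace Pool.Agent.Y793

open Polynomial

section poly

variable {K : Type} [Field K] [CharZero K]

theorem coeff_X_der (p : K[X]) (n : ℕ) : (X * derivative p).coeff n = n * p.coeff n := by
  rcases n with _ | n
  · simp
  · rw [coeff_X_mul, coeff_derivative]
    push_cast
    ring

/-- The polynomial `D (Q' + 2 X Q'') - X Q' D'`, `Q = X D`. -/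
noncomputable def WW (D : K[X]) : K[X] :=
  D * derivative (X * D) + 2 * (D * (X * derivative (derivative (X * D)))) -
    derivative (X * D) * (X * derivative D)

theorem WW_ne (D : K[X]) (hD : D ≠ 0) : WW D ≠ 0 := by
  intro h0
  set d := D.natDegree with hd
  have e1 : (X * D).natDegree ≤ d + 1 := by
    refine natDegree_mul_le.trans ?_
    rw [natDegree_X]
    omega
  have e2 : (derivative (X * D)).natDegree ≤ d := by
    refine (natDegree_derivative_le _).trans ?_
    omega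
  have e3 : (derivative (X * D)).coeff d = D.leadingCoeff * (d + 1) := by
    rw [coeff_derivative, coeff_X_mul]
    rfl
  have e4 : ∀ p : K[X], p.natDegree ≤ d → (X * derivative p).natDegree ≤ d := by
    intro p hp
    by_cases h1 : derivative p = 0
    · rw [h1, mul_zero, natDegree_zero]
      omega
    · have h2 : 0 < p.natDegree := by
        by_contra hcon
        apply h1
        exact derivative_of_natDegree_zero (by omega)
      have h3 := natDegree_derivative_lt (p := p) (by omega)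
      refine natDegree_mul_le.trans ?_
      rw [natDegree_X]
      omega
  have h1 := congrArg (fun p => coeff p (d + d)) h0
  simp only [WW, coeff_sub, coeff_add, coeff_zero] at h1
  have h2 : (2 * (D * (X * derivative (derivative (X * D))))).coeff (d + d) =
      2 * (D * (X * derivative (derivative (X * D)))).coeff (d + d) := by
    rw [← C_ofNat, coeff_C_mul]
  rw [h2, coeff_mul_add_eq_of_natDegree_le le_rfl e2,
    coeff_mul_add_eq_of_natDegree_le le_rfl (e4 _ e2),
    coeff_mul_add_eq_of_natDegree_le e2 (e4 _ le_rfl), coeff_X_der, coeff_X_der, e3] at h1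
  have h3 : D.leadingCoeff ^ 2 * ((d : K) + 1) ^ 2 = 0 := by
    have h4 : D.coeff d = D.leadingCoeff := rfl
    rw [h4] at h1
    linear_combination h1
  have h5 : D.leadingCoeff ≠ 0 := leadingCoeff_ne_zero.2 hD
  have h6 : ((d : K) + 1) ≠ 0 := by exact_mod_cast Nat.succ_ne_zero d
  exact mul_ne_zero (pow_ne_zero 2 h5) (pow_ne_zero 2 h6) h3

/-- Two polynomials of different degrees. -/
theorem SS_ne (D : K[X]) (hD : D ≠ 0) {F : Type} [Field F] [Algebra K F] (a b : F) (ha : a ≠ 0)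
    (hb : b ≠ 0) : C a * D.map (algebraMap K F) -
      C b * (X * derivative (X * D) ^ 2).map (algebraMap K F) ≠ 0 := by
  intro h0
  have hQ : derivative (X * D) ≠ 0 := by
    intro h1
    have h2 := derivative_eq_zero.1 h1
    rw [natDegree_mul X_ne_zero hD, natDegree_X] at h2
    omega
  have h1 := congrArg natDegree (sub_eq_zero.1 h0)
  rw [natDegree_C_mul ha, natDegree_C_mul hb, natDegree_map, natDegree_map,
    natDegree_mul X_ne_zero (pow_ne_zero 2 hQ), natDegree_pow, natDegree_derivative,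
    natDegree_mul X_ne_zero hD, natDegree_X] at h1
  omega

end poly

section forms

variable {K ι : Type} [Field K] [CharZero K] [Fintype ι] {D : K[X]} {κ u : ι → K[X]}
variable {E : Type} [Field E] [Algebra K E]

/-- The test vector. -/
noncomputable def e0 (ι : Type) (D : K[X]) (w y : E) : ι ⊕ Bool → E :=
  Sum.elim (fun _ => 0) (fun b => if b then y else
    -(algebraMap K E (3 / 2) * w * aeval (w ^ 2) (derivative (X * D))))

theorem aL_e0 (w y : E) : aL D κ w y (e0 ι D w y) = 0 := by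
  unfold e0
  rw [aL_eq, lin_zero, eval_map_algebraMap]
  simp only [Sum.elim_inr, if_true, Bool.false_eq_true, if_false, eval_zero]
  ring

theorem uL_e0 (w y : E) : uL u w (e0 ι D w y) = 2 * y * w := by
  unfold e0
  rw [uL_apply, lin_zero]
  simp only [Sum.elim_inr, if_true, eval_zero]
  ring

theorem dL_e0 (w y : E) (hy : y ^ 2 = aeval (w ^ 2) D) :
    dL D κ w y (e0 ι D w y) = algebraMap K E (3 / 2) * aeval (w ^ 2) (WW D) := by
  have h1 : (derivative (PC D κ (e0 ι D w y))).eval w = algebraMap K E (3 / 2) * y *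
      (aeval (w ^ 2) (derivative (X * D)) + 2 * w ^ 2 *
        aeval (w ^ 2) (derivative (derivative (X * D)))) := by
    unfold PC e0
    rw [lin_zero, map_zero, zero_add, derivative_mul, derivative_mul, derivative_C,
      derivative_X, exp_der]
    simp only [Sum.elim_inr, if_true, eval_mul, eval_add, eval_C, eval_X, expand_eval, eval_zero,
      derivative_map, eval_map_algebraMap, eval_ofNat, eval_one]
    ring
  have h2 : (2 : E) = aeval (w ^ 2) (2 : K[X]) := (map_ofNat _ 2).symm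
  rw [dL_apply, h1]
  unfold e0 WW
  simp only [Sum.elim_inr, Bool.false_eq_true, if_false, map_sub, map_add, map_mul, aeval_X]
  rw [← hy, ← h2]
  ring

end forms

section tb

variable {K ι : Type} [Field K] [CharZero K] [Fintype ι] {D : K[X]} {κ g u : ι → K[X]} {k : ℕ}
variable {k₀ F : Type} [Field k₀] [Field F] [Algebra K k₀] [Algebra K F] [Algebra k₀ F]
  [IsScalarTower K k₀ F] {b c : ι ⊕ Bool → F} {j₀ : ι} {w₁ y₁ : F}
  (t : TD D κ k₀ b c j₀ w₁ y₁) (h : DOK D k κ g u)

include t h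

theorem TD.mem_y (L : IntermediateField k₀ F) (hL : ∀ x, IsAlgebraic L x → x ∈ L)
    (hw : w₁ ∈ L) : y₁ ∈ L := by
  apply sq_mem L hL
  rw [t.hy]
  exact aeval_mem' L (pow_mem hw 2) D

/-- Evaluation at `w₁` over the subfield. -/
theorem TD.ev' (L : IntermediateField k₀ F) (hw : w₁ ∈ L) {p : K[X]} (hp : p ≠ 0) :
    aeval ((⟨w₁, hw⟩ : L) ^ 2) p ≠ 0 := by
  intro h0
  have h2 := Polynomial.aeval_algHom_apply (L.val.restrictScalars K) ((⟨w₁, hw⟩ : L) ^ 2) p
  rw [h0, map_zero] at h2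
  exact t.ev hp h2

/-- The subspace of the zeros of `aL` at the point. -/
theorem TD.space (L : IntermediateField k₀ F) (hw : w₁ ∈ L) (hy : y₁ ∈ L) :
    Module.finrank L (⨅ _ : Bool, LinearMap.ker (aL D κ (⟨w₁, hw⟩ : L) ⟨y₁, hy⟩) :
      Submodule L (ι ⊕ Bool → L)) = Fintype.card ι + 1 := by
  classical
  have h1 := finrank_one (fun _ : Bool => aL D κ (⟨w₁, hw⟩ : L) ⟨y₁, hy⟩) (fun _ => rfl)
    (Sum.elim (Pi.single j₀ 1) (fun _ => 0)) (by
      rw [aL_eq, lin_single]
      simp only [Sum.elim_inr, mul_zero, zero_mul, add_zero, C_1, one_mul, eval_map_algebraMap]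
      exact t.ev' h L hw (h.hli.ne_zero j₀))
  rw [Module.finrank_fintype_fun_eq_card, Fintype.card_sum, Fintype.card_bool] at h1
  omega

theorem TD.memU (L : IntermediateField k₀ F) (hw : w₁ ∈ L) (hy : y₁ ∈ L) :
    c ∈ Submodule.span F ((fun (c : ι ⊕ Bool → L) (i : ι ⊕ Bool) => algebraMap L F (c i)) ''
      ((⨅ _ : Bool, LinearMap.ker (aL D κ (⟨w₁, hw⟩ : L) ⟨y₁, hy⟩) :
        Submodule L (ι ⊕ Bool → L)) : Set (ι ⊕ Bool → L))) :=
  mem_span_ker (F := L) (N := F) (I := ι ⊕ Bool) (J := Bool)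
    (fun _ => aL D κ (⟨w₁, hw⟩ : L) ⟨y₁, hy⟩) (fun _ => aL D κ w₁ y₁)
    (fun _ c => (aL_map D κ (L.val.restrictScalars K) ⟨w₁, hw⟩ ⟨y₁, hy⟩ c).symm) c
    (fun _ => t.ha)

theorem TD.lin₁ (hgen : St_gen) (hw : w₁ ∈ cl k₀ (Set.range fun _ : Unit => w₁))
    (hy : y₁ ∈ cl k₀ (Set.range fun _ : Unit => w₁))
    (L : (ι ⊕ Bool → cl k₀ (Set.range fun _ : Unit => w₁)) →ₗ[cl k₀
      (Set.range fun _ : Unit => w₁)] cl k₀ (Set.range fun _ : Unit => w₁))
    (LN : (ι ⊕ Bool → F) →ₗ[F] F)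
    (hL : ∀ a : ι ⊕ Bool → cl k₀ (Set.range fun _ : Unit => w₁),
      LN (fun i => algebraMap _ F (a i)) = algebraMap _ F (L a)) (h0 : LN c = 0)
    (a : ι ⊕ Bool → cl k₀ (Set.range fun _ : Unit => w₁))
    (ha : aL D κ (⟨w₁, hw⟩ : cl k₀ (Set.range fun _ : Unit => w₁)) ⟨y₁, hy⟩ a = 0) : L a = 0 := by
  refine lin_all hgen c (t.alg _ hw) _ (t.memU h _ hw hy) ?_ L LN hL h0 a ?_
  · rw [t.space h _ hw hy]
    refine t.trd _ _ ?_
    simp
  · rw [Submodule.mem_iInf]
    intro _
    exact ha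

theorem TD.beta_ne (hgen : St_gen) : c (Sum.inr false) ≠ 0 := by
  intro h0
  have hw : w₁ ∈ cl k₀ (Set.range fun _ : Unit => w₁) := sub_cl _ ⟨(), rfl⟩
  have hy := t.mem_y h _ (fun x hx => cl_closed hx) hw
  have h1 := t.lin₁ h hgen hw hy (LinearMap.proj (Sum.inr false)) (LinearMap.proj (Sum.inr false))
    (fun a => rfl) h0 (e0 ι D _ _) (aL_e0 _ _)
  change -(algebraMap K _ (3 / 2) * _ * aeval (_ ^ 2) (derivative (X * D))) = _ at h1
  have h2 : (⟨w₁, hw⟩ : cl k₀ (Set.range fun _ : Unit => w₁)) ≠ 0 := fun h3 =>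
    t.w_ne (congrArg Subtype.val h3)
  have h3 : algebraMap K (cl k₀ (Set.range fun _ : Unit => w₁)) (3 / 2) ≠ 0 := by
    rw [Ne, FaithfulSMul.algebraMap_eq_zero_iff]
    norm_num
  exact neg_ne_zero.2 (mul_ne_zero (mul_ne_zero h3 h2) (t.ev' h _ hw h.der_ne)) h1

theorem TD.uL_ne (hgen : St_gen) : uL u w₁ c ≠ 0 := by
  intro h0
  have hcF : CharZero F := charZero_of_injective_algebraMap (algebraMap K F).injective
  have hw : w₁ ∈ cl k₀ (Set.range fun _ : Unit => w₁) := sub_cl _ ⟨(), rfl⟩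
  have hy := t.mem_y h _ (fun x hx => cl_closed hx) hw
  have h1 := t.lin₁ h hgen hw hy (uL u ⟨w₁, hw⟩) (uL u w₁)
    (fun c => (uL_map u ((cl k₀ (Set.range fun _ : Unit => w₁)).val.restrictScalars K)
      ⟨w₁, hw⟩ c).symm) h0 (e0 ι D _ _) (aL_e0 _ _)
  rw [uL_e0] at h1
  have h2 := congrArg Subtype.val h1
  change (2 : F) * y₁ * w₁ = 0 at h2
  exact mul_ne_zero (mul_ne_zero (by norm_num) (t.y_ne h)) t.w_ne h2

theorem TD.dL_ne (hgen : St_gen) : dL D κ w₁ y₁ c ≠ 0 := by
  intro h0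
  have hw : w₁ ∈ cl k₀ (Set.range fun _ : Unit => w₁) := sub_cl _ ⟨(), rfl⟩
  have hy := t.mem_y h _ (fun x hx => cl_closed hx) hw
  have h1 := t.lin₁ h hgen hw hy (dL D κ ⟨w₁, hw⟩ ⟨y₁, hy⟩) (dL D κ w₁ y₁)
    (fun c => (dL_map D κ ((cl k₀ (Set.range fun _ : Unit => w₁)).val.restrictScalars K)
      ⟨w₁, hw⟩ ⟨y₁, hy⟩ c).symm) h0 (e0 ι D _ _) (aL_e0 _ _)
  have hyy : (⟨y₁, hy⟩ : cl k₀ (Set.range fun _ : Unit => w₁)) ^ 2 =
      aeval ((⟨w₁, hw⟩ : cl k₀ (Set.range fun _ : Unit => w₁)) ^ 2) D := by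
    apply Subtype.ext
    have h2 := Polynomial.aeval_algHom_apply
      ((cl k₀ (Set.range fun _ : Unit => w₁)).val.restrictScalars K)
      ((⟨w₁, hw⟩ : cl k₀ (Set.range fun _ : Unit => w₁)) ^ 2) D
    exact t.hy.trans h2
  rw [dL_e0 _ _ hyy] at h1
  have h3 : algebraMap K (cl k₀ (Set.range fun _ : Unit => w₁)) (3 / 2) ≠ 0 := by
    rw [Ne, FaithfulSMul.algebraMap_eq_zero_iff]
    norm_num
  exact mul_ne_zero h3 (t.ev' h _ hw (WW_ne D h.hD)) h1

/-- The norm of the square root of the derivative. -/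
theorem TD.R_facts (hgen : St_gen) :
    (PC D κ c ^ 2 - C (c (Sum.inr false) ^ 2) * expand F 2 (D.map (algebraMap K F))).eval w₁ = 0 ∧
    (derivative (PC D κ c ^ 2 - C (c (Sum.inr false) ^ 2) *
      expand F 2 (D.map (algebraMap K F)))).eval w₁ ≠ 0 := by
  have hcF : CharZero F := charZero_of_injective_algebraMap (algebraMap K F).injective
  have h1 : (PC D κ c).eval w₁ = -(c (Sum.inr false) * y₁) := by
    have h2 := t.ha
    rw [aL_apply] at h2
    linear_combination h2
  constructor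
  · rw [eval_sub, eval_mul, eval_pow, eval_C, expD_eval D w₁ y₁ t.hy, h1]
    ring
  · have h3 : (derivative (PC D κ c ^ 2 - C (c (Sum.inr false) ^ 2) *
      expand F 2 (D.map (algebraMap K F)))).eval w₁ =
        -2 * c (Sum.inr false) * dL D κ w₁ y₁ c := by
      rw [dL_apply, derivative_sub, derivative_pow, derivative_mul, derivative_C, exp_der]
      simp only [eval_sub, eval_mul, eval_add, eval_pow, eval_C, eval_X, eval_zero, expand_eval,
        derivative_map, eval_map_algebraMap, eval_ofNat, Nat.cast_ofNat, Nat.add_one_sub_one,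
        pow_one, h1]
      ring
    rw [h3]
    exact mul_ne_zero (mul_ne_zero (by norm_num) (t.beta_ne h hgen)) (t.dL_ne h hgen)

theorem TD.w_mem (hgen : St_gen) : w₁ ∈ cl k₀ (Set.range c) := by
  apply cl_closed
  let L := cl k₀ (Set.range c)
  have hc : ∀ i, c i ∈ L := fun i => sub_cl _ ⟨i, rfl⟩
  let cL : ι ⊕ Bool → L := fun i => ⟨c i, hc i⟩
  let φ : L →ₐ[K] F := L.val.restrictScalars K
  let RL : L[X] := PC D κ cL ^ 2 - C (cL (Sum.inr false) ^ 2) *
    expand L 2 (D.map (algebraMap K L))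
  have hmap : RL.map (φ : L →+* F) = PC D κ c ^ 2 - C (c (Sum.inr false) ^ 2) *
      expand F 2 (D.map (algebraMap K F)) := by
    have h1 : (φ : L →+* F).comp (algebraMap K L) = algebraMap K F := φ.comp_algebraMap
    change (PC D κ cL ^ 2 - C (cL (Sum.inr false) ^ 2) *
      expand L 2 (D.map (algebraMap K L))).map (φ : L →+* F) = _
    rw [Polynomial.map_sub, Polynomial.map_pow, Polynomial.map_mul, PC_map, map_C,
      Polynomial.map_expand, Polynomial.map_map, h1]
    rfl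
  obtain ⟨h1, h2⟩ := t.R_facts h hgen
  refine ⟨RL, fun h0 => ?_, ?_⟩
  · rw [h0, Polynomial.map_zero] at hmap
    rw [← hmap, derivative_zero, eval_zero] at h2
    exact h2 rfl
  · rw [← hmap, eval_map] at h1
    exact h1

theorem TD.c_basis (hgen : St_gen) : IsTranscendenceBasis k₀ c := by
  refine basis_of_cl c (fun x => ?_) ?_
  · exact t.all _ (fun x hx => cl_closed hx) (t.w_mem h hgen) (fun i => sub_cl _ ⟨i, rfl⟩) x
  · rw [← t.hb.cardinalMk_eq_trdeg, ← Nat.cast_card]

/-- The multiplicity of the root `w₁`. -/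
theorem TD.mult [IsAlgClosed F] (hgen : St_gen)
    (hne : PP D κ g u c (FF D κ g u c w₁ y₁) ≠ 0) :
    (PP D κ g u c (FF D κ g u c w₁ y₁)).rootMultiplicity w₁ = 3 ∧
      (PA D κ g c (FF D κ g u c w₁ y₁)).eval w₁ ≠ 0 := by
  have hcF : CharZero F := charZero_of_injective_algebraMap (algebraMap K F).injective
  have p : Pt D κ g u c (FF D κ g u c w₁ y₁) w₁ y₁ := ⟨t.hy, rfl⟩
  have hy := t.y_ne h
  have hβ := t.beta_ne h hgen
  have hB : (PB D u c).eval w₁ ≠ 0 := by
    rw [PB_eval, eval_map_algebraMap]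
    exact mul_ne_zero (mul_ne_zero (t.ev (mul_ne_zero X_ne_zero h.hD)) hβ) (t.uL_ne h hgen)
  have hA := p.eqn
  have h1 : (PC D κ c).eval w₁ = -(c (Sum.inr false) * y₁) := by
    have h2 := t.ha
    rw [aL_apply] at h2
    linear_combination h2
  obtain ⟨hR1, hR2⟩ := t.R_facts h hgen
  refine ⟨?_, by rw [hA]; exact neg_ne_zero.2 (mul_ne_zero hy hB)⟩
  refine mult_three _ _
    ((PC D κ c ^ 2 + C (c (Sum.inr false) ^ 2) *
      expand F 2 (D.map (algebraMap K F))) * PA D κ g c (FF D κ g u c w₁ y₁) +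
      2 * C (c (Sum.inr false)) * PC D κ c * expand F 2 (D.map (algebraMap K F)) * PB D u c)
    (PC D κ c ^ 2 + C (c (Sum.inr false) ^ 2) * expand F 2 (D.map (algebraMap K F)))
    (PC D κ c ^ 2 - C (c (Sum.inr false) ^ 2) * expand F 2 (D.map (algebraMap K F)))
    (expand F 2 (D.map (algebraMap K F)) * PB D u c ^ 2) w₁ hne t.w_ne (dPP h c _) ?_ p.root ?_
    hR1 hR2 ?_
  · unfold PP
    rw [C_pow]
    ring
  · simp only [eval_mul, eval_add, eval_pow, eval_C, eval_ofNat, expD_eval D w₁ y₁ t.hy]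
    rw [h1, hA]
    have h3 : ((-(c (Sum.inr false) * y₁)) ^ 2 + c (Sum.inr false) ^ 2 * y₁ ^ 2) *
        -(y₁ * (PB D u c).eval w₁) + 2 * c (Sum.inr false) * -(c (Sum.inr false) * y₁) * y₁ ^ 2 *
          (PB D u c).eval w₁ = -4 * c (Sum.inr false) ^ 2 * y₁ ^ 3 * (PB D u c).eval w₁ := by
      ring
    rw [h3]
    exact mul_ne_zero (mul_ne_zero (mul_ne_zero (by norm_num) (pow_ne_zero 2 hβ))
      (pow_ne_zero 3 hy)) hB
  · rw [eval_mul, eval_pow, expD_eval D w₁ y₁ t.hy]
    exact mul_ne_zero (pow_ne_zero 2 hy) (pow_ne_zero 2 hB)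

end tb

end Pool.Agent.Y793
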