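import Mathlib
import Pool.Agent.Y793.Tb

set_option autoImplicit false
set_option linter.unusedSectionVars false
set_option linter.unusedSimpArgs false

namespace Pool.Agent.Y793

open Polynomial

theorem finrank_two' {F I : Type} [Field F] [Fintype I] (A B : (I → F) →ₗ[F] F) (e e' : I → F)
    (hdet : A e * B e' - A e' * B e ≠ 0) :
    ∃ M : Bool → ((I → F) →ₗ[F] F), M true = A ∧ M false = B ∧
      Module.finrank F (⨅ b, LinearMap.ker (M b) : Submodule F (I → F)) + 2 = Fintype.card I := by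
  refine ⟨fun b => cond b A B, rfl, rfl, ?_⟩
  rw [finrank_two (fun b => cond b A B) e e' hdet, Module.finrank_fintype_fun_eq_card]

section tc

variable {K ι : Type} [Field K] [CharZero K] [Fintype ι] {D : K[X]} {κ g u : ι → K[X]} {k : ℕ}
variable {k₀ F : Type} [Field k₀] [Field F] [Algebra K k₀] [Algebra K F] [Algebra k₀ F]
  [IsScalarTower K k₀ F] {b c : ι ⊕ Bool → F} {j₀ : ι} {w₁ y₁ : F}
  (t : TD D κ k₀ b c j₀ w₁ y₁) (h : DOK D k κ g u)

include t h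

/-- Case A: the other root is algebraic over `k₀(w₁)`. -/
theorem TD.caseA (hgen : St_gen) (hiso : St_iso) {w₀ y₀ : F}
    (p : Pt D κ g u c (FF D κ g u c w₁ y₁) w₀ y₀)
    (hw₀ : w₀ ∈ cl k₀ (Set.range fun _ : Unit => w₁)) : w₀ = w₁ := by
  classical
  by_contra hne
  have hcF : CharZero F := charZero_of_injective_algebraMap (algebraMap K F).injective
  set L := cl k₀ (Set.range fun _ : Unit => w₁) with hL
  have hcL : CharZero L := charZero_of_injective_algebraMap (algebraMap K L).injective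
  have hcl : ∀ x, IsAlgebraic L x → x ∈ L := fun x hx => cl_closed hx
  have hw : w₁ ∈ L := sub_cl _ ⟨(), rfl⟩
  have hy := t.mem_y h L hcl hw
  have hy₀ := p.y_mem L hcl hw₀
  have htr : (Module.finrank L (⨅ _ : Bool, LinearMap.ker (aL D κ (⟨w₁, hw⟩ : L) ⟨y₁, hy⟩) :
      Submodule L (ι ⊕ Bool → L)) : Cardinal) ≤ Algebra.trdeg L F := by
    rw [t.space h L hw hy]
    refine t.trd _ _ ?_
    simp
  have hrel : FF D κ g u c (algebraMap L F ⟨w₁, hw⟩) (algebraMap L F ⟨y₁, hy⟩) =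
      FF D κ g u c (algebraMap L F ⟨w₀, hw₀⟩) (algebraMap L F ⟨y₀, hy₀⟩) := p.hT.symm
  have hsq : (⟨w₁, hw⟩ : L) ^ 2 = ⟨w₀, hw₀⟩ ^ 2 := by
    by_contra hcon
    refine rel_contra h hgen hiso c (t.alg L hw) _ (t.memU h L hw hy) htr ?_ _ _ _ _ hcon hrel
    rw [t.space h L hw hy]
    omega
  have hall := rel_all (D := D) (κ := κ) (g := g) (u := u) hgen c (t.alg L hw) _
    (t.memU h L hw hy) htr _ _ _ _ hrel
  have hw' : (⟨w₀, hw₀⟩ : L) = -⟨w₁, hw⟩ := by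
    rcases sq_eq_sq_iff_eq_or_eq_neg.1 hsq.symm with h1 | h1
    · exact absurd (congrArg Subtype.val h1) hne
    · exact h1
  have hysq : (⟨y₀, hy₀⟩ : L) ^ 2 = ⟨y₁, hy⟩ ^ 2 := by
    apply Subtype.ext
    change y₀ ^ 2 = y₁ ^ 2
    have h2 : w₁ ^ 2 = w₀ ^ 2 := congrArg Subtype.val hsq
    rw [p.hy, t.hy, h2]
  have hQ : ((X * D).map (algebraMap K L)).eval ((⟨w₁, hw⟩ : L) ^ 2) ≠ 0 := by
    rw [eval_map_algebraMap]
    exact t.ev' h L hw (mul_ne_zero X_ne_zero h.hD)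
  have hwne : (⟨w₁, hw⟩ : L) ≠ 0 := fun h3 => t.w_ne (congrArg Subtype.val h3)
  have hyne : (⟨y₁, hy⟩ : L) ≠ 0 := fun h3 => t.y_ne h (congrArg Subtype.val h3)
  have h32 : algebraMap K L (3 / 2) ≠ 0 := by
    rw [Ne, FaithfulSMul.algebraMap_eq_zero_iff]
    norm_num
  have hdQ : aeval ((⟨w₁, hw⟩ : L) ^ 2) (derivative (X * D)) ≠ 0 := t.ev' h L hw h.der_ne
  have hkey : ∀ a : ι ⊕ Bool → L, aL D κ (⟨w₁, hw⟩ : L) ⟨y₁, hy⟩ a = 0 →
      a (Sum.inr true) * (⟨w₁, hw⟩ - ⟨w₀, hw₀⟩) * (lin g a).eval ((⟨w₁, hw⟩ : L) ^ 2) +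
      a (Sum.inr false) * (⟨y₁, hy⟩ - ⟨y₀, hy₀⟩) * (lin u a).eval ((⟨w₁, hw⟩ : L) ^ 2) +
      2 * a (Sum.inr true) * a (Sum.inr false) * (⟨w₁, hw⟩ * ⟨y₁, hy⟩ - ⟨w₀, hw₀⟩ * ⟨y₀, hy₀⟩) =
      0 := by
    intro a ha
    have h1 := hall a (by
      rw [Submodule.mem_iInf]
      intro _
      exact ha)
    rw [← sub_eq_zero, FF_sub _ _ _ _ _ hsq] at h1
    exact (mul_eq_zero.1 h1).resolve_left hQ
  rcases sq_eq_sq_iff_eq_or_eq_neg.1 hysq with h1 | h1
  · have h2 := hkey (e0 ι D _ _) (aL_e0 _ _)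
    rw [hw', h1] at h2
    unfold e0 at h2
    simp only [Sum.elim_inr, if_true, Bool.false_eq_true, if_false, lin_zero, eval_zero, mul_zero,
      zero_add, sub_self, zero_mul, sub_neg_eq_add] at h2
    have h3 : -4 * algebraMap K L (3 / 2) * (⟨y₁, hy⟩ : L) ^ 2 * (⟨w₁, hw⟩ : L) ^ 2 *
        aeval ((⟨w₁, hw⟩ : L) ^ 2) (derivative (X * D)) = 0 := by
      linear_combination h2
    exact mul_ne_zero (mul_ne_zero (mul_ne_zero (mul_ne_zero (by norm_num) h32)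
      (pow_ne_zero 2 hyne)) (pow_ne_zero 2 hwne)) hdQ h3
  · set A : L := -(aeval ((⟨w₁, hw⟩ : L) ^ 2) (κ j₀)) / (algebraMap K L (3 / 2) * ⟨w₁, hw⟩ *
      aeval ((⟨w₁, hw⟩ : L) ^ 2) (derivative (X * D))) with hA
    have hd : algebraMap K L (3 / 2) * (⟨w₁, hw⟩ : L) *
      aeval ((⟨w₁, hw⟩ : L) ^ 2) (derivative (X * D)) ≠ 0 := mul_ne_zero (mul_ne_zero h32 hwne) hdQ
    have hAne : A ≠ 0 := div_ne_zero (neg_ne_zero.2 (t.ev' h L hw (h.hli.ne_zero j₀))) hd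
    have h2 := hkey (Sum.elim (Pi.single j₀ 1) (fun b => if b then A else 0)) (by
      rw [aL_eq, lin_single]
      simp only [Sum.elim_inr, if_true, Bool.false_eq_true, if_false, zero_mul, add_zero, C_1,
        one_mul, eval_map_algebraMap]
      rw [hA]
      field_simp
      ring)
    rw [hw', lin_single] at h2
    simp only [Sum.elim_inr, if_true, Bool.false_eq_true, if_false, mul_zero, zero_mul, add_zero,
      C_1, one_mul, eval_map_algebraMap, sub_neg_eq_add] at h2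
    have h3 : 2 * A * (⟨w₁, hw⟩ : L) * aeval ((⟨w₁, hw⟩ : L) ^ 2) (g j₀) = 0 := by
      linear_combination h2
    exact mul_ne_zero (mul_ne_zero (mul_ne_zero (by norm_num) hAne) hwne)
      (t.ev' h L hw (h.g_ne j₀)) h3

/-- Case B: two linear conditions. -/
theorem TD.caseB (hgen : St_gen) (hiso : St_iso) {w₀ y₀ : F}
    (p : Pt D κ g u c (FF D κ g u c w₁ y₁) w₀ y₀)
    (hw₀ : w₀ ^ 2 ≠ w₁ ^ 2) (L : IntermediateField k₀ F)
    (hcl : ∀ x, IsAlgebraic L x → x ∈ L)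
    (htr : (Fintype.card ι : Cardinal) ≤ Algebra.trdeg L F)
    (hw0 : w₀ ∈ L) (hw : w₁ ∈ L) (hy : y₁ ∈ L)
    (L₂ : (ι ⊕ Bool → L) →ₗ[L] L) (LN : (ι ⊕ Bool → F) →ₗ[F] F)
    (hL : ∀ a : ι ⊕ Bool → L, LN (fun i => algebraMap L F (a i)) = algebraMap L F (L₂ a))
    (h0 : LN c = 0) (e e' : ι ⊕ Bool → L)
    (hdet : aL D κ (⟨w₁, hw⟩ : L) ⟨y₁, hy⟩ e * L₂ e' -
      aL D κ (⟨w₁, hw⟩ : L) ⟨y₁, hy⟩ e' * L₂ e ≠ 0) : False := by
  have hy0 := p.y_mem L hcl hw0
  obtain ⟨M, hM1, hM2, hfr⟩ := finrank_two' (aL D κ (⟨w₁, hw⟩ : L) ⟨y₁, hy⟩) L₂ e e' hdet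
  obtain ⟨MN, hN1, hN2⟩ : ∃ MN : Bool → ((ι ⊕ Bool → F) →ₗ[F] F),
      MN true = aL D κ w₁ y₁ ∧ MN false = LN := ⟨fun b => cond b (aL D κ w₁ y₁) LN, rfl, rfl⟩
  rw [Fintype.card_sum, Fintype.card_bool] at hfr
  have hfr' : Module.finrank L (⨅ b, LinearMap.ker (M b) : Submodule L (ι ⊕ Bool → L)) =
      Fintype.card ι := by omega
  have hMN : ∀ (b : Bool) (a : ι ⊕ Bool → L),
      MN b (fun i => algebraMap L F (a i)) = algebraMap L F (M b a) := by
    intro b a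
    cases b
    · rw [hM2, hN2]
      exact hL a
    · rw [hM1, hN1]
      exact (aL_map D κ (L.val.restrictScalars K) (⟨w₁, hw⟩ : L) (⟨y₁, hy⟩ : L) a).symm
  have hN0 : ∀ b, MN b c = 0 := by
    intro b
    cases b
    · rw [hN2]
      exact h0
    · rw [hN1]
      exact t.ha
  have hmem := mem_span_ker (F := L) (N := F) (I := ι ⊕ Bool) (J := Bool) M MN hMN c hN0
  have hne : (⟨w₁, hw⟩ : L) ^ 2 ≠ ⟨w₀, hw0⟩ ^ 2 := by
    intro h1
    exact hw₀ (congrArg Subtype.val h1).symm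
  exact rel_contra h hgen hiso c (t.alg L hw) _ hmem (by rw [hfr']; exact htr) hfr'.ge ⟨w₁, hw⟩
    ⟨y₁, hy⟩ ⟨w₀, hw0⟩ ⟨y₀, hy0⟩ hne p.hT.symm

/-- The other roots are simple. -/
theorem TD.other (hgen : St_gen) (hiso : St_iso) [IsAlgClosed F] {w₀ : F}
    (hr : (PP D κ g u c (FF D κ g u c w₁ y₁)).eval w₀ = 0) (hne : w₀ ≠ w₁) :
    (derivative (PP D κ g u c (FF D κ g u c w₁ y₁))).eval w₀ ≠ 0 := by
  classical
  have hcF : CharZero F := charZero_of_injective_algebraMap (algebraMap K F).injective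
  obtain ⟨y₀, p⟩ := exists_pt hr
  have hw₀ : w₀ ∉ cl k₀ (Set.range fun _ : Unit => w₁) := fun h1 =>
    hne (t.caseA h hgen hiso p h1)
  have hw0ne : w₀ ≠ 0 := by
    intro h1
    apply hw₀
    rw [h1]
    exact IntermediateField.zero_mem _
  have hev : ∀ q : K[X], q ≠ 0 → aeval (w₀ ^ 2) q ≠ 0 := fun q hq => ev_ne hw₀ hq
  have hy0ne : y₀ ≠ 0 := by
    intro h1
    have h2 := p.hy
    rw [h1] at h2
    exact hev D h.hD (by rw [← h2]; ring)
  obtain ⟨L, hcl, hw0, hw, htr⟩ : ∃ L : IntermediateField k₀ F,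
      (∀ x, IsAlgebraic L x → x ∈ L) ∧ w₀ ∈ L ∧ w₁ ∈ L ∧
      (Fintype.card ι : Cardinal) ≤ Algebra.trdeg L F :=
    ⟨cl k₀ (Set.range ![w₀, w₁]), fun x hx => cl_closed hx, sub_cl _ ⟨0, rfl⟩,
      sub_cl _ ⟨1, rfl⟩, t.trd _ _ (by simp)⟩
  have hcL : CharZero L := charZero_of_injective_algebraMap (algebraMap K L).injective
  have hsq : w₀ ^ 2 ≠ w₁ ^ 2 := by
    intro h2
    apply hw₀
    refine sq_mem (cl k₀ (Set.range fun _ : Unit => w₁)) (fun x hx => cl_closed hx) ?_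
    rw [h2]
    exact pow_mem (sub_cl (Set.range fun _ : Unit => w₁) ⟨(), rfl⟩) 2
  have hy := t.mem_y h L hcl hw
  have hy0 := p.y_mem L hcl hw0
  let eα : ι ⊕ Bool → L := Sum.elim (fun _ => 0) (fun b => if b then 1 else 0)
  let eβ : ι ⊕ Bool → L := Sum.elim (fun _ => 0) (fun b => if b then 0 else 1)
  have haα : ∀ w y : L, aL D κ w y eα = algebraMap K L (3 / 2) * w *
      aeval (w ^ 2) (derivative (X * D)) := by
    intro w y
    rw [aL_eq, lin_zero]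
    simp only [eα, Sum.elim_inr, if_true, Bool.false_eq_true, if_false, eval_zero, zero_mul,
      mul_one, add_zero, zero_add, eval_map_algebraMap]
  have haβ : ∀ w y : L, aL D κ w y eβ = y := by
    intro w y
    rw [aL_eq, lin_zero]
    simp only [eβ, Sum.elim_inr, if_true, Bool.false_eq_true, if_false, eval_zero, zero_mul,
      mul_zero, one_mul, add_zero, zero_add]
  have hyne : (⟨y₁, hy⟩ : L) ≠ 0 := fun h3 => t.y_ne h (congrArg Subtype.val h3)
  have hw0ne' : (⟨w₀, hw0⟩ : L) ≠ 0 := fun h3 => hw0ne (congrArg Subtype.val h3)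
  have h32 : algebraMap K L (3 / 2) ≠ 0 := by
    rw [Ne, FaithfulSMul.algebraMap_eq_zero_iff]
    norm_num
  -- first condition
  have hu0 : uL u w₀ c ≠ 0 := by
    intro h1
    refine t.caseB h hgen hiso p hsq L hcl htr hw0 hw hy (uL u ⟨w₀, hw0⟩) (uL u w₀)
      (fun c => (uL_map u (L.val.restrictScalars K) ⟨w₀, hw0⟩ c).symm) h1 eα eβ ?_
    rw [haα, haβ]
    have e1 : uL u (⟨w₀, hw0⟩ : L) eα = 2 * ⟨w₀, hw0⟩ := by
      rw [uL_apply, lin_zero]
      simp [eα]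
    have e2 : uL u (⟨w₀, hw0⟩ : L) eβ = 0 := by
      rw [uL_apply, lin_zero]
      simp [eβ]
    rw [e1, e2, mul_zero, zero_sub]
    exact neg_ne_zero.2 (mul_ne_zero hyne (mul_ne_zero (by norm_num) hw0ne'))
  -- second condition
  have ha0 : aL D κ w₀ y₀ c ≠ 0 := by
    intro h1
    refine t.caseB h hgen hiso p hsq L hcl htr hw0 hw hy (aL D κ ⟨w₀, hw0⟩ ⟨y₀, hy0⟩) (aL D κ w₀ y₀)
      (fun c => (aL_map D κ (L.val.restrictScalars K) ⟨w₀, hw0⟩ ⟨y₀, hy0⟩ c).symm) h1 eα eβ ?_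
    rw [haα, haα, haβ, haβ]
    intro h2
    -- the equation
    have h3 : (⟨w₁, hw⟩ : L) * aeval ((⟨w₁, hw⟩ : L) ^ 2) (derivative (X * D)) * ⟨y₀, hy0⟩ =
        (⟨w₀, hw0⟩ : L) * aeval ((⟨w₀, hw0⟩ : L) ^ 2) (derivative (X * D)) * ⟨y₁, hy⟩ := by
      apply mul_left_cancel₀ h32
      linear_combination h2
    have hvL : ∀ (x : L) (q : K[X]), ((aeval (x ^ 2) q : L) : F) = aeval ((x : F) ^ 2) q := by
      intro x q
      exact (Polynomial.aeval_algHom_apply (L.val.restrictScalars K) (x ^ 2) q).symm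
    have h4 : w₁ * aeval (w₁ ^ 2) (derivative (X * D)) * y₀ =
        w₀ * aeval (w₀ ^ 2) (derivative (X * D)) * y₁ := by
      have h5 := congrArg Subtype.val h3
      change w₁ * ((aeval ((⟨w₁, hw⟩ : L) ^ 2) (derivative (X * D)) : L) : F) * y₀ =
        w₀ * ((aeval ((⟨w₀, hw0⟩ : L) ^ 2) (derivative (X * D)) : L) : F) * y₁ at h5
      rw [hvL, hvL] at h5
      exact h5
    have h5 : w₁ ^ 2 * aeval (w₁ ^ 2) (derivative (X * D)) ^ 2 * aeval (w₀ ^ 2) D =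
        w₀ ^ 2 * aeval (w₀ ^ 2) (derivative (X * D)) ^ 2 * aeval (w₁ ^ 2) D := by
      rw [← p.hy, ← t.hy]
      have h6 := congrArg (fun z => z ^ 2) h4
      simp only [mul_pow] at h6
      exact h6
    apply hw₀
    -- polynomial over the field `cl k₀ {w₁}`
    set L₁ := cl k₀ (Set.range fun _ : Unit => w₁) with hL₁
    have hw1 : w₁ ∈ L₁ := sub_cl _ ⟨(), rfl⟩
    have hvL₁ : ∀ (x : L₁) (q : K[X]), ((aeval (x ^ 2) q : L₁) : F) = aeval ((x : F) ^ 2) q := by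
      intro x q
      exact (Polynomial.aeval_algHom_apply (L₁.val.restrictScalars K) (x ^ 2) q).symm
    refine sq_mem L₁ (fun x hx => cl_closed hx) ?_
    apply cl_closed
    let A : L₁ := (⟨w₁, hw1⟩ : L₁) ^ 2 * aeval ((⟨w₁, hw1⟩ : L₁) ^ 2) (derivative (X * D)) ^ 2
    let B : L₁ := aeval ((⟨w₁, hw1⟩ : L₁) ^ 2) D
    have hw1ne : (⟨w₁, hw1⟩ : L₁) ≠ 0 := fun h3 => t.w_ne (congrArg Subtype.val h3)
    have hAne : A ≠ 0 := mul_ne_zero (pow_ne_zero 2 hw1ne)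
      (pow_ne_zero 2 (t.ev' h L₁ hw1 h.der_ne))
    have hBne : B ≠ 0 := t.ev' h L₁ hw1 h.hD
    refine ⟨_, SS_ne D h.hD A B hAne hBne, ?_⟩
    have hA' : (A : F) = w₁ ^ 2 * aeval (w₁ ^ 2) (derivative (X * D)) ^ 2 := by
      change w₁ ^ 2 * ((aeval ((⟨w₁, hw1⟩ : L₁) ^ 2) (derivative (X * D)) : L₁) : F) ^ 2 = _
      rw [hvL₁]
    have hB' : (B : F) = aeval (w₁ ^ 2) D := hvL₁ _ _
    have hpoly : ∀ A B : L₁, aeval (w₀ ^ 2) (C A * D.map (algebraMap K L₁) -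
        C B * (X * derivative (X * D) ^ 2).map (algebraMap K L₁)) =
        (A : F) * aeval (w₀ ^ 2) D - (B : F) * (w₀ ^ 2 *
          aeval (w₀ ^ 2) (derivative (X * D)) ^ 2) := by
      intro A B
      rw [map_sub, map_mul, map_mul, aeval_C, aeval_C, aeval_map_algebraMap,
        aeval_map_algebraMap, map_mul (aeval (w₀ ^ 2)) X, map_pow (aeval (w₀ ^ 2)), aeval_X]
      rfl
    rw [hpoly, hA', hB', h5]
    ring
  rw [dPP_pt h p, p.eqn, PB_eval, eval_map_algebraMap]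
  refine mul_ne_zero (mul_ne_zero hw0ne (neg_ne_zero.2 (mul_ne_zero hy0ne (mul_ne_zero
    (mul_ne_zero (hev _ (mul_ne_zero X_ne_zero h.hD)) (t.beta_ne h hgen)) hu0))))
    (pow_ne_zero 2 (mul_ne_zero (by norm_num) ha0))

end tc

section td

variable {K ι : Type} [Field K] [CharZero K] [Fintype ι] {D : K[X]} {κ g u : ι → K[X]} {k : ℕ}

theorem exists_trb (k₀ V : Type) [Field k₀] [Finite V] :
    ∃ (F : Type) (_ : Field F) (_ : IsAlgClosed F) (_ : Algebra k₀ F) (b : V → F),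
      IsTranscendenceBasis k₀ b := by
  let E := FractionRing (MvPolynomial V k₀)
  let F := AlgebraicClosure E
  let b : V → F := fun i => algebraMap E F (algebraMap (MvPolynomial V k₀) E (MvPolynomial.X i))
  have hb : AlgebraicIndependent k₀ b := by
    have h1 : AlgebraicIndependent k₀ (MvPolynomial.X : V → MvPolynomial V k₀) :=
      MvPolynomial.algebraicIndependent_X _ _
    have h2 := h1.map' (f := IsScalarTower.toAlgHom k₀ (MvPolynomial V k₀) E)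
      (IsFractionRing.injective (MvPolynomial V k₀) _)
    have h3 := h2.map' (f := IsScalarTower.toAlgHom k₀ E F) (algebraMap E F).injective
    exact h3
  refine ⟨F, inferInstance, inferInstance, inferInstance, b, ?_⟩
  rw [hb.isTranscendenceBasis_iff_isAlgebraic, ← IntermediateField.isAlgebraic_adjoin_iff_top]
  set M := IntermediateField.adjoin k₀ (Set.range b) with hM
  have hpoly : ∀ p : MvPolynomial V k₀, algebraMap E F (algebraMap (MvPolynomial V k₀) E p) ∈ M := by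
    intro p
    induction p using MvPolynomial.induction_on with
    | C a =>
      have h1 : algebraMap E F (algebraMap (MvPolynomial V k₀) E (MvPolynomial.C a)) =
          algebraMap k₀ F a := by
        rw [← MvPolynomial.algebraMap_eq, ← IsScalarTower.algebraMap_apply,
          ← IsScalarTower.algebraMap_apply]
      rw [h1]
      exact M.algebraMap_mem a
    | add p q hp hq =>
      rw [map_add, map_add]
      exact add_mem hp hq
    | mul_X p i hp =>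
      rw [map_mul, map_mul]
      exact mul_mem hp (IntermediateField.subset_adjoin _ _ ⟨i, rfl⟩)
  have hE : ∀ e : E, algebraMap E F e ∈ M := by
    intro e
    obtain ⟨p, q, hq, rfl⟩ := IsFractionRing.div_surjective (A := MvPolynomial V k₀) e
    rw [map_div₀]
    exact div_mem (hpoly p) (hpoly q)
  refine ⟨fun x => ?_⟩
  have hx : IsAlgebraic E x := Algebra.IsAlgebraic.isAlgebraic x
  obtain ⟨p, hp, hp0⟩ := hx
  let ψ : E →+* M := (algebraMap E F).codRestrict M hE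
  refine ⟨p.map ψ, (Polynomial.map_ne_zero_iff ψ.injective).2 hp, ?_⟩
  rw [aeval_def, eval₂_map]
  exact hp0

/-- A specialisation with a triple root. -/
theorem exists_triple (h : DOK D k κ g u) (hk : 2 * D.natDegree + 2 ≤ k) (hgen : St_gen)
    (hiso : St_iso) (k₀ : Type) [Field k₀] [Algebra K k₀] :
    ∃ (F : Type) (_ : Field F) (_ : IsAlgClosed F) (_ : Algebra K F) (_ : Algebra k₀ F)
      (_ : IsScalarTower K k₀ F) (c : ι ⊕ Bool → F), AlgebraicIndependent k₀ c ∧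
      ∃ (T₁ w₁ : F) (m : ℕ) (a : Fin m → F), Function.Injective a ∧ (∀ i, a i ≠ w₁) ∧
        PP D κ g u c T₁ = C (gam κ k c ^ 2) * ((X - C w₁) ^ 3 * ∏ i, (X - C (a i))) ∧
        (PA D κ g c T₁).eval w₁ ≠ 0 := by
  obtain ⟨F, i1, i2, i3, b, hb⟩ := exists_trb k₀ (ι ⊕ Bool)
  let i4 : Algebra K F := ((algebraMap k₀ F).comp (algebraMap K k₀)).toAlgebra
  have i5 : IsScalarTower K k₀ F := .of_algebraMap_eq fun _ => rfl
  obtain ⟨j₀⟩ : Nonempty ι := Fintype.card_pos_iff.1 h.pos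
  obtain ⟨c, y₁, t⟩ := exists_TD h b hb j₀
  have hc := (t.c_basis h hgen).1
  have hgam := gam_ne h c hc
  obtain ⟨hd, hl⟩ := PP_deg h hk c (FF D κ g u c (b (Sum.inl j₀)) y₁) hgam
  have hne : PP D κ g u c (FF D κ g u c (b (Sum.inl j₀)) y₁) ≠ 0 := by
    intro h0
    rw [h0, leadingCoeff_zero] at hl
    exact pow_ne_zero 2 hgam hl.symm
  obtain ⟨hm, hA⟩ := t.mult h hgen hne
  obtain ⟨m, a, ha, haw, hprod⟩ := fac _ hne _ 3 hm (fun x hx hxw => t.other h hgen hiso hx hxw)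
  rw [hl] at hprod
  exact ⟨F, i1, i2, i4, i3, i5, c, hc, _, _, m, a, ha, haw, hprod, hA⟩

end td

end Pool.Agent.Y793
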