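import Mathlib
import Pool.Agent.Y793.Tc
import Pool.Agent.Y793.Stm2
import Pool.Agent.Y793.Stm3
import Pool.Agent.H391R2.T4.Utl

set_option autoImplicit false
set_option linter.unusedSectionVars false
set_option linter.unusedSimpArgs false

namespace Pool.Agent.Y793

open Polynomial Pool.Agent.H391R2 Pool.Agent.H391R2.T4

/-! ### Groups -/

section grp

variable {G H : Type} [Group G] [Group H]

/-- Wreath products of isomorphic groups. -/
def wrCongr (e : G ≃* H) (n : ℕ) : Wr G n ≃* Wr H n where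
  toFun x := ⟨fun i => e (x.left i), x.right⟩
  invFun x := ⟨fun i => e.symm (x.left i), x.right⟩
  left_inv x := by
    apply SemidirectProduct.ext
    · funext i
      exact e.symm_apply_apply _
    · rfl
  right_inv x := by
    apply SemidirectProduct.ext
    · funext i
      exact e.apply_symm_apply _
    · rfl
  map_mul' x y := by
    apply SemidirectProduct.ext
    · funext i
      exact e.map_mul _ _
    · rfl

/-- Alternating wreath products of isomorphic groups. -/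
def aCongr (e : G ≃* H) (n : ℕ) : AWr G n ≃* AWr H n where
  toFun x := ⟨wrCongr e n x.1, x.2⟩
  invFun x := ⟨(wrCongr e n).symm x.1, x.2⟩
  left_inv x := Subtype.ext ((wrCongr e n).symm_apply_apply _)
  right_inv x := Subtype.ext ((wrCongr e n).apply_symm_apply _)
  map_mul' x y := Subtype.ext ((wrCongr e n).map_mul _ _)

theorem perf_congr (e : G ≃* H) (hG : commutator G = ⊤) : commutator H = ⊤ := by
  have h1 : (commutator G).map (e : G →* H) = commutator H := by
    rw [commutator_def, commutator_def, Subgroup.map_commutator,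
      Subgroup.map_top_of_surjective _ e.surjective]
  rw [← h1, hG, Subgroup.map_top_of_surjective _ e.surjective]

end grp

theorem regSol_congr (K A B : Type) [Field K] [Group A] [Group B] (e : A ≃* B)
    (h : RegSol K K A 1) : RegSol K K B 1 := by
  obtain ⟨F, i1, i2, i3, i4, i5, i6, i7, i8, γ, hγ, hr⟩ := h
  exact ⟨F, i1, i2, i3, i4, i5, i6, i7, i8, γ.trans e, hγ, hr⟩

/-! ### The quadratic subextension -/

section quad

variable {E Z : Type} [Field E] [Field Z] [CharZero Z] [Algebra E Z] [FiniteDimensional E Z]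
  [IsGalois E Z]

theorem exists_quad (P : Subgroup (Z ≃ₐ[E] Z)) (hP : P.index = 2) :
    ∃ δ : Z, δ ≠ 0 ∧ (∀ γ ∈ P, γ δ = δ) ∧ ∀ γ, γ ∉ P → γ δ = -δ := by
  have hnorm : P.Normal := Subgroup.normal_of_index_eq_two hP
  obtain ⟨γ₀, hγ₀⟩ : ∃ γ₀, γ₀ ∉ P := by
    by_contra hcon
    push Not at hcon
    have h1 : P = ⊤ := (Subgroup.eq_top_iff' P).2 hcon
    rw [h1, Subgroup.index_top] at hP
    omega
  have h2 : γ₀ * γ₀ ∈ P := by
    rw [Subgroup.mul_mem_iff_of_index_two hP]
  obtain ⟨z, hz, hz2⟩ : ∃ z, (∀ γ ∈ P, γ z = z) ∧ γ₀ z ≠ z := by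
    by_contra hcon
    push Not at hcon
    apply hγ₀
    have h1 : γ₀ ∈ (IntermediateField.fixedField P).fixingSubgroup := by
      rw [IntermediateField.mem_fixingSubgroup_iff]
      intro z hz
      refine hcon z fun γ hγ => ?_
      exact hz ⟨γ, hγ⟩
    rwa [IntermediateField.fixingSubgroup_fixedField] at h1
  have hγz : ∀ γ ∈ P, γ (γ₀ z) = γ₀ z := by
    intro γ hγ
    have h3 : γ₀⁻¹ * γ * γ₀ ∈ P := by
      have h4 := hnorm.conj_mem γ hγ γ₀⁻¹
      rwa [inv_inv] at h4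
    have h4 := hz _ h3
    have h5 : γ (γ₀ z) = γ₀ ((γ₀⁻¹ * γ * γ₀) z) := by
      have h6 : γ₀ * (γ₀⁻¹ * γ * γ₀) = γ * γ₀ := by group
      change _ = (γ₀ * (γ₀⁻¹ * γ * γ₀)) z
      rw [h6]
      rfl
    rw [h5, h4]
  have hγδ : γ₀ (z - γ₀ z) = -(z - γ₀ z) := by
    have h3 : γ₀ (γ₀ z) = z := hz _ h2
    rw [map_sub, h3, neg_sub]
  have hfix : ∀ γ ∈ P, γ (z - γ₀ z) = z - γ₀ z := fun γ hγ => by
    rw [map_sub, hz γ hγ, hγz γ hγ]
  refine ⟨z - γ₀ z, sub_ne_zero.2 (Ne.symm hz2), hfix, fun γ hγ => ?_⟩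
  have h3 : γ * γ₀⁻¹ ∈ P := by
    rw [Subgroup.mul_mem_iff_of_index_two hP, Subgroup.inv_mem_iff]
    exact iff_of_false hγ hγ₀
  have h4 : γ (z - γ₀ z) = (γ * γ₀⁻¹) (γ₀ (z - γ₀ z)) := by
    change _ = ((γ * γ₀⁻¹) * γ₀) (z - γ₀ z)
    rw [inv_mul_cancel_right]
  rw [h4, hγδ, map_neg, hfix _ h3]

end quad

section start

variable {K Z : Type} [Field K] [CharZero K] [Field Z] [Algebra (RatFunc K) Z] [Algebra K Z]
  [IsScalarTower K (RatFunc K) Z] [FiniteDimensional (RatFunc K) Z] [IsGalois (RatFunc K) Z]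

theorem start (P : Subgroup (Z ≃ₐ[RatFunc K] Z)) (hP : P.index = 2) (t₀ : K) :
    ∃ (δ : Z) (D : K[X]), D ≠ 0 ∧ MulAction.stabilizer (Z ≃ₐ[RatFunc K] Z) δ = P ∧
      (∃ γ₀ : Z ≃ₐ[RatFunc K] Z, γ₀ δ = -δ) ∧
      δ ^ 2 = algebraMap (RatFunc K) Z (algebraMap K[X] (RatFunc K) (D.comp (X - C t₀))) := by
  have hcZ : CharZero Z := charZero_of_injective_algebraMap (algebraMap K Z).injective
  obtain ⟨δ₁, h0, h1, h2⟩ := exists_quad P hP
  have hsq : δ₁ ^ 2 ∈ (⊥ : IntermediateField (RatFunc K) Z) := by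
    rw [IsGalois.mem_bot_iff_fixed]
    intro γ
    by_cases hγ : γ ∈ P
    · rw [map_pow, h1 γ hγ]
    · rw [map_pow, h2 γ hγ, neg_sq]
  obtain ⟨q, hq⟩ := IntermediateField.mem_bot.1 hsq
  have hq0 : q ≠ 0 := by
    rintro rfl
    rw [map_zero] at hq
    exact pow_ne_zero 2 h0 hq.symm
  let a : Z := algebraMap (RatFunc K) Z (algebraMap K[X] (RatFunc K) q.denom)
  have ha : a ≠ 0 := by
    intro h3
    have h4 : algebraMap K[X] (RatFunc K) q.denom = 0 := by
      apply (algebraMap (RatFunc K) Z).injective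
      rw [map_zero]
      exact h3
    exact RatFunc.denom_ne_zero q ((RatFunc.algebraMap_injective K) (by rw [h4, map_zero]))
  have hγa : ∀ γ : Z ≃ₐ[RatFunc K] Z, γ a = a := fun γ => γ.commutes _
  obtain ⟨γ₀, hγ₀⟩ : ∃ γ₀, γ₀ ∉ P := by
    by_contra hcon
    push Not at hcon
    have h1 : P = ⊤ := (Subgroup.eq_top_iff' P).2 hcon
    rw [h1, Subgroup.index_top] at hP
    omega
  refine ⟨a * δ₁, (q.num * q.denom).comp (X + C t₀), ?_, ?_, ⟨γ₀, ?_⟩, ?_⟩
  · intro h3
    have h4 : ((q.num * q.denom).comp (X + C t₀)).comp (X - C t₀) = 0 := by rw [h3, zero_comp]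
    rw [comp_assoc] at h4
    simp only [add_comp, X_comp, C_comp, sub_add_cancel, comp_X] at h4
    exact mul_ne_zero (RatFunc.num_ne_zero hq0) (RatFunc.denom_ne_zero q) h4
  · ext γ
    rw [MulAction.mem_stabilizer_iff]
    change γ (a * δ₁) = a * δ₁ ↔ _
    rw [map_mul, hγa]
    constructor
    · intro h3
      by_contra hγ
      rw [h2 γ hγ] at h3
      have h4 := mul_left_cancel₀ ha h3
      have h5 : (2 : Z) * δ₁ = 0 := by linear_combination -h4
      exact mul_ne_zero (by norm_num) h0 h5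
    · intro hγ
      rw [h1 γ hγ]
  · rw [map_mul, hγa, h2 γ₀ hγ₀, mul_neg]
  · rw [comp_assoc]
    simp only [add_comp, X_comp, C_comp, sub_add_cancel, comp_X]
    rw [mul_pow, ← hq, ← map_pow, ← map_mul]
    congr 1
    have h3 : algebraMap K[X] (RatFunc K) q.denom ≠ 0 := fun h4 =>
      RatFunc.denom_ne_zero q ((RatFunc.algebraMap_injective K) (by rw [h4, map_zero]))
    have h4 : algebraMap K[X] (RatFunc K) q.num = q * algebraMap K[X] (RatFunc K) q.denom := by
      have h5 := RatFunc.num_div_denom q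
      rwa [div_eq_iff h3] at h5
    rw [map_mul, h4]
    ring

end start

end Pool.Agent.Y793
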