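import Mathlib
import Pool.Agent.Y793.Asa

set_option autoImplicit false
set_option linter.unusedSectionVars false
set_option linter.unusedSimpArgs false

namespace Pool.Agent.Y793

open Polynomial Pool.Agent.H391R2 Pool.Agent.H391R2.T4

section core

variable {K Z : Type} [Field K] [CharZero K] [Field Z] [Algebra (RatFunc K) Z] [Algebra K Z]
  [IsScalarTower K (RatFunc K) Z] [FiniteDimensional (RatFunc K) Z] [IsGalois (RatFunc K) Z]

theorem core (hgen : St_gen) (hiso : St_iso) (hext : St_ext) (hgrp : St_grp) (hevn : St_evn)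
    (hcyc : St_cyc) (hari : St_arith)
    (hreg : ∀ y : Z, IsAlgebraic K y → y ∈ Set.range (algebraMap K Z)) (t₀ : K)
    (hstar : ∀ (z : Z) (a : K), a ≠ 0 →
      z ^ 2 ≠ algebraMap (RatFunc K) Z (RatFunc.C a * (RatFunc.X - RatFunc.C t₀)))
    (δ : Z) (D : K[X])
    (hδ : δ ^ 2 = algebraMap (RatFunc K) Z (algebraMap K[X] (RatFunc K) (D.comp (X - C t₀))))
    (γ₀ : Z ≃ₐ[RatFunc K] Z) (hγ₀ : γ₀ δ = -δ)
    (hperf : commutator (MulAction.stabilizer (Z ≃ₐ[RatFunc K] Z) δ) = ⊤) (k p : ℕ)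
    (κ g u : Fin p → K[X]) (h : DOK D k κ g u) (hk : 2 * D.natDegree + 2 ≤ k)
    (hcard : (Nat.card (MulAction.stabilizer (Z ≃ₐ[RatFunc K] Z) δ)) ^ 2 ≤ k) (hk1 : 1 ≤ k) :
    RegSol K K (AWr (MulAction.stabilizer (Z ≃ₐ[RatFunc K] Z) δ) (2 * (2 * (2 * k + 1)))) 1 := by
  classical
  let k₀ := AlgebraicClosure K
  obtain ⟨N, i1, i2, i3, η, hη⟩ := exists_trb k₀ (Ix (Fin p))
  let i4 : Algebra K N := ((algebraMap k₀ N).comp (algebraMap K k₀)).toAlgebra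
  have i5 : IsScalarTower K k₀ N := .of_algebraMap_eq fun _ => rfl
  obtain ⟨r, φ, S⟩ := exists_sy η hη h t₀ δ hk hgen hiso hδ γ₀ hγ₀
  obtain ⟨F, j1, j2, j3, j4, j5, c, hc, T₁, w₁, m, a, ha, haw, hprod, hA⟩ :=
    exists_triple h hk hgen hiso k₀
  have hgam := gam_ne h c hc
  have hroot : ∀ i, (PP D κ g u (fun i => η (Sum.inl i)) (η (Sum.inr ()))).eval (r i) = 0 :=
    fun i => (S.lp i).hp.root
  have hnm : 2 * (2 * (2 * k + 1)) = m + 3 := by
    have h1 := (PP_deg h hk c T₁ hgam).1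
    rw [hprod, natDegree_C_mul (pow_ne_zero 2 hgam), natDegree_mul
      (pow_ne_zero 3 (X_sub_C_ne_zero w₁))
      (Finset.prod_ne_zero_iff.2 fun i _ => X_sub_C_ne_zero _), natDegree_pow,
      natDegree_X_sub_C, natDegree_prod _ _ (fun i _ => X_sub_C_ne_zero _)] at h1
    simp only [natDegree_X_sub_C, Finset.sum_const, Finset.card_univ, Fintype.card_fin,
      smul_eq_mul] at h1
    omega
  have h3 : ∃ (σ : N ≃ₐ[k₀] N) (π : Equiv.Perm (Fin (2 * (2 * (2 * k + 1))))),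
      (∀ i, σ (η i) = η i) ∧ (∀ i, σ (r i) = r (π i)) ∧ π.IsThreeCycle := by
    have key : ∀ (n : ℕ) (r : Fin n → N), n = m + 3 → Function.Injective r →
        (∀ i, (PP D κ g u (fun i => η (Sum.inl i)) (η (Sum.inr ()))).eval (r i) = 0) →
        ∃ (σ : N ≃ₐ[k₀] N) (π : Equiv.Perm (Fin n)),
          (∀ i, σ (η i) = η i) ∧ (∀ i, σ (r i) = r (π i)) ∧ π.IsThreeCycle := by
      rintro n r rfl hr hr2
      exact hcyc K (Fin p) D κ g u k h hk k₀ N η hη F c hc hgam T₁ w₁ m a ha haw hprod hA r hr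
        hr2
    exact key _ r hnm S.inj hroot
  have hn2 : 2 * (Nat.card (MulAction.stabilizer (Z ≃ₐ[RatFunc K] Z) δ)) ^ 2 <
      (2 * (2 * (2 * k + 1)) - 2).factorial := by
    refine lt_of_lt_of_le ?_ (Nat.self_le_factorial _)
    omega
  have hgeo := geo η hη h t₀ δ hgen hiso hext hgrp hreg hstar S hperf (by omega) hn2 h3
  obtain ⟨θ, hθ⟩ := Field.exists_primitive_element (RatFunc K) Z
  refine hari K k₀ N (Ix (Fin p)) η hη (MulAction.stabilizer (Z ≃ₐ[RatFunc K] Z) δ) _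
    (AWr (MulAction.stabilizer (Z ≃ₐ[RatFunc K] Z) δ) (2 * (2 * (2 * k + 1)))) r S.inj
    (fun i γ => φ i ((γ : Z ≃ₐ[RatFunc K] Z) θ)) ?_ ?_ ?_
  · intro i γ γ' hγ
    have h4 : (γ : Z ≃ₐ[RatFunc K] Z) θ = (γ' : Z ≃ₐ[RatFunc K] Z) θ := (φ i).injective hγ
    apply Subtype.ext
    apply AlgEquiv.ext
    intro z
    have h5 : z ∈ IntermediateField.adjoin (RatFunc K) {θ} := by
      rw [hθ]
      exact IntermediateField.mem_top
    exact eq_on_adjoin ((γ : Z ≃ₐ[RatFunc K] Z) : Z →ₐ[RatFunc K] Z)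
      ((γ' : Z ≃ₐ[RatFunc K] Z) : Z →ₐ[RatFunc K] Z) {θ} (by
        rintro s hs
        rw [Set.mem_singleton_iff.1 hs]
        exact h4) z h5
  · intro σ hσ
    obtain ⟨x, hx, hx2⟩ := exists_x η hη h t₀ δ hk hgen hiso hevn S σ hσ
    exact ⟨x, hx, fun i => ⟨(hx2 i).1, fun γ => (hx2 i).2 _⟩⟩
  · intro x hx
    obtain ⟨σ, h1, h2⟩ := hgeo x hx
    exact ⟨σ, h1, fun i => ⟨(h2 i).1, fun γ => (h2 i).2 _⟩⟩

end core

theorem main_of (hgen : St_gen) (hiso : St_iso) (hext : St_ext) (hstar : St_star)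
    (hgrp : St_grp) (hevn : St_evn) (hcyc : St_cyc) (hari : St_arith) (hdata : St_data) :
    St_main := by
  intro K _ _ Γ _ _ hΓ P hP hperf
  obtain ⟨Z, i1, i2, i3, i4, i5, i6, i7, i8, γ, -, hreg⟩ := hΓ
  have h34 : i3 = i4 := Algebra.algebra_ext i3 i4 (fun x =>
    (@IsScalarTower.algebraMap_apply K K Z _ _ _ _ i3 i4 i6 x).symm)
  subst h34
  have hP' : (P.comap (γ : (Z ≃ₐ[RatFunc K] Z) →* Γ)).index = 2 := by
    rw [Subgroup.index_comap_of_surjective _ γ.surjective, hP]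
  obtain ⟨t₀, ht₀⟩ := hstar K Z
  obtain ⟨δ, D, hD, hst, ⟨γ₀, hγ₀⟩, hδ⟩ := start _ hP' t₀
  let e : MulAction.stabilizer (Z ≃ₐ[RatFunc K] Z) δ ≃* P :=
    (MulEquiv.subgroupCongr hst).trans ((γ.subgroupMap _).trans (MulEquiv.subgroupCongr
      (Subgroup.map_comap_eq_self_of_surjective γ.surjective P)))
  have hperf' : commutator (MulAction.stabilizer (Z ≃ₐ[RatFunc K] Z) δ) = ⊤ :=
    perf_congr e.symm hperf
  obtain ⟨k₁, hk₁⟩ := hdata K D hD
  refine ⟨k₁ + (2 * D.natDegree + 2) +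
    (Nat.card (MulAction.stabilizer (Z ≃ₐ[RatFunc K] Z) δ)) ^ 2 + 1, fun k hk => ?_⟩
  obtain ⟨p, κ, g, u, h⟩ := hk₁ k (by omega)
  have h1 := core hgen hiso hext hgrp hevn hcyc hari hreg t₀ ht₀ δ D hδ γ₀ hγ₀ hperf' k p κ g u h
    (by omega) (by omega) (by omega)
  have hn : 2 * (2 * (2 * k + 1)) = 8 * k + 4 := by ring
  rw [hn] at h1
  exact regSol_congr K _ _ (aCongr e _) h1

end Pool.Agent.Y793
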