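import Mathlib
import Pool.Agent.Y793.Asb
import Pool.Agent.Y203.J.Iso
import Pool.Agent.Y203.J.Data
import Pool.Agent.Y203.J.Ari
import Pool.Agent.Y203.J.Cyc
import Pool.Agent.Y241.WR.Ext
import Pool.Agent.Y241.WR.Grp
import Pool.Agent.Y590.IG.Evn
import Pool.Agent.H391R2.T4.Fin

set_option autoImplicit false
set_option linter.unusedSectionVars false
set_option linter.unusedSimpArgs false

namespace Pool.Agent.Y793

open Pool.Agent.H391R2 Pool.Agent.H391R2.T4

theorem main : St_main :=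
  main_of Y203.J.t_gen Y203.J.t_iso Y241.WR.t_ext Y241.WR.t_star Y241.WR.t_grp Y590.IG.t_evn
    Y203.J.Cyc.t_cyc Y203.J.Ari.t_arith Y203.J.t_data

section app

variable (K G : Type) [Field K] [CharZero K] [Group G] [Finite G]

theorem reg_wr : ∃ n₀ : ℕ, ∀ n ≥ n₀, RegSol K K (Wr G n) 1 := by
  obtain ⟨n₀, hn₀⟩ := reg_wreath K K G 1
  refine ⟨n₀, fun n hn => ?_⟩
  obtain ⟨-, F, i1, i2, i3, i4, i5, i6, i7, i8, γ, hγ, hr⟩ := hn₀ n hn
  have hsub : ∀ a b : (K ≃ₐ[K] K), a = b := fun a b => by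
    apply AlgEquiv.ext
    intro x
    exact (a.commutes x).trans (b.commutes x).symm
  let e : EG (1 : (K ≃ₐ[K] K) →* MulAut G) n ≃* Wr G n :=
    { toFun := fun z => z.left
      invFun := fun x => ⟨x, 1⟩
      left_inv := fun z => by
        apply SemidirectProduct.ext
        · rfl
        · exact hsub _ _
      right_inv := fun x => rfl
      map_mul' := fun a b => by
        rw [eg_mul_left]
        have h1 : b.left = wrAct (1 : (K ≃ₐ[K] K) →* MulAut G) n a.right b.left := by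
          rw [hsub a.right 1, map_one]
          rfl
        rw [← h1] }
  refine ⟨F, i1, i2, i3, i4, i5, i6, i7, i8, γ.trans e, fun σ x => ?_, hr⟩
  rw [hγ]
  congr 1
  have h1 : (SemidirectProduct.rightHom (γ σ) : K ≃ₐ[K] K) = 1 := hsub _ _
  rw [h1]
  rfl

omit [CharZero K] [Finite G] in
theorem awr_index {n : ℕ} (hn : 2 ≤ n) : (AWr G n).index = 2 := by
  have hnt : Nontrivial (Fin n) := Fin.nontrivial_iff_two_le.2 hn
  unfold AWr
  rw [Subgroup.index_ker]
  have h1 : (Equiv.Perm.sign.comp (SemidirectProduct.rightHom : Wr G n →* _)).range = ⊤ := by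
    rw [MonoidHom.range_eq_top]
    exact (Equiv.Perm.sign_surjective (Fin n)).comp SemidirectProduct.rightHom_surjective
  rw [h1, Nat.card_congr Subgroup.topEquiv.toEquiv]
  simp

theorem tower (hG : commutator G = ⊤) : ∃ n₀ : ℕ, ∀ n ≥ n₀, ∃ k₀ : ℕ, ∀ k ≥ k₀,
    RegSol K K (AWr (AWr G n) (8 * k + 4)) 1 := by
  obtain ⟨n₀, hn₀⟩ := reg_wr K G
  refine ⟨n₀ + 5, fun n hn => ?_⟩
  have hf : Finite (Wr G n) := finite_wr G n
  exact main K (Wr G n) (hn₀ n (by omega)) (AWr G n) (awr_index G (by omega))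
    (Y241.WR.t_perf G hG n (by omega))

end app

/-- Regular realisations, in another form. -/
theorem reg_out (K A : Type) [Field K] [Group A] (h : RegSol K K A 1) :
    ∃ (F : Type) (_ : Field F) (_ : Algebra (RatFunc K) F) (_ : Algebra K F)
      (_ : IsScalarTower K (RatFunc K) F),
      IsGalois (RatFunc K) F ∧ Nonempty (A ≃* (F ≃ₐ[RatFunc K] F)) ∧
        ∀ y : F, IsAlgebraic K y → y ∈ Set.range (algebraMap K F) := by
  obtain ⟨F, i1, i2, i3, i4, i5, i6, i7, i8, γ, -, hr⟩ := h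
  have h34 : i3 = i4 := Algebra.algebra_ext i3 i4 (fun x =>
    (@IsScalarTower.algebraMap_apply K K F _ _ _ _ i3 i4 i6 x).symm)
  subst h34
  exact ⟨F, i1, i2, i3, i5, i8, ⟨γ.symm⟩, hr⟩

/-- Specialisation over a Hilbertian field. -/
theorem hil_out (K A : Type) [Field K] [Group A] [Finite A] (hK : HilbField K)
    (h : RegSol K K A 1) :
    ∃ (L : Type) (_ : Field L) (_ : Algebra K L), IsGalois K L ∧
      Nonempty (A ≃* (L ≃ₐ[K] L)) := by
  obtain ⟨F, i1, i2, i3, i4, i5, i6, i7, i8, γ, hγ, -⟩ := h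
  obtain ⟨F', j1, j2, j3, j4, j5, j6, γ', -⟩ := H33.hilbert_spec K hK K A 1
    ⟨F, i1, i2, i3, i4, i5, i6, i7, i8, γ, hγ⟩
  exact ⟨F', j1, j2, j6, ⟨γ'.symm⟩⟩

theorem tower_all (K : Type) [Field K] [CharZero K] (G : Type) [Group G] [Finite G]
    (hG : commutator G = ⊤) :
    ∃ n₀ : ℕ, ∀ n ≥ n₀, ∃ k₀ : ℕ, ∀ k ≥ k₀,
      commutator (AWr (AWr G n) (8 * k + 4)) = ⊤ ∧
      (∃ (F : Type) (_ : Field F) (_ : Algebra (RatFunc K) F) (_ : Algebra K F)
      (_ : IsScalarTower K (RatFunc K) F),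
      IsGalois (RatFunc K) F ∧ Nonempty (AWr (AWr G n) (8 * k + 4) ≃* (F ≃ₐ[RatFunc K] F)) ∧
        ∀ y : F, IsAlgebraic K y → y ∈ Set.range (algebraMap K F)) ∧
      (FiniteDimensional ℚ K → ∃ (L : Type) (_ : Field L) (_ : Algebra K L), IsGalois K L ∧
        Nonempty (AWr (AWr G n) (8 * k + 4) ≃* (L ≃ₐ[K] L))) := by
  obtain ⟨n₀, h⟩ := tower K G hG
  refine ⟨n₀ + 5, fun n hn => ?_⟩
  obtain ⟨k₀, h2⟩ := h n (by omega)
  refine ⟨k₀ + 1, fun k hk => ⟨?_, ?_, fun hfd => ?_⟩⟩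
  · exact Y241.WR.t_perf _ (Y241.WR.t_perf G hG n (by omega)) _ (by omega)
  · exact reg_out K _ (h2 k (by omega))
  · have hf : Finite (Wr G n) := finite_wr G n
    have hf2 : Finite (Wr (AWr G n) (8 * k + 4)) := finite_wr _ _
    have hnf : NumberField K := ⟨⟩
    exact hil_out K _ (hilb_numberField K) (h2 k (by omega))

end Pool.Agent.Y793
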