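import Mathlib
import Pool.Agent.Y793.Fin
import Pool.Agent.TH444.ML.Done
import Pool.Agent.TH444.TW.RSK

set_option autoImplicit false
set_option linter.unusedSectionVars false

namespace Pool.Agent.Y793

open Pool.Agent.H391R2 Pool.Agent.H391R2.T4

section grp

variable (A : Type) [Group A] [Finite A] (n : ℕ)

/-- An even permutation which maps `i` to `j`. -/
theorem exists_even {n : ℕ} (hn : 3 ≤ n) (i j : Fin n) :
    ∃ σ : Equiv.Perm (Fin n), Equiv.Perm.sign σ = 1 ∧ σ i = j := by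
  by_cases hij : i = j
  · exact ⟨1, map_one _, by rw [hij]; rfl⟩
  obtain ⟨c, hc⟩ : ∃ c : Fin n, c ∉ ({i, j} : Finset (Fin n)) := by
    by_contra hcon
    push Not at hcon
    have h1 : (Finset.univ : Finset (Fin n)) ⊆ {i, j} := fun x _ => hcon x
    have h2 := Finset.card_le_card h1
    have h3 : ({i, j} : Finset (Fin n)).card ≤ 2 := Finset.card_le_two
    rw [Finset.card_univ, Fintype.card_fin] at h2
    omega
  rw [Finset.mem_insert, Finset.mem_singleton, not_or] at hc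
  refine ⟨Equiv.swap i j * Equiv.swap j c, ?_, ?_⟩
  · rw [map_mul, Equiv.Perm.sign_swap hij, Equiv.Perm.sign_swap (Ne.symm hc.2)]
    rfl
  · rw [Equiv.Perm.mul_apply, Equiv.swap_apply_of_ne_of_ne hij (Ne.symm hc.1),
      Equiv.swap_apply_left]

theorem awr_core (hn : 3 ≤ n) :
    ∃ U : Subgroup (AWr A n), U.normalCore = ⊥ ∧ U.index ≤ Nat.card A * n := by
  classical
  letI := TH444.ML.wrAct A n
  let i₀ : Fin n := ⟨0, by omega⟩
  have hdef : ∀ (w : Wr A n) (x : A × Fin n),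
      w • x = (w.left (w.right x.2) * x.1, w.right x.2) := fun _ _ => rfl
  have htrans : ∀ x : A × Fin n, ∃ w : AWr A n, w • ((1 : A), i₀) = x := by
    rintro ⟨a, i⟩
    obtain ⟨σ, h1, h2⟩ := exists_even hn i₀ i
    refine ⟨⟨⟨fun _ => a, σ⟩, h1⟩, ?_⟩
    change ((⟨fun _ => a, σ⟩ : Wr A n) • ((1 : A), i₀)) = _
    rw [hdef]
    simp [h2]
  refine ⟨MulAction.stabilizer (AWr A n) ((1 : A), i₀), ?_, ?_⟩
  · rw [eq_bot_iff]
    intro x hx
    have hfix : ∀ y : A × Fin n, x • y = y := by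
      intro y
      obtain ⟨w, rfl⟩ := htrans y
      have h1 : w⁻¹ * x * w ∈ MulAction.stabilizer (AWr A n) ((1 : A), i₀) := by
        have := hx w⁻¹
        simpa using this
      rw [MulAction.mem_stabilizer_iff, mul_smul, mul_smul, inv_smul_eq_iff] at h1
      exact h1
    have hfix' : ∀ y : A × Fin n, (x : Wr A n) • y = y := hfix
    rw [Subgroup.mem_bot]
    apply Subtype.ext
    have hr : (x : Wr A n).right = 1 := by
      ext i
      have := congrArg (fun z : A × Fin n => (z.2 : ℕ)) (hfix' (1, i))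
      simpa [hdef] using this
    apply SemidirectProduct.ext
    · funext i
      have := congrArg Prod.fst (hfix' (1, i))
      rw [hdef] at this
      simp only [hr, Equiv.Perm.one_apply, mul_one] at this
      exact this
    · exact hr
  · rw [MulAction.index_stabilizer]
    refine (Set.ncard_le_ncard (Set.subset_univ _) Set.finite_univ).trans ?_
    rw [Set.ncard_univ, Nat.card_prod, Nat.card_fin]

theorem awr_card (hn : 2 ≤ n) : 2 * Nat.card (AWr A n) = Nat.card A ^ n * n.factorial := by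
  have h1 := (AWr A n).card_mul_index
  rw [awr_index A hn, TH444.ML.wr_card] at h1
  omega

theorem awr_bound {a n : ℕ} (ha : 1 ≤ a) (hn : 10 ≤ n) :
    2 * (8 * (a * n) * (a * n + 1)) ≤ a ^ n * n.factorial := by
  have h1 : 8 * (a * n) * (a * n + 1) ≤ 16 * (a ^ 2 * n ^ 2) := by
    have : 1 ≤ a * n := Nat.one_le_iff_ne_zero.2 (by positivity)
    nlinarith
  have h2 : a ^ 2 ≤ a ^ n := Nat.pow_le_pow_right ha (by omega)
  have h3 : ∀ m : ℕ, 32 * (m + 10) ^ 2 ≤ (m + 10).factorial := by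
    intro m
    induction m with
    | zero => decide
    | succ m ih =>
      have e : (m + 1 + 10).factorial = (m + 11) * (m + 10).factorial := by
        rw [show m + 1 + 10 = (m + 10) + 1 by ring, Nat.factorial_succ]
      rw [e]
      have : 32 * (m + 1 + 10) ^ 2 ≤ (m + 11) * (32 * (m + 10) ^ 2) := by nlinarith
      exact this.trans (Nat.mul_le_mul_left _ ih)
  have h4 : 32 * n ^ 2 ≤ n.factorial := by
    obtain ⟨m, rfl⟩ := Nat.exists_eq_add_of_le hn
    rw [show 10 + m = m + 10 by ring]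
    exact h3 m
  calc 2 * (8 * (a * n) * (a * n + 1)) ≤ 2 * (16 * (a ^ 2 * n ^ 2)) := Nat.mul_le_mul_left _ h1
    _ = a ^ 2 * (32 * n ^ 2) := by ring
    _ ≤ a ^ n * n.factorial := Nat.mul_le_mul h2 h4

theorem awr_data (hn : 10 ≤ n) : 2 ≤ Nat.card (AWr A n) ∧ ∃ U : Subgroup (AWr A n),
    U.normalCore = ⊥ ∧ 8 * U.index * (U.index + 1) ≤ Nat.card (AWr A n) := by
  have hA : 1 ≤ Nat.card A := Nat.card_pos
  have h1 := awr_card A n (by omega)
  have h2 := awr_bound (a := Nat.card A) hA hn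
  have h3 : 10 ≤ Nat.card A * n := by nlinarith
  refine ⟨by nlinarith, ?_⟩
  obtain ⟨U, hU, hi⟩ := awr_core A n (by omega)
  refine ⟨U, hU, ?_⟩
  have h4 : 8 * U.index * (U.index + 1) ≤ 8 * (Nat.card A * n) * (Nat.card A * n + 1) := by
    gcongr
  omega

end grp

/-- A realization inside an algebraic closure. -/
theorem gal_of_real (K Ω H : Type) [Field K] [NumberField K] [Field Ω] [Algebra K Ω]
    [IsAlgClosure K Ω] [Group H] [Finite H]
    (h : ∃ (L : Type) (_ : Field L) (_ : Algebra K L), IsGalois K L ∧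
      Nonempty (H ≃* (L ≃ₐ[K] L))) : (TH444.ML.Gal K Ω H).Nonempty := by
  obtain ⟨F, _, _, hg, ⟨γ⟩⟩ := h
  have hfin : Finite (F ≃ₐ[K] F) := Finite.of_equiv H γ.toEquiv
  have hfd : FiniteDimensional K F := TH444.ML.fd_of_finite_aut K F
  have hac : IsAlgClosed Ω := IsAlgClosure.isAlgClosed K
  let j : F →ₐ[K] Ω := IsAlgClosed.lift
  let ε : F ≃ₐ[K] j.fieldRange := AlgEquiv.ofInjectiveField j
  refine ⟨j.fieldRange, ?_, ?_, ?_⟩
  · exact Module.Finite.equiv ε.toLinearEquiv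
  · exact IsGalois.of_algEquiv ε
  · exact ⟨(AlgEquiv.autCongr ε).symm.trans γ.symm⟩

end Pool.Agent.Y793

namespace Pool.Agent.Y793

open Pool.Agent.H391R2 Pool.Agent.H391R2.T4

/-- The alternating towers over all fields of characteristic zero, uniformly. -/
theorem tower_unif (G : Type) [Group G] [Finite G] (hG : commutator G = ⊤) :
    ∃ n₀ : ℕ, ∀ n ≥ n₀, ∃ k₀ : ℕ, ∀ k ≥ k₀, ∀ (K : Type) [Field K] [CharZero K],
      RegSol K K (AWr (AWr G n) (8 * k + 4)) 1 := by
  obtain ⟨n₀, h⟩ := tower ℚ G hG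
  refine ⟨n₀, fun n hn => ?_⟩
  obtain ⟨k₀, h2⟩ := h n hn
  refine ⟨k₀, fun k hk K _ _ => ?_⟩
  have hf : Finite (Wr G n) := finite_wr G n
  have hf2 : Finite (Wr (AWr G n) (8 * k + 4)) := finite_wr _ _
  exact TH444.TW.reg_base ℚ K _ (h2 k hk)

/-- The alternating towers over all number fields. -/
theorem tower_real (G : Type) [Group G] [Finite G] (hG : commutator G = ⊤) :
    ∃ n₀ : ℕ, ∀ n ≥ n₀, ∃ k₀ : ℕ, ∀ k ≥ k₀,
      Finite (AWr (AWr G n) (8 * k + 4)) ∧ 2 ≤ Nat.card (AWr (AWr G n) (8 * k + 4)) ∧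
      (∃ U : Subgroup (AWr (AWr G n) (8 * k + 4)), U.normalCore = ⊥ ∧
        8 * U.index * (U.index + 1) ≤ Nat.card (AWr (AWr G n) (8 * k + 4))) ∧
      ∀ (K : Type) [Field K] [NumberField K],
        (TH444.ML.Gal K (AlgebraicClosure K) (AWr (AWr G n) (8 * k + 4))).Nonempty := by
  obtain ⟨n₀, h⟩ := tower_unif G hG
  refine ⟨n₀, fun n hn => ?_⟩
  obtain ⟨k₀, h2⟩ := h n hn
  refine ⟨k₀ + 2, fun k hk => ?_⟩
  have hf : Finite (Wr G n) := finite_wr G n
  have hf2 : Finite (Wr (AWr G n) (8 * k + 4)) := finite_wr _ _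
  have hf3 : Finite (AWr (AWr G n) (8 * k + 4)) := inferInstance
  obtain ⟨hc, hU⟩ := awr_data (AWr G n) (8 * k + 4) (by omega)
  refine ⟨hf3, hc, hU, fun K _ _ => ?_⟩
  exact gal_of_real K (AlgebraicClosure K) _ (hil_out K _ (hilb_numberField K) (h2 k (by omega) K))

end Pool.Agent.Y793
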